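import Pool.Agent.Helper81.HI.Enc

/-!
# Alternating forms: commuting pairs control hypersurfaces
-/

set_option autoImplicit false

open Finset MvPolynomial
open Pool.Agent.Helper29.Zeta Pool.Agent.Helper50.KR

namespace Pool.Agent.Helper81.HI

/-- the alternating matrices `(0, M; -M^T, 0)` -/
def alt {m : ℕ} {I J : Type} (M : Fin m → I → J → ℤ) (l : Fin m) : I ⊕ J → I ⊕ J → ℤ
  | Sum.inl i, Sum.inr j => M l i j
  | Sum.inr j, Sum.inl i => - M l i j
  | Sum.inl _, Sum.inl _ => 0
  | Sum.inr _, Sum.inr _ => 0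

lemma alt_neg {m : ℕ} {I J : Type} (M : Fin m → I → J → ℤ) (l : Fin m) (i j : I ⊕ J) :
    alt M l i j = - alt M l j i := by
  rcases i with i | i <;> rcases j with j | j <;> simp [alt]

lemma alt_congr {m m' : ℕ} {I J : Type} (M : Fin m → I → J → ℤ) (M' : Fin m' → I → J → ℤ)
    (l : Fin m) (l' : Fin m') (h : ∀ i j, M l i j = M' l' i j) (i j : I ⊕ J) :
    alt M l i j = alt M' l' i j := by
  rcases i with i | i <;> rcases j with j | j <;> simp [alt, h]

section

variable {k : Type} [Field k] [Finite k] {I J : Type} [Fintype I] [Fintype J]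

/-- the two kernels of a matrix -/
lemma ker_transpose (N : I → J → k) :
    (Nat.card k : ℤ) ^ (Fintype.card I) * Nat.card {y : J → k // ∀ i, ∑ j, N i j * y j = 0} =
      (Nat.card k : ℤ) ^ (Fintype.card J) *
        Nat.card {z : I → k // ∀ j, ∑ i, N i j * z i = 0} := by
  have : Fintype k := Fintype.ofFinite k
  have h1 := card_form (k := k) (α := J → k) (I := I) (fun y i => ∑ j, N i j * y j)
  have h2 := card_form (k := k) (α := I → k) (I := J) (fun z j => ∑ i, N i j * z i)
  have h3 : Nat.card {p : (J → k) × (I → k) // ∑ i, (∑ j, N i j * p.1 j) * p.2 i = 0} =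
      Nat.card {p : (I → k) × (J → k) // ∑ j, (∑ i, N i j * p.1 i) * p.2 j = 0} := by
    refine Nat.card_congr (Equiv.subtypeEquiv (Equiv.prodComm _ _) fun p => Eq.congr_left ?_)
    show _ = ∑ j, (∑ i, N i j * p.2 i) * p.1 j
    simp only [Finset.sum_mul]
    rw [Finset.sum_comm]
    exact Finset.sum_congr rfl fun j _ => Finset.sum_congr rfl fun i _ => by ring
  rw [h3, h2, Nat.card_fun, Nat.card_fun, Nat.card_eq_fintype_card (α := I),
    Nat.card_eq_fintype_card (α := J)] at h1
  push_cast at h1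
  have hq : ((Nat.card k : ℤ) - 1) ≠ 0 := by
    have := Finite.one_lt_card (α := k)
    omega
  have h4 : ((Nat.card k : ℤ) - 1) * ((Nat.card k : ℤ) ^ (Fintype.card I) *
      Nat.card {y : J → k // ∀ i, ∑ j, N i j * y j = 0}) =
      ((Nat.card k : ℤ) - 1) * ((Nat.card k : ℤ) ^ (Fintype.card J) *
        Nat.card {z : I → k // ∀ j, ∑ i, N i j * z i = 0}) := by
    linear_combination -h1
  exact mul_left_cancel₀ hq h4

omit [Finite k] in
lemma alt_affine {m : ℕ} (M : Fin (m + 1) → I → J → ℤ) (x : Fin m → k) (w : I ⊕ J → k) :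
    (∀ i, ∑ j, ((alt M 0 i j : k) + ∑ l : Fin m, x l * (alt M l.succ i j : k)) * w j = 0) ↔
      (∀ j, ∑ i, ((M 0 i j : k) + ∑ l : Fin m, x l * (M l.succ i j : k)) * w (Sum.inl i) = 0) ∧
      (∀ i, ∑ j, ((M 0 i j : k) + ∑ l : Fin m, x l * (M l.succ i j : k)) * w (Sum.inr j) = 0) := by
  have h1 : ∀ i, ∑ j, ((alt M 0 (Sum.inl i) j : k) +
      ∑ l : Fin m, x l * (alt M l.succ (Sum.inl i) j : k)) * w j =
      ∑ j, ((M 0 i j : k) + ∑ l : Fin m, x l * (M l.succ i j : k)) * w (Sum.inr j) := by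
    intro i
    rw [Fintype.sum_sum_type]
    simp [alt]
  have h2 : ∀ j, ∑ i, ((alt M 0 (Sum.inr j) i : k) +
      ∑ l : Fin m, x l * (alt M l.succ (Sum.inr j) i : k)) * w i =
      - ∑ i, ((M 0 i j : k) + ∑ l : Fin m, x l * (M l.succ i j : k)) * w (Sum.inl i) := by
    intro j
    rw [Fintype.sum_sum_type]
    simp only [alt, Int.cast_zero, mul_zero, Finset.sum_const_zero, add_zero, zero_mul,
      Int.cast_neg]
    rw [← Finset.sum_neg_distrib]
    refine Finset.sum_congr rfl fun i _ => ?_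
    have : ∑ l : Fin m, x l * -(M l.succ i j : k) = - ∑ l : Fin m, x l * (M l.succ i j : k) := by
      rw [← Finset.sum_neg_distrib]
      exact Finset.sum_congr rfl fun l _ => by ring
    rw [this]; ring
  constructor
  · intro h
    refine ⟨fun j => ?_, fun i => ?_⟩
    · have := h (Sum.inr j)
      rw [h2, neg_eq_zero] at this
      exact this
    · have := h (Sum.inl i)
      rw [h1] at this
      exact this
  · rintro ⟨h3, h4⟩ (i | j)
    · rw [h1]; exact h4 i
    · rw [h2, h3 j, neg_zero]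

lemma Kaff_alt {m : ℕ} (M : Fin (m + 1) → I → J → ℤ) [Fintype (Fin m → k)] :
    Kaff k (alt M) = ∑ x : Fin m → k,
      Nat.card {z : I → k // ∀ j, ∑ i, ((M 0 i j : k) +
        ∑ l : Fin m, x l * (M l.succ i j : k)) * z i = 0} *
      Nat.card {y : J → k // ∀ i, ∑ j, ((M 0 i j : k) +
        ∑ l : Fin m, x l * (M l.succ i j : k)) * y j = 0} := by
  unfold Kaff
  rw [card_fib (fun (x : Fin m → k) (w : I ⊕ J → k) => ∀ i, ∑ j, ((alt M 0 i j : k) +
    ∑ l : Fin m, x l * (alt M l.succ i j : k)) * w j = 0)]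
  refine Finset.sum_congr rfl fun x _ => ?_
  rw [← Nat.card_prod]
  refine Nat.card_congr
    { toFun := fun w => (⟨fun i => w.1 (Sum.inl i), ((alt_affine M x w.1).mp w.2).1⟩,
        ⟨fun j => w.1 (Sum.inr j), ((alt_affine M x w.1).mp w.2).2⟩)
      invFun := fun p => ⟨Sum.elim p.1.1 p.2.1, (alt_affine M x _).mpr ⟨p.1.2, p.2.2⟩⟩
      left_inv := fun w => ?_
      right_inv := fun p => ?_ }
  · apply Subtype.ext
    funext i
    rcases i with i | i <;> rfl
  · rfl

end

lemma card_ann {N : ℕ} (f : MvPolynomial (Fin N) ℤ) {k : Type} [Field k] [Finite k]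
    (x : Fin N → k) :
    (Nat.card {t : k // aeval x f * t = 0} : ℤ) =
      1 + ((Nat.card k : ℤ) - 1) * Nat.card {_u : Unit // aeval x f = 0} := by
  by_cases h : aeval x f = 0
  · have h1 : Nat.card {t : k // aeval x f * t = 0} = Nat.card k :=
      Nat.card_congr (Equiv.subtypeUnivEquiv fun t => by rw [h, zero_mul])
    have h2 : Nat.card {_u : Unit // aeval x f = 0} = 1 := by
      rw [Nat.card_congr (Equiv.subtypeUnivEquiv fun _ => h)]; simp
    rw [h1, h2]; push_cast; ring
  · have h1 : Nat.card {t : k // aeval x f * t = 0} = 1 := by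
      rw [Nat.card_eq_one_iff_unique]
      refine ⟨⟨fun a b => ?_⟩, ⟨⟨0, mul_zero _⟩⟩⟩
      apply Subtype.ext
      rw [(mul_eq_zero.mp a.2).resolve_left h, (mul_eq_zero.mp b.2).resolve_left h]
    have h2 : Nat.card {_u : Unit // aeval x f = 0} = 0 := by
      rw [Nat.card_eq_zero]
      exact Or.inl ⟨fun u => h u.2⟩
    rw [h1, h2]; simp

lemma card_ann_sq {N : ℕ} (f : MvPolynomial (Fin N) ℤ) {k : Type} [Field k] [Finite k]
    (x : Fin N → k) :
    (Nat.card {t : k // aeval x f * t = 0} : ℤ) ^ 2 =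
      1 + ((Nat.card k : ℤ) ^ 2 - 1) * Nat.card {_u : Unit // aeval x f = 0} := by
  rw [card_ann]
  by_cases h : aeval x f = 0
  · have h2 : Nat.card {_u : Unit // aeval x f = 0} = 1 := by
      rw [Nat.card_congr (Equiv.subtypeUnivEquiv fun _ => h)]; simp
    rw [h2]; push_cast; ring
  · have h2 : Nat.card {_u : Unit // aeval x f = 0} = 0 := by
      rw [Nat.card_eq_zero]
      exact Or.inl ⟨fun u => h u.2⟩
    rw [h2]; simp

/-- the part `x_0 = 1` of the alternating encoding -/
lemma Kaff_alt_enc {N : ℕ} (f : MvPolynomial (Fin N) ℤ) (k : Type) [Field k] [Finite k] :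
    (Nat.card k : ℤ) ^ (Fintype.card (JJ f)) * Kaff k (alt (enc f)) =
      (Nat.card k : ℤ) ^ (Fintype.card (II f)) * ((Nat.card k : ℤ) ^ N +
        ((Nat.card k : ℤ) ^ 2 - 1) * Nat.card {x : Fin N → k // aeval x f = 0}) := by
  classical
  have : Fintype (Fin N → k) := Fintype.ofFinite _
  have h0 : (Nat.card {x : Fin N → k // aeval x f = 0} : ℤ) =
      ∑ x : Fin N → k, (Nat.card {_u : Unit // aeval x f = 0} : ℤ) := by
    rw [← Nat.cast_sum, ← card_fib (fun (x : Fin N → k) (_ : Unit) => aeval x f = 0)]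
    congr 1
    exact Nat.card_congr
      { toFun := fun a => ⟨(a.1, ()), a.2⟩
        invFun := fun p => ⟨p.1.1, p.2⟩
        left_inv := fun a => rfl
        right_inv := fun p => rfl }
  have h1 : (Nat.card k : ℤ) ^ N = ∑ _x : Fin N → k, (1 : ℤ) := by
    rw [Finset.sum_const, Finset.card_univ, ← Nat.card_eq_fintype_card, Nat.card_fun]
    simp
  rw [Kaff_alt, Nat.cast_sum, Finset.mul_sum, h0, h1, Finset.mul_sum, ← Finset.sum_add_distrib,
    Finset.mul_sum]
  refine Finset.sum_congr rfl fun x _ => ?_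
  have h2 := ker_transpose (k := k) (I := II f) (J := JJ f)
    (fun i j => (enc f 0 i j : k) + ∑ l : Fin N, x l * (enc f l.succ i j : k))
  have h3 := ker_enc f x
  rw [h3] at h2
  rw [h3, ← card_ann_sq]
  push_cast
  rw [← mul_assoc, ← h2]
  ring

lemma Kc_alt_enc {N : ℕ} (f : MvPolynomial (Fin N) ℤ) (k : Type) [Field k] [Finite k] :
    (Nat.card k : ℤ) * Kc k (alt (enc f)) - Kc k (alt (encInf f)) =
      (Nat.card k : ℤ) * (((Nat.card k : ℤ) - 1) * Kaff k (alt (enc f))) := by
  have h1 : (Kc k (alt (encInf f)) : ℤ) =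
      (Nat.card k : ℤ) * Kc k (fun l => alt (enc f) (Fin.succ l)) := by
    rw [Kc_inf (alt (encInf f)) (fun i j => by
      rcases i with i | i <;> rcases j with j | j <;> simp [alt, encInf]) k]
    have h2 : (fun l : Fin N => alt (encInf f) (Fin.succ l)) =
        fun l => alt (enc f) (Fin.succ l) := by
      funext l i j
      exact alt_congr _ _ _ _ (fun _ _ => rfl) i j
    rw [h2]
  rw [h1, Kc_succ]
  ring

lemma Bc_reindex (k : Type) [Field k] {m : ℕ} {I J I' J' : Type} [Fintype I] [Fintype J]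
    [Fintype I'] [Fintype J'] (e : I ≃ I') (e' : J ≃ J') (M : Fin m → I' → J' → ℤ) :
    Bc k M = Bc k (fun l i j => M l (e i) (e' j)) := by
  unfold Bc
  refine Nat.card_congr (Equiv.subtypeEquiv (Equiv.prodCongr
    (Equiv.arrowCongr e.symm (Equiv.refl _))
      (Equiv.arrowCongr e'.symm (Equiv.refl _))) fun p => forall_congr' fun l => Eq.congr_left ?_)
  rw [← Equiv.sum_comp e]
  refine Finset.sum_congr rfl fun i _ => ?_
  rw [← Equiv.sum_comp e']
  rfl

variable {P : (ℕ → ℤ) → Prop} (hP : Cls P)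

include hP

/-- **Pairs of commuting elements control hypersurfaces.** -/
theorem hyp_of_alt {N : ℕ} (hB : ∀ (a : ℕ) (A : Fin (N + 1) → Fin a → Fin a → ℤ),
    (∀ l i j, A l i j = - A l j i) → P (fun n => (Bc (FF n) A : ℤ))) : Hyp P N := by
  classical
  have hB' : ∀ {I J : Type} [Fintype I] [Fintype J] (M : Fin (N + 1) → I → J → ℤ),
      P (fun n => (Kc (FF n) (alt M) : ℤ)) := by
    intro I J _ _ M
    let e := (Fintype.equivFin (I ⊕ J)).symm
    refine Kc_of_Tc hP _ (Tc_of_Bc hP _ (hP.congr (hB _ (fun l i j => alt M l (e i) (e j))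
      (fun l i j => alt_neg M l (e i) (e j))) fun n _ => ?_))
    rw [Bc_reindex (FF n) e e (alt M)]
  intro f
  have h1 := hB' (enc f)
  have h2 := hB' (encInf f)
  have hg : Growth (fun n => (((Nat.card {x : Fin N → FF n // aeval x f = 0} : ℤ)) : ℂ)) :=
    growth_card (Fin N) fun n x => aeval x f = 0
  have hK : Growth (fun n => (((Kaff (FF n) (alt (enc f)) : ℤ)) : ℂ)) := by
    refine growth_nat (N + Fintype.card (II f ⊕ JJ f)) fun n hn => ?_
    unfold Kaff
    refine (Nat.card_le_card_of_injective Subtype.val Subtype.val_injective).trans (le_of_eq ?_)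
    rw [Nat.card_prod, Nat.card_fun, Nat.card_fun, card_FF hn,
      Nat.card_eq_fintype_card (α := Fin N), Fintype.card_fin,
      Nat.card_eq_fintype_card (α := II f ⊕ JJ f), pow_add]
  have h3 : P (fun n => (Kaff (FF n) (alt (enc f)) : ℤ)) := by
    refine hP.of_monic hK (Q := Polynomial.X * (Polynomial.X - Polynomial.C 1))
      (Polynomial.monic_X.mul (Polynomial.monic_X_sub_C 1))
      (hP.congr (hP.sub (hP.id_mul h1) h2) fun n hn => ?_)
    have := Kc_alt_enc f (FF n)
    rw [card_FF hn] at this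
    rw [this]
    simp only [Polynomial.eval_mul, Polynomial.eval_sub, Polynomial.eval_X, Polynomial.eval_C]
    ring
  have h4 : P (fun n => (n : ℤ) ^ (Fintype.card (II f)) * (((n : ℤ) ^ 2 - 1) *
      Nat.card {x : Fin N → FF n // aeval x f = 0})) := by
    refine hP.congr (hP.sub (hP.pow_mul h3 (Fintype.card (JJ f)))
      (hP.pow (Fintype.card (II f) + N))) fun n hn => ?_
    have := Kaff_alt_enc f (FF n)
    rw [card_FF hn] at this
    rw [this, pow_add]
    ring
  refine hP.of_monic hg (Q := Polynomial.X ^ (Fintype.card (II f)) *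
    ((Polynomial.X - Polynomial.C 1) * (Polynomial.X + Polynomial.C 1)))
    ((Polynomial.monic_X_pow _).mul ((Polynomial.monic_X_sub_C 1).mul
      (Polynomial.monic_X_add_C 1))) (hP.congr h4 fun n _ => ?_)
  simp only [Polynomial.eval_mul, Polynomial.eval_sub, Polynomial.eval_add, Polynomial.eval_X,
    Polynomial.eval_C, Polynomial.eval_pow]
  ring

end Pool.Agent.Helper81.HI
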