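import Pool.Agent.Helper81.HI.Dim2

/-!
# Schemes whose fibres over `Spec ℤ` have dimension `< m`
-/

set_option autoImplicit false

open AlgebraicGeometry CategoryTheory TopologicalSpace
open Pool.Agent.Helper29.Zeta

namespace Pool.Agent.Helper81.HI

/-- the transcendence degree over the prime field grows under homomorphisms -/
lemma trdeg_le_of_hom {K L : Type} [Field K] [Field L] (g : K →+* L) :
    Algebra.trdeg (⊥ : Subfield K) K ≤ Algebra.trdeg (⊥ : Subfield L) L := by
  have hmap : (⊥ : Subfield K).map g = ⊥ := Subfield.map_bot g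
  let f : (⊥ : Subfield K) →+* (⊥ : Subfield L) :=
    (g.comp (⊥ : Subfield K).subtype).codRestrict (⊥ : Subfield L) (fun x => by
      rw [← hmap]; exact ⟨x, x.2, rfl⟩)
  have hf : Function.Surjective f := by
    rintro ⟨y, hy⟩
    have hy' := hy
    rw [← hmap] at hy'
    obtain ⟨x, hx, rfl⟩ := hy'
    exact ⟨⟨x, hx⟩, rfl⟩
  rw [Algebra.trdeg]
  refine ciSup_le' fun i => ?_
  have h := AlgebraicIndependent.ringHom_of_comp_eq (R := (⊥ : Subfield K))
    (S := (⊥ : Subfield L)) f g i.2 hf g.injective (RingHom.ext fun x => rfl)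
  exact h.cardinalMk_le_trdeg

/-- the transcendence degree of a field over its prime field -/
noncomputable abbrev td (K : Type) [Field K] : Cardinal := Algebra.trdeg (⊥ : Subfield K) K

lemma td_residue {X : Scheme.{0}} {A : CommRingCat.{0}} (j : Spec A ⟶ X)
    [IsOpenImmersion j] (y : Spec A) [y.asIdeal.IsPrime] :
    td (X.residueField (j y)) = td (y.asIdeal.ResidueField) := by
  have e1 : X.residueField (j y) ≅ (Spec A).residueField y := asIso (j.residueFieldMap y)
  have e2 : (Spec A).residueField y ≅ .of y.asIdeal.ResidueField :=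
    Scheme.Spec.residueFieldIso A y
  let e : X.residueField (j y) ≃+* y.asIdeal.ResidueField :=
    (e1 ≪≫ e2).commRingCatIsoToRingEquiv
  exact le_antisymm (trdeg_le_of_hom (e : X.residueField (j y) →+* y.asIdeal.ResidueField))
    (trdeg_le_of_hom (e.symm : y.asIdeal.ResidueField →+* X.residueField (j y)))

/-- **Schemes with fibres of dimension `< m` are controlled by hypersurfaces in `A^m`.** -/
theorem geo {P : (ℕ → ℤ) → Prop} (hP : Cls P) {m : ℕ} (hH : Hyp P m)
    (X : Scheme.{0}) (f : X ⟶ Spec (CommRingCat.of ℤ)) [LocallyOfFiniteType f]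
    [QuasiCompact f]
    (hX : ∀ x : X, Algebra.trdeg (⊥ : Subfield (X.residueField x)) (X.residueField x) < m) :
    ∃ c : ℕ → ℤ, P c ∧ HasCount (Set.univ : Set X) (fun n => (c n : ℝ)) := by
  have hJ : JacobsonSpace X := LocallyOfFiniteType.jacobsonSpace f
  have hcomp : CompactSpace X := QuasiCompact.compactSpace_of_compactSpace f
  have key : ∃ c : ℕ → ℤ, P c ∧ HasCount ((⊤ : X.Opens) : Set X) (fun n => (c n : ℝ)) := by
    refine compact_open_induction_on
      (P := fun S : X.Opens => ∃ c : ℕ → ℤ, P c ∧ HasCount (S : Set X) (fun n => (c n : ℝ)))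
      ⊤ isCompact_univ ?_ ?_
    · exact ⟨fun _ => 0, hP.zero, HasCount.empty.congr fun n => by simp⟩
    · rintro S _ U ⟨c, hc, hcount⟩
      have hUimm : IsOpenImmersion U.2.fromSpec := U.2.isOpenImmersion_fromSpec
      have hfg : Algebra.FiniteType ℤ Γ(X, U) := finiteType_of_imm f U.2.fromSpec
      have hZ : IsClosed (U.2.fromSpec ⁻¹' ((S : Set X)ᶜ)) :=
        S.isOpen.isClosed_compl.preimage U.2.fromSpec.continuous
      have h1 := hasCount_stratum U.2.fromSpec ((S : Set X)ᶜ) hZ
      rw [U.2.range_fromSpec] at h1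
      have hd : Disjoint (S : Set X) ((U : Set X) ∩ (S : Set X)ᶜ) := by
        rw [Set.disjoint_left]; intro x hx hx'; exact hx'.2 hx
      have h2 := hcount.union h1 hd
      have e : (S : Set X) ∪ ((U : Set X) ∩ (S : Set X)ᶜ) = ((S ⊔ U : X.Opens) : Set X) := by
        ext x
        simp only [Set.mem_union, Set.mem_inter_iff, Set.mem_compl_iff,
          TopologicalSpace.Opens.coe_sup]
        tauto
      rw [e] at h2
      have htd : ∀ (p : Ideal Γ(X, U)) [p.IsPrime],
          Algebra.trdeg (⊥ : Subfield p.ResidueField) p.ResidueField < m := by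
        intro p hp
        let y : Spec Γ(X, U) := (⟨p, hp⟩ : PrimeSpectrum Γ(X, U))
        have hy : y.asIdeal.IsPrime := hp
        have h3 := hX (U.2.fromSpec y)
        have h4 := td_residue U.2.fromSpec y
        exact lt_of_eq_of_lt h4.symm h3
      refine ⟨_, hP.add hc (cI_mem_of_trdeg hP hH htd
        (PrimeSpectrum.vanishingIdeal (U.2.fromSpec ⁻¹' ((S : Set X)ᶜ)))), ?_⟩
      refine h2.congr fun n => ?_
      push_cast
      rw [cI_cnt]
  obtain ⟨c, hc, hcount⟩ := key
  exact ⟨c, hc, hcount⟩

/-- the residue fields of `Spec A` -/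
lemma td_spec {A : Type} [CommRing A] {m : ℕ}
    (h : ∀ (p : Ideal A) [p.IsPrime],
      Algebra.trdeg (⊥ : Subfield p.ResidueField) p.ResidueField < m)
    (x : Spec (CommRingCat.of A)) :
    Algebra.trdeg (⊥ : Subfield ((Spec (CommRingCat.of A)).residueField x))
      ((Spec (CommRingCat.of A)).residueField x) < m := by
  have hx : x.asIdeal.IsPrime := x.2
  have h1 : td ((Spec (CommRingCat.of A)).residueField x) = td (x.asIdeal.ResidueField) :=
    td_residue (𝟙 (Spec (CommRingCat.of A))) x
  exact lt_of_eq_of_lt h1 (h x.asIdeal)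

end Pool.Agent.Helper81.HI
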