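import Mathlib

/-!
# The classes of schemes of the hierarchy theorem
-/

set_option autoImplicit false

open AlgebraicGeometry MvPolynomial

namespace Pool.Agent.Helper81.HI

/-- The zeta function of `X` (Euler product over the closed points) extends to a function
meromorphic on `ℂ`, in the wording of the frozen statement S00215. -/
def ZetaContinues (X : Scheme.{0}) : Prop :=
  ∃ F : ℂ → ℂ, MeromorphicOn F Set.univ ∧
    ∃ σ : ℝ, ∀ s : ℂ, σ < s.re →
      F s = ∏' x : {x : X // IsClosed ({x} : Set X)},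
        (1 - ((Nat.card (X.residueField x.1) : ℂ) ^ (-s)))⁻¹

/-- the closed subscheme of affine space over `ℤ` (coordinates indexed by `σ`) with equations
`S` -/
noncomputable def Zeros {σ : Type} (S : Set (MvPolynomial σ ℤ)) : Scheme.{0} :=
  Spec (CommRingCat.of (MvPolynomial σ ℤ ⧸ Ideal.span S))

/-- schemes of finite type over `ℤ` whose fibres over `Spec ℤ` have dimension `< n`: all residue
fields have transcendence degree `< n` over their prime field -/
def FibreDimLT (n : ℕ) : Set Scheme.{0} :=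
  {X | (∃ f : X ⟶ Spec (CommRingCat.of ℤ), LocallyOfFiniteType f ∧ QuasiCompact f) ∧
    ∀ x : X, Algebra.trdeg (⊥ : Subfield (X.residueField x)) (X.residueField x) < n}

/-- closed subschemes of affine `n`-space -/
def Closed (n : ℕ) : Set Scheme.{0} :=
  {Y | ∃ S : Set (MvPolynomial (Fin n) ℤ), Y = Zeros S}

/-- hypersurfaces `f = 0` in affine `n`-space -/
def Hypersurface (n : ℕ) : Set Scheme.{0} :=
  {Y | ∃ f : MvPolynomial (Fin n) ℤ, Y = Zeros {f}}

/-- `n + 1` bilinear equations `M_l(y, z) = 0` with integer coefficients -/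
def Bilinear (n : ℕ) : Set Scheme.{0} :=
  {Y | ∃ (a b : ℕ) (M : Fin (n + 1) → Fin a → Fin b → ℤ),
    Y = Zeros (Set.range fun l : Fin (n + 1) => ∑ i, ∑ j, C (M l i j) *
      (X (Sum.inl i) * X (Sum.inr j) : MvPolynomial (Fin a ⊕ Fin b) ℤ))}

/-- pairs of commuting elements: the equations `A_l(y, z) = 0` for `n + 1` alternating integer
matrices `A_0, ..., A_n`.  These are the pairs `(y, z)` for which the elements `(y, s)` and
`(z, t)` of the group scheme `A^a × A^(n+1)` with multiplication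
`(y, s)(z, t) = (y + z, s + t + (∑_{i < j} A_l(i, j) y_i z_j)_l)` commute. -/
def Commuting (n : ℕ) : Set Scheme.{0} :=
  {Y | ∃ (a : ℕ) (A : Fin (n + 1) → Fin a → Fin a → ℤ), (∀ l i j, A l i j = - A l j i) ∧
    Y = Zeros (Set.range fun l : Fin (n + 1) => ∑ i, ∑ j, C (A l i j) *
      (X (Sum.inl i) * X (Sum.inr j) : MvPolynomial (Fin a ⊕ Fin a) ℤ))}

/-- kernels of matrices of linear forms: the equations `(x_0 M_0 + ... + x_n M_n) y = 0` with
unknowns `x_0, ..., x_n` and `y_1, ..., y_b`, for integer matrices `M_l` of the same size -/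
def Kernel (n : ℕ) : Set Scheme.{0} :=
  {Y | ∃ (a b : ℕ) (M : Fin (n + 1) → Fin a → Fin b → ℤ),
    Y = Zeros (Set.range fun i : Fin a => ∑ l, ∑ j, C (M l i j) *
      (X (Sum.inl l) * X (Sum.inr j) : MvPolynomial (Fin (n + 1) ⊕ Fin b) ℤ))}

/-- hypersurfaces `∑ x_l y_i z_j = c`, the sum over `(l, i, j) ∈ T`, with `n + 1` variables
`x_0, ..., x_n` and any numbers of variables `y_i` and `z_j` -/
def Trilinear (n : ℕ) (c : ℤ) : Set Scheme.{0} :=
  {Y | ∃ (a b : ℕ) (T : Finset (Fin (n + 1) × Fin a × Fin b)),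
    Y = Zeros {∑ t ∈ T, (X (Sum.inl t.1) * X (Sum.inr (Sum.inl t.2.1)) *
      X (Sum.inr (Sum.inr t.2.2)) : MvPolynomial (Fin (n + 1) ⊕ Fin a ⊕ Fin b) ℤ) - C c}}

/-- double covers `w ^ 2 + b(x) w + c(x) = 0` of affine `n`-space -/
def DoubleCover (n : ℕ) : Set Scheme.{0} :=
  {Y | ∃ b c : MvPolynomial (Fin n) ℤ,
    Y = Zeros {X none ^ 2 + rename some b * X none + rename some c}}

/-- `n + 1` quadratic forms with integer coefficients in any number of variables -/
def QuadraticForms (n : ℕ) : Set Scheme.{0} :=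
  {Y | ∃ (a : ℕ) (Q : Fin (n + 1) → Fin a → Fin a → ℤ),
    Y = Zeros (Set.range fun l : Fin (n + 1) => ∑ i, ∑ j, C (Q l i j) *
      (X i * X j : MvPolynomial (Fin a) ℤ))}

/-- `n + 1` equations of degree at most 2 in any number of variables -/
def Quadratic (n : ℕ) : Set Scheme.{0} :=
  {Y | ∃ (a : ℕ) (q : Fin (n + 1) → MvPolynomial (Fin a) ℤ),
    (∀ l, (q l).totalDegree ≤ 2) ∧ Y = Zeros (Set.range q)}

/-- the classes of level `n` -/
def Level (n : ℕ) : Set (Set Scheme.{0}) :=
  {FibreDimLT n, Closed n, Hypersurface n, Bilinear n, Commuting n, Kernel n, Trilinear n 0,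
    Trilinear n 1}

/-- the classes of level `n + 1/2` -/
def HalfLevel (n : ℕ) : Set (Set Scheme.{0}) :=
  {DoubleCover n, QuadraticForms n, Quadratic n}

/-- for each `X` in `𝒞` there are finitely many members of `𝒞'` such that the meromorphic
continuation of their zeta functions implies that of the zeta function of `X` -/
def Controls (𝒞' 𝒞 : Set Scheme.{0}) : Prop :=
  ∀ X ∈ 𝒞, ∃ F : Set Scheme.{0}, F.Finite ∧ F ⊆ 𝒞' ∧
    ((∀ Y ∈ F, ZetaContinues Y) → ZetaContinues X)

end Pool.Agent.Helper81.HI
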