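import Pool.Agent.Helper81.HI.Pencil

/-!
# Encoding a hypersurface in `A^N` by a trilinear form with coefficients 0 and 1 and `N + 1`
variables in the first group
-/

set_option autoImplicit false

open Finset MvPolynomial
open Pool.Agent.Helper29.Zeta Pool.Agent.Helper50.KR

namespace Pool.Agent.Helper81.HI

/-- monomials -/
abbrev Mn (N D : ℕ) : Type := Fin N → Fin (D + 1)

/-- the value of a monomial -/
def mv {N D : ℕ} {k : Type} [CommRing k] (x : Fin N → k) (m : Mn N D) : k := ∏ i, x i ^ (m i : ℕ)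

/-- division by the `i`-th variable -/
def dec {N D : ℕ} (m : Mn N D) (i : Fin N) : Mn N D :=
  Function.update m i ⟨(m i : ℕ) - 1, lt_of_le_of_lt (Nat.sub_le _ _) (m i).2⟩

lemma mv_dec {N D : ℕ} {k : Type} [CommRing k] (x : Fin N → k) (m : Mn N D) (i : Fin N)
    (h : (m i : ℕ) ≠ 0) : mv x m = x i * mv x (dec m i) := by
  unfold mv
  rw [← Finset.mul_prod_erase univ _ (Finset.mem_univ i),
    ← Finset.mul_prod_erase univ (fun j => x j ^ (dec m i j : ℕ)) (Finset.mem_univ i), ← mul_assoc]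
  congr 1
  · have : (dec m i i : ℕ) = m i - 1 := by simp [dec]
    rw [this, ← pow_succ', Nat.sub_add_cancel (Nat.one_le_iff_ne_zero.mpr h)]
  · refine Finset.prod_congr rfl fun j hj => ?_
    have hji : j ≠ i := Finset.ne_of_mem_erase hj
    simp [dec, hji]

lemma sum_dec {N D : ℕ} (m : Mn N D) (i : Fin N) (h : (m i : ℕ) ≠ 0) :
    ∑ j, (dec m i j : ℕ) < ∑ j, (m j : ℕ) := by
  refine Finset.sum_lt_sum (fun j _ => ?_) ⟨i, Finset.mem_univ i, ?_⟩
  · by_cases hji : j = i
    · subst hji; simp [dec]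
    · simp [dec, hji]
  · have : (dec m i i : ℕ) = m i - 1 := by simp [dec]
    rw [this]; omega

/-- the coefficients of a polynomial -/
noncomputable def cf {N D : ℕ} (f : MvPolynomial (Fin N) ℤ) (m : Mn N D) : ℤ :=
  coeff (Finsupp.equivFunOnFinite.symm (fun i => (m i : ℕ))) f

lemma aeval_eq {N : ℕ} (f : MvPolynomial (Fin N) ℤ) {k : Type} [CommRing k] (x : Fin N → k) :
    aeval x f = ∑ m : Mn N f.totalDegree, ((cf f m : ℤ) : k) * mv x m := by
  rw [aeval_def, eval₂_eq']
  let toF : Mn N f.totalDegree → (Fin N →₀ ℕ) :=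
    fun m => Finsupp.equivFunOnFinite.symm (fun i => (m i : ℕ))
  have toF_apply : ∀ m i, toF m i = (m i : ℕ) := fun m i => rfl
  have toF_inj : Function.Injective toF := by
    intro m m' h
    funext i
    apply Fin.ext
    rw [← toF_apply, ← toF_apply, h]
  have h1 : ∑ m : Mn N f.totalDegree, ((cf f m : ℤ) : k) * mv x m = ∑ e ∈ univ.image toF,
      (algebraMap ℤ k) (coeff e f) * ∏ i, x i ^ e i := by
    rw [Finset.sum_image (fun a _ b _ h => toF_inj h)]
    refine Finset.sum_congr rfl fun m _ => ?_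
    rfl
  rw [h1]
  refine Finset.sum_subset ?_ ?_
  · intro e he
    rw [Finset.mem_image]
    have hb : ∀ i, e i < f.totalDegree + 1 := by
      intro i
      have h2 : e i ≤ totalDegree f := by
        by_cases h0 : e i = 0
        · omega
        · exact (Finset.single_le_sum (f := fun i => e i) (fun _ _ => Nat.zero_le _)
            (Finsupp.mem_support_iff.mpr h0)).trans (le_totalDegree he)
      omega
    refine ⟨fun i => ⟨e i, hb i⟩, mem_univ _, ?_⟩
    ext i; rfl
  · intro e _ he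
    rw [notMem_support_iff.mp he]
    simp

section

variable {N : ℕ} (f : MvPolynomial (Fin N) ℤ)

/-- a bound for the coefficients -/
noncomputable def bd : ℕ := ∑ m : Mn N f.totalDegree, (cf f m).natAbs

lemma cf_le (m : Mn N f.totalDegree) : (cf f m).natAbs ≤ bd f :=
  Finset.single_le_sum (f := fun m => (cf f m).natAbs) (fun _ _ => Nat.zero_le _) (mem_univ m)

/-- the unknowns: signed copies of `t x^m` -/
abbrev JJ : Type := Mn N f.totalDegree × Fin (bd f + 1) × Bool

/-- the equations -/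
abbrev II : Type := (Mn N f.totalDegree × Fin (bd f + 1) × Bool) ⊕
  (Mn N f.totalDegree × Fin N) ⊕ Unit

open Classical in
/-- indicator -/
noncomputable def d1 (p : Prop) : ℤ := if p then 1 else 0

/-- which copies enter in the last equation -/
def sel (j : JJ f) : Prop :=
  (j.2.1 : ℕ) ≠ 0 ∧ (j.2.1 : ℕ) ≤ (cf f j.1).natAbs ∧ j.2.2 = decide (cf f j.1 < 0)

/-- the coefficients of the encoding -/
noncomputable def enc (l : Fin (N + 1)) : II f → JJ f → ℤ
  | Sum.inl (m, c, s), j => d1 (l = 0) * (d1 (j = (m, c, s)) + d1 (j = (m, 0, !s)))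
  | Sum.inr (Sum.inl (m, i)), j => d1 ((m i : ℕ) ≠ 0) *
      (d1 (l = 0) * d1 (j = (m, 0, true)) + d1 (l = i.succ) * d1 (j = (dec m i, 0, false)))
  | Sum.inr (Sum.inr ()), j => d1 (l = 0) * d1 (sel f j)

lemma enc_a (l : Fin (N + 1)) (m : Mn N f.totalDegree) (c : Fin (bd f + 1)) (s : Bool)
    (j : JJ f) : enc f l (Sum.inl (m, c, s)) j =
      d1 (l = 0) * (d1 (j = (m, c, s)) + d1 (j = (m, 0, !s))) := rfl

lemma enc_b (l : Fin (N + 1)) (m : Mn N f.totalDegree) (i : Fin N) (j : JJ f) :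
    enc f l (Sum.inr (Sum.inl (m, i))) j = d1 ((m i : ℕ) ≠ 0) *
      (d1 (l = 0) * d1 (j = (m, 0, true)) + d1 (l = i.succ) * d1 (j = (dec m i, 0, false))) := rfl

lemma enc_c (l : Fin (N + 1)) (j : JJ f) :
    enc f l (Sum.inr (Sum.inr ())) j = d1 (l = 0) * d1 (sel f j) := rfl

lemma d1_zero {p : Prop} (h : ¬ p) : d1 p = 0 := by unfold d1; rw [if_neg h]
lemma d1_one {p : Prop} (h : p) : d1 p = 1 := by unfold d1; rw [if_pos h]
lemma d1_or (p : Prop) : d1 p = 0 ∨ d1 p = 1 := by
  by_cases h : p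
  · exact Or.inr (d1_one h)
  · exact Or.inl (d1_zero h)

lemma enc_01 (l : Fin (N + 1)) (i : II f) (j : JJ f) : enc f l i j = 0 ∨ enc f l i j = 1 := by
  rcases i with ⟨m, c, s⟩ | ⟨m, i⟩ | ⟨⟩
  · rw [enc_a]
    have h : d1 (j = (m, c, s)) + d1 (j = (m, 0, !s)) = 0 ∨
        d1 (j = (m, c, s)) + d1 (j = (m, 0, !s)) = 1 := by
      by_cases h1 : j = (m, c, s)
      · have h2 : ¬ j = (m, 0, !s) := by
          intro h2
          rw [h1] at h2
          have := congrArg (fun z => z.2.2) h2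
          simp at this
        rw [d1_one h1, d1_zero h2]; simp
      · rw [d1_zero h1, zero_add]; exact d1_or _
    rcases d1_or (l = 0) with h3 | h3 <;> rcases h with h4 | h4 <;> rw [h3, h4] <;> simp
  · rw [enc_b]
    rcases d1_or ((m i : ℕ) ≠ 0) with h3 | h3
    · rw [h3]; simp
    · rw [h3, one_mul]
      by_cases hl : l = 0
      · have h5 : ¬ l = i.succ := by rw [hl]; exact (Fin.succ_ne_zero i).symm
        rw [d1_zero h5, d1_one hl, zero_mul, add_zero, one_mul]
        exact d1_or _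
      · rw [d1_zero hl, zero_mul, zero_add]
        rcases d1_or (l = i.succ) with h6 | h6 <;> rw [h6]
        · simp
        · rw [one_mul]; exact d1_or _
  · rw [enc_c]
    rcases d1_or (l = 0) with h3 | h3 <;> rcases d1_or (sel f j) with h4 | h4 <;>
      rw [h3, h4] <;> simp

variable {k : Type} [CommRing k]

lemma sum_d1 {α : Type} [Fintype α] (a : α) (y : α → k) :
    ∑ j, ((d1 (j = a) : ℤ) : k) * y j = y a := by
  classical
  rw [Finset.sum_eq_single a]
  · rw [d1_one rfl]; simp
  · intro j _ hj; rw [d1_zero hj]; simp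
  · intro h; exact (h (Finset.mem_univ a)).elim

/-- the affine rows -/
lemma row1 (x : Fin N → k) (y : JJ f → k) (m : Mn N f.totalDegree) (c : Fin (bd f + 1))
    (s : Bool) :
    ∑ j, ((enc f 0 (Sum.inl (m, c, s)) j : k) +
      ∑ l : Fin N, x l * (enc f l.succ (Sum.inl (m, c, s)) j : k)) * y j =
      y (m, c, s) + y (m, 0, !s) := by
  have h1 : ∀ j, ((enc f 0 (Sum.inl (m, c, s)) j : k) +
      ∑ l : Fin N, x l * (enc f l.succ (Sum.inl (m, c, s)) j : k)) * y j =
      ((d1 (j = (m, c, s)) : ℤ) : k) * y j + ((d1 (j = (m, 0, !s)) : ℤ) : k) * y j := by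
    intro j
    have h2 : ∀ l : Fin N, enc f l.succ (Sum.inl (m, c, s)) j = 0 := by
      intro l; rw [enc_a, d1_zero (Fin.succ_ne_zero l)]; simp
    have h3 : enc f 0 (Sum.inl (m, c, s)) j = d1 (j = (m, c, s)) + d1 (j = (m, 0, !s)) := by
      rw [enc_a, d1_one rfl]; simp
    simp only [h2, h3]
    push_cast
    rw [Finset.sum_eq_zero (fun l _ => by ring)]
    ring
  rw [Finset.sum_congr rfl fun j _ => h1 j, Finset.sum_add_distrib, sum_d1, sum_d1]

lemma row2 (x : Fin N → k) (y : JJ f → k) (m : Mn N f.totalDegree) (i : Fin N) :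
    ∑ j, ((enc f 0 (Sum.inr (Sum.inl (m, i))) j : k) +
      ∑ l : Fin N, x l * (enc f l.succ (Sum.inr (Sum.inl (m, i))) j : k)) * y j =
      ((d1 ((m i : ℕ) ≠ 0) : ℤ) : k) * (y (m, 0, true) + x i * y (dec m i, 0, false)) := by
  have h1 : ∀ j, ((enc f 0 (Sum.inr (Sum.inl (m, i))) j : k) +
      ∑ l : Fin N, x l * (enc f l.succ (Sum.inr (Sum.inl (m, i))) j : k)) * y j =
      ((d1 ((m i : ℕ) ≠ 0) : ℤ) : k) * (((d1 (j = (m, 0, true)) : ℤ) : k) * y j) +
      ((d1 ((m i : ℕ) ≠ 0) : ℤ) : k) * (x i *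
        (((d1 (j = (dec m i, 0, false)) : ℤ) : k) * y j)) := by
    intro j
    have h2 : ∀ l : Fin N, enc f l.succ (Sum.inr (Sum.inl (m, i))) j =
        d1 ((m i : ℕ) ≠ 0) * (d1 (l = i) * d1 (j = (dec m i, 0, false))) := by
      intro l
      rw [enc_b]
      have : d1 (l.succ = i.succ) = d1 (l = i) := by
        unfold d1
        simp [Fin.succ_inj]
      rw [d1_zero (Fin.succ_ne_zero l), this]; ring
    have h3 : enc f 0 (Sum.inr (Sum.inl (m, i))) j =
        d1 ((m i : ℕ) ≠ 0) * d1 (j = (m, 0, true)) := by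
      rw [enc_b, d1_one rfl, d1_zero (Fin.succ_ne_zero i).symm]; ring
    simp only [h2, h3]
    have h4 : ∑ l : Fin N, x l *
        ((d1 ((m i : ℕ) ≠ 0) * (d1 (l = i) * d1 (j = (dec m i, 0, false))) : ℤ) : k) =
        ((d1 ((m i : ℕ) ≠ 0) : ℤ) : k) * ((d1 (j = (dec m i, 0, false)) : ℤ) : k) * x i := by
      rw [← sum_d1 i x, Finset.mul_sum]
      refine Finset.sum_congr rfl fun l _ => ?_
      push_cast; ring
    rw [h4]
    push_cast
    ring
  rw [Finset.sum_congr rfl fun j _ => h1 j, Finset.sum_add_distrib, ← Finset.mul_sum,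
    ← Finset.mul_sum, ← Finset.mul_sum, sum_d1, sum_d1]
  ring

lemma row3 (x : Fin N → k) (y : JJ f → k) :
    ∑ j, ((enc f 0 (Sum.inr (Sum.inr ())) j : k) +
      ∑ l : Fin N, x l * (enc f l.succ (Sum.inr (Sum.inr ())) j : k)) * y j =
      ∑ j, ((d1 (sel f j) : ℤ) : k) * y j := by
  refine Finset.sum_congr rfl fun j _ => ?_
  have h2 : ∀ l : Fin N, enc f l.succ (Sum.inr (Sum.inr ())) j = 0 := by
    intro l; rw [enc_c, d1_zero (Fin.succ_ne_zero l)]; simp
  have h3 : enc f 0 (Sum.inr (Sum.inr ())) j = d1 (sel f j) := by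
    rw [enc_c, d1_one rfl]; simp
  simp only [h2, h3]
  simp

/-- the canonical solution -/
def can (x : Fin N → k) (t : k) : JJ f → k := fun j => (if j.2.2 then -1 else 1) * (t * mv x j.1)

lemma card_range {a B : ℕ} (h : a ≤ B) :
    ∑ c : Fin (B + 1), d1 ((c : ℕ) ≠ 0 ∧ (c : ℕ) ≤ a) = a := by
  classical
  rw [Fin.sum_univ_eq_sum_range (fun c => d1 (c ≠ 0 ∧ c ≤ a)) (B + 1)]
  have h0 : ∀ c, d1 (c ≠ 0 ∧ c ≤ a) = if c ≠ 0 ∧ c ≤ a then (1 : ℤ) else 0 := by
    intro c
    by_cases hc : c ≠ 0 ∧ c ≤ a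
    · rw [d1_one hc, if_pos hc]
    · rw [d1_zero hc, if_neg hc]
  rw [Finset.sum_congr rfl fun c _ => h0 c, ← Finset.sum_filter]
  have : (Finset.range (B + 1)).filter (fun c => c ≠ 0 ∧ c ≤ a) = Finset.Icc 1 a := by
    ext c
    simp only [Finset.mem_filter, Finset.mem_range, Finset.mem_Icc]
    omega
  rw [this]
  simp

lemma sum_sel (x : Fin N → k) (t : k) :
    ∑ j, ((d1 (sel f j) : ℤ) : k) * can f x t j = aeval x f * t := by
  rw [aeval_eq, Finset.sum_mul, Fintype.sum_prod_type]
  refine Finset.sum_congr rfl fun m _ => ?_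
  rw [Fintype.sum_prod_type]
  have h1 : ∀ c : Fin (bd f + 1), ∑ s : Bool, ((d1 (sel f (m, c, s)) : ℤ) : k) * can f x t (m, c, s) =
      ((d1 ((c : ℕ) ≠ 0 ∧ (c : ℕ) ≤ (cf f m).natAbs) : ℤ) : k) *
        ((if cf f m < 0 then -1 else 1) * (t * mv x m)) := by
    intro c
    by_cases hc : (c : ℕ) ≠ 0 ∧ (c : ℕ) ≤ (cf f m).natAbs
    · rw [d1_one hc]
      by_cases hs : cf f m < 0
      · have ht : sel f (m, c, true) := ⟨hc.1, hc.2, by simp [hs]⟩
        have hf : ¬ sel f (m, c, false) := fun h => by simpa [hs] using h.2.2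
        rw [Fintype.sum_bool, d1_one ht, d1_zero hf, if_pos hs]
        simp [can]
      · have ht : ¬ sel f (m, c, true) := fun h => by simpa [hs] using h.2.2
        have hf : sel f (m, c, false) := ⟨hc.1, hc.2, by simp [hs]⟩
        rw [Fintype.sum_bool, d1_one hf, d1_zero ht, if_neg hs]
        simp [can]
    · rw [d1_zero hc]
      have ht : ∀ s, ¬ sel f (m, c, s) := fun s h => hc ⟨h.1, h.2.1⟩
      rw [Fintype.sum_bool, d1_zero (ht _), d1_zero (ht _)]
      simp
  rw [Finset.sum_congr rfl fun c _ => h1 c, ← Finset.sum_mul]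
  have h2 : ∑ c : Fin (bd f + 1), ((d1 ((c : ℕ) ≠ 0 ∧ (c : ℕ) ≤ (cf f m).natAbs) : ℤ) : k) =
      (((cf f m).natAbs : ℤ) : k) := by
    rw [← card_range (cf_le f m)]
    push_cast
    rfl
  rw [h2]
  by_cases hs : cf f m < 0
  · rw [if_pos hs]
    have h3 : (((cf f m).natAbs : ℤ)) = -cf f m := by omega
    rw [h3]; push_cast; ring
  · rw [if_neg hs]
    have h3 : (((cf f m).natAbs : ℤ)) = cf f m := by omega
    rw [h3]; ring

lemma enc_sol (x : Fin N → k) (y : JJ f → k)
    (h : ∀ i, ∑ j, ((enc f 0 i j : k) + ∑ l : Fin N, x l * (enc f l.succ i j : k)) * y j = 0) :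
    y = can f x (y (fun _ => 0, 0, false)) := by
  have e1 : ∀ m c s, y (m, c, s) + y (m, 0, !s) = 0 := fun m c s => by
    have := h (Sum.inl (m, c, s)); rwa [row1] at this
  have e2 : ∀ (m : Mn N f.totalDegree) (i : Fin N), (m i : ℕ) ≠ 0 →
      y (m, 0, true) + x i * y (dec m i, 0, false) = 0 := fun m i hm => by
    have := h (Sum.inr (Sum.inl (m, i)))
    rw [row2, d1_one hm] at this
    simpa using this
  have e3 : ∀ (b : ℕ) (m : Mn N f.totalDegree), ∑ j, (m j : ℕ) = b →
      y (m, 0, false) = mv x m * y (fun _ => 0, 0, false) := by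
    intro b
    induction b using Nat.strong_induction_on with
    | _ b ih =>
      intro m hm
      by_cases h0 : ∀ i, (m i : ℕ) = 0
      · have : m = fun _ => 0 := by
          funext i; exact Fin.ext (h0 i)
        rw [this]
        simp [mv]
      · push Not at h0
        obtain ⟨i, hi⟩ := h0
        have h1 := e2 m i hi
        have h2 := e1 m 0 false
        have h3 := ih _ (by rw [← hm]; exact sum_dec m i hi) (dec m i) rfl
        rw [mv_dec x m i hi]
        simp only [Bool.not_false] at h2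
        rw [h3] at h1
        linear_combination h2 - h1
  funext ⟨m, c, s⟩
  unfold can
  have h3 := e3 _ m rfl
  cases s with
  | true =>
    have h1 := e1 m c true
    simp only [Bool.not_true] at h1
    simp only [if_true]
    rw [h3] at h1
    linear_combination h1
  | false =>
    have h1 := e1 m c false
    have h2 := e1 m 0 true
    simp only [Bool.not_false, Bool.not_true] at h1 h2
    rw [h3] at h2
    simp only [Bool.false_eq_true, if_false]
    linear_combination h1 - h2

lemma enc_can (x : Fin N → k) (t : k) (ht : aeval x f * t = 0) (i : II f) :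
    ∑ j, ((enc f 0 i j : k) + ∑ l : Fin N, x l * (enc f l.succ i j : k)) * can f x t j = 0 := by
  rcases i with ⟨m, c, s⟩ | ⟨m, i⟩ | ⟨⟩
  · rw [row1]
    cases s <;> simp [can]
  · rw [row2]
    by_cases hm : (m i : ℕ) = 0
    · rw [d1_zero (not_not.mpr hm)]; simp
    · rw [d1_one hm]
      simp only [can, if_true, Bool.false_eq_true, if_false]
      rw [mv_dec x m i hm]
      push_cast; ring
  · rw [row3, sum_sel, ht]

/-- the solutions with `x_0 = 1` over a fixed `x` -/
lemma ker_enc (x : Fin N → k) :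
    Nat.card {y : JJ f → k // ∀ i, ∑ j, ((enc f 0 i j : k) +
      ∑ l : Fin N, x l * (enc f l.succ i j : k)) * y j = 0} =
      Nat.card {t : k // aeval x f * t = 0} := by
  refine Nat.card_congr
    { toFun := fun y => ⟨y.1 (fun _ => 0, 0, false), ?_⟩
      invFun := fun t => ⟨can f x t.1, enc_can f x t.1 t.2⟩
      left_inv := fun y => ?_
      right_inv := fun t => ?_ }
  · have h1 := enc_sol f x y.1 y.2
    have h2 := y.2 (Sum.inr (Sum.inr ()))
    rw [row3, h1, sum_sel] at h2
    exact h2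
  · apply Subtype.ext
    exact (enc_sol f x y.1 y.2).symm
  · apply Subtype.ext
    show can f x t.1 (fun _ => 0, 0, false) = t.1
    simp [can, mv]

/-- the solutions with `x_0 = 1` -/
lemma Kaff_enc (k : Type) [Field k] [Finite k] :
    Kaff k (enc f) = Nat.card {p : (Fin N → k) × k // aeval p.1 f * p.2 = 0} := by
  have : Fintype (Fin N → k) := Fintype.ofFinite _
  unfold Kaff
  rw [card_fib (fun (x : Fin N → k) (y : JJ f → k) => ∀ i, ∑ j, ((enc f 0 i j : k) +
    ∑ l : Fin N, x l * (enc f l.succ i j : k)) * y j = 0),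
    card_fib (fun (x : Fin N → k) (t : k) => aeval x f * t = 0)]
  exact Finset.sum_congr rfl fun x _ => ker_enc f x

lemma card_mul_zero (k : Type) [Field k] [Finite k] :
    (Nat.card {p : (Fin N → k) × k // aeval p.1 f * p.2 = 0} : ℤ) =
      (Nat.card k : ℤ) ^ N + ((Nat.card k : ℤ) - 1) * Nat.card {x : Fin N → k // aeval x f = 0} := by
  have h := card_split (α := (Fin N → k) × k) (fun p => aeval p.1 f * p.2 = 0)
    (fun p => p.2 = 0)
  have h1 : Nat.card {p : (Fin N → k) × k // aeval p.1 f * p.2 = 0 ∧ p.2 = 0} =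
      Nat.card (Fin N → k) :=
    Nat.card_congr
      { toFun := fun p => p.1.1
        invFun := fun x => ⟨(x, 0), by simp⟩
        left_inv := fun p => by
          apply Subtype.ext
          apply Prod.ext
          · rfl
          · exact p.2.2.symm
        right_inv := fun x => rfl }
  have h2 : Nat.card {p : (Fin N → k) × k // aeval p.1 f * p.2 = 0 ∧ ¬ p.2 = 0} =
      Nat.card kˣ * Nat.card {x : Fin N → k // aeval x f = 0} := by
    rw [← Nat.card_prod]
    exact Nat.card_congr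
      { toFun := fun p => (Units.mk0 p.1.2 p.2.2,
          ⟨p.1.1, (mul_eq_zero.mp p.2.1).resolve_right p.2.2⟩)
        invFun := fun q => ⟨(q.2.1, q.1), by rw [q.2.2, zero_mul], q.1.ne_zero⟩
        left_inv := fun p => rfl
        right_inv := fun q => by
          apply Prod.ext
          · apply Units.ext; rfl
          · rfl }
  rw [h, h1, h2, Nat.card_fun, Nat.card_eq_fintype_card (α := Fin N), Fintype.card_fin]
  have hcard : ((Nat.card k : ℤ) - 1) = (Nat.card kˣ : ℤ) := by
    have := Nat.card_units k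
    have h1 : 0 < Nat.card k := Nat.card_pos
    rw [this]
    omega
  rw [hcard]
  push_cast
  ring

/-- the encoding at infinity -/
noncomputable def encInf (l : Fin (N + 1)) (i : II f) (j : JJ f) : ℤ :=
  (Fin.cases 0 (fun l' => enc f (Fin.succ l') i j) l : ℤ)

lemma encInf_01 (l : Fin (N + 1)) (i : II f) (j : JJ f) :
    encInf f l i j = 0 ∨ encInf f l i j = 1 := by
  refine Fin.cases ?_ (fun l => ?_) l
  · exact Or.inl rfl
  · exact enc_01 f l.succ i j

omit f in
/-- the first matrix is zero -/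
lemma Kc_inf {I J : Type} [Fintype J] (M : Fin (N + 1) → I → J → ℤ)
    (h : ∀ i j, M 0 i j = 0) (k : Type) [Field k] [Finite k] :
    (Kc k M : ℤ) = (Nat.card k : ℤ) * Kc k (fun l => M (Fin.succ l)) := by
  unfold Kc
  rw [← Nat.cast_mul, ← Nat.card_prod]
  congr 1
  refine Nat.card_congr
    { toFun := fun p => (p.1.1 0, ⟨(Fin.tail p.1.1, p.1.2), fun i => ?_⟩)
      invFun := fun q => ⟨(Fin.cons q.1 q.2.1.1, q.2.1.2), fun i => ?_⟩
      left_inv := fun p => ?_
      right_inv := fun q => ?_ }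
  · have h1 := p.2 i
    rw [Fin.sum_univ_succ] at h1
    simpa [h, Fin.tail] using h1
  · have h1 := q.2.2 i
    rw [Fin.sum_univ_succ]
    simpa [h] using h1
  · apply Subtype.ext
    apply Prod.ext
    · exact Fin.cons_self_tail p.1.1
    · rfl
  · apply Prod.ext
    · rfl
    · apply Subtype.ext
      apply Prod.ext
      · funext l; rfl
      · rfl

lemma Kc_encInf (k : Type) [Field k] [Finite k] :
    (Kc k (encInf f) : ℤ) = (Nat.card k : ℤ) * Kc k (fun l => enc f (Fin.succ l)) :=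
  Kc_inf (encInf f) (fun _ _ => rfl) k

end

/-! ### Reindexing -/

/-- the coefficients of the trilinear form of a set of triples -/
noncomputable def ofT {m a b : ℕ} (T : Finset (Fin m × Fin a × Fin b)) (l : Fin m) (i : Fin a)
    (j : Fin b) : ℤ := open Classical in if (l, i, j) ∈ T then 1 else 0

lemma Tc_reindex (k : Type) [Field k] {m : ℕ} {I J I' J' : Type} [Fintype I] [Fintype J]
    [Fintype I'] [Fintype J'] (e : I ≃ I') (e' : J ≃ J') (M : Fin m → I' → J' → ℤ) :
    Tc k M = Tc k (fun l i j => M l (e i) (e' j)) := by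
  unfold Tc
  refine Nat.card_congr (Equiv.subtypeEquiv (Equiv.prodCongr (Equiv.refl _)
    (Equiv.prodCongr (Equiv.arrowCongr e.symm (Equiv.refl _))
      (Equiv.arrowCongr e'.symm (Equiv.refl _)))) fun p => Eq.congr_left ?_)
  refine Finset.sum_congr rfl fun l _ => ?_
  rw [← Equiv.sum_comp e]
  refine Finset.sum_congr rfl fun i _ => ?_
  rw [← Equiv.sum_comp e']
  rfl

/-- every form with coefficients 0 and 1 is the form of a set of triples -/
lemma exists_ofT {m : ℕ} {I J : Type} [Fintype I] [Fintype J] (M : Fin m → I → J → ℤ)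
    (h : ∀ l i j, M l i j = 0 ∨ M l i j = 1) :
    ∃ (a b : ℕ) (T : Finset (Fin m × Fin a × Fin b)), ∀ (k : Type) [Field k],
      Tc k M = Tc k (ofT T) := by
  classical
  let e : I ≃ Fin (Fintype.card I) := Fintype.equivFin I
  let e' : J ≃ Fin (Fintype.card J) := Fintype.equivFin J
  refine ⟨Fintype.card I, Fintype.card J,
    Finset.univ.filter (fun t => M t.1 (e.symm t.2.1) (e'.symm t.2.2) = 1), fun k _ => ?_⟩
  rw [Tc_reindex k e e']
  congr 1
  funext l i j
  unfold ofT
  simp only [Finset.mem_filter, Finset.mem_univ, true_and, Equiv.symm_apply_apply]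
  rcases h l i j with h1 | h1 <;> rw [h1] <;> simp

variable {P : (ℕ → ℤ) → Prop} (hP : Cls P)

include hP

/-- **Trilinear forms with `N + 1` variables in the first group control hypersurfaces in
`A^N`.** -/
theorem hyp_of_T {N : ℕ} (hT : ∀ (a b : ℕ) (T : Finset (Fin (N + 1) × Fin a × Fin b)),
    P (fun n => (Tc (FF n) (ofT T) : ℤ))) : Hyp P N := by
  classical
  have hT' : ∀ {I J : Type} [Fintype I] [Fintype J] (M : Fin (N + 1) → I → J → ℤ),
      (∀ l i j, M l i j = 0 ∨ M l i j = 1) → P (fun n => (Kc (FF n) M : ℤ)) := by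
    intro I J _ _ M h
    obtain ⟨a, b, T, hM⟩ := exists_ofT M h
    refine Kc_of_Tc hP M (hP.congr (hT a b T) fun n _ => ?_)
    rw [hM]
  intro f
  have h1 := hT' (enc f) (enc_01 f)
  have h2 := hT' (encInf f) (encInf_01 f)
  have hg : Growth (fun n => (((Nat.card {x : Fin N → FF n // aeval x f = 0} : ℤ)) : ℂ)) :=
    growth_card (Fin N) fun n x => aeval x f = 0
  have hq1 : Growth (fun n : ℕ => (((n : ℤ) - 1 : ℤ) : ℂ)) :=
    (Growth.id.sub (Growth.const 1)).congr fun n _ => by push_cast; rfl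
  have hq : Growth (fun n : ℕ => (((n : ℤ) : ℤ) : ℂ)) := Growth.id.congr fun n _ => by simp
  have hqN : Growth (fun n : ℕ => (((n : ℤ) ^ N : ℤ) : ℂ)) :=
    (Growth.id.pow N).congr fun n _ => by push_cast; rfl
  have key : P (fun n => (n : ℤ) * (((n : ℤ) - 1) * ((n : ℤ) ^ N + ((n : ℤ) - 1) *
      Nat.card {x : Fin N → FF n // aeval x f = 0}))) := by
    refine hP.congr (hP.sub (hP.id_mul h1) h2) fun n hn => ?_
    rw [Kc_encInf, Kc_succ, Kaff_enc, card_mul_zero, card_FF hn]
    ring
  have key2 : P (fun n => (((n : ℤ) - 1) * ((n : ℤ) ^ N + ((n : ℤ) - 1) *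
      Nat.card {x : Fin N → FF n // aeval x f = 0}))) := by
    refine hP.of_pow_mul ?_ 1 (hP.congr key fun n _ => by rw [pow_one])
    refine (hq1.mul (hqN.add (hq1.mul hg))).congr fun n _ => ?_
    push_cast; rfl
  have key3 : P (fun n => (((n : ℤ) ^ N + ((n : ℤ) - 1) *
      Nat.card {x : Fin N → FF n // aeval x f = 0}))) := by
    refine hP.of_pred_mul ?_ key2
    refine ((hqN.add (hq1.mul hg))).congr fun n _ => ?_
    push_cast; rfl
  have key4 : P (fun n => (((n : ℤ) - 1) * Nat.card {x : Fin N → FF n // aeval x f = 0})) :=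
    hP.congr (hP.sub key3 (hP.pow N)) fun n _ => by ring
  exact hP.of_pred_mul hg key4

end Pool.Agent.Helper81.HI
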