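import Pool.Agent.Helper81.HI.Sys
import Pool.Agent.Helper81.HI.Enc

/-!
# Encoding double covers of `A^m` by `m + 1` quadratic forms
-/

set_option autoImplicit false

open Finset MvPolynomial
open Pool.Agent.Helper29.Zeta Pool.Agent.Helper50.KR

namespace Pool.Agent.Helper81.HI

/-! ### Quadratic forms -/

/-- a family of functions given by an integral quadratic form -/
def IsQuad {J : Type} [Fintype J] (φ : ∀ (k : Type) [Field k], (J → k) → k) : Prop :=
  ∃ Q : J → J → ℤ, ∀ (k : Type) [Field k] (w : J → k),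
    φ k w = ∑ i, ∑ j, (Q i j : k) * (w i * w j)

section quad

variable {J : Type} [Fintype J]

lemma isQuad_mul (a b : J) : IsQuad (fun (k : Type) [Field k] (w : J → k) => w a * w b) := by
  refine ⟨fun i j => d1 (i = a) * d1 (j = b), fun k _ w => ?_⟩
  have h1 : ∀ i, ∑ j, ((d1 (i = a) * d1 (j = b) : ℤ) : k) * (w i * w j) =
      ((d1 (i = a) : ℤ) : k) * (w i * w b) := by
    intro i
    rw [← sum_d1 b w, Finset.mul_sum, Finset.mul_sum]
    refine Finset.sum_congr rfl fun j _ => ?_
    push_cast; ring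
  rw [Finset.sum_congr rfl fun i _ => h1 i]
  exact (sum_d1 a (fun i => w i * w b)).symm

lemma isQuad_zero : IsQuad (fun (k : Type) [Field k] (_ : J → k) => (0 : k)) :=
  ⟨fun _ _ => 0, fun k _ w => by simp⟩

lemma IsQuad.add {φ ψ : ∀ (k : Type) [Field k], (J → k) → k} (h : IsQuad φ) (h' : IsQuad ψ) :
    IsQuad (fun (k : Type) [Field k] (w : J → k) => φ k w + ψ k w) := by
  obtain ⟨Q, hQ⟩ := h
  obtain ⟨Q', hQ'⟩ := h'
  refine ⟨fun i j => Q i j + Q' i j, fun k _ w => ?_⟩
  beta_reduce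
  rw [hQ, hQ', ← Finset.sum_add_distrib]
  refine Finset.sum_congr rfl fun i _ => ?_
  rw [← Finset.sum_add_distrib]
  refine Finset.sum_congr rfl fun j _ => ?_
  push_cast; ring

lemma IsQuad.smul {φ : ∀ (k : Type) [Field k], (J → k) → k} (h : IsQuad φ) (c : ℤ) :
    IsQuad (fun (k : Type) [Field k] (w : J → k) => (c : k) * φ k w) := by
  obtain ⟨Q, hQ⟩ := h
  refine ⟨fun i j => c * Q i j, fun k _ w => ?_⟩
  beta_reduce
  rw [hQ, Finset.mul_sum]
  refine Finset.sum_congr rfl fun i _ => ?_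
  rw [Finset.mul_sum]
  refine Finset.sum_congr rfl fun j _ => ?_
  push_cast; ring

lemma IsQuad.sum {ι : Type} (s : Finset ι) {φ : ι → ∀ (k : Type) [Field k], (J → k) → k}
    (h : ∀ i, IsQuad (φ i)) :
    IsQuad (fun (k : Type) [Field k] (w : J → k) => ∑ i ∈ s, φ i k w) := by
  classical
  induction s using Finset.induction_on with
  | empty => simpa using isQuad_zero
  | insert i s hi ih =>
    obtain ⟨Q, hQ⟩ := (h i).add ih
    refine ⟨Q, fun k _ w => ?_⟩
    rw [← hQ]
    exact Finset.sum_insert hi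

lemma IsQuad.congr {φ ψ : ∀ (k : Type) [Field k], (J → k) → k} (h : IsQuad φ)
    (h' : ∀ (k : Type) [Field k] (w : J → k), φ k w = ψ k w) : IsQuad ψ := by
  obtain ⟨Q, hQ⟩ := h
  exact ⟨Q, fun k _ w => by rw [← h', hQ]⟩

end quad

/-! ### Affine equations -/

lemma card_aff1 {k : Type} [Field k] [Fintype k] {I : Type} [Fintype I] (L : I → k) (g : k) :
    (Nat.card k : ℤ) * Nat.card {z : I → k // g + ∑ i, L i * z i = 0} =
      (Nat.card k : ℤ) ^ (Fintype.card I) *
        ((Nat.card k : ℤ) * Nat.card {_u : Unit // (∀ i, L i = 0) ∧ g = 0} + 1 -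
          Nat.card {_u : Unit // ∀ i, L i = 0}) := by
  classical
  have hc : ∀ p : Prop, Nat.card {_u : Unit // p} = if p then 1 else 0 := by
    intro p
    rw [Nat.card_eq_fintype_card, Fintype.card_subtype, Finset.card_filter]
    simp
  rw [hc, hc]
  by_cases hL : ∀ i, L i = 0
  · rw [if_pos hL]
    by_cases hg : g = 0
    · rw [if_pos ⟨hL, hg⟩]
      have h1 : Nat.card {z : I → k // g + ∑ i, L i * z i = 0} = Nat.card k ^ Fintype.card I := by
        rw [Nat.card_congr (Equiv.subtypeUnivEquiv fun z => by simp [hL, hg]), Nat.card_fun,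
          Nat.card_eq_fintype_card (α := I)]
      rw [h1]; push_cast; ring
    · rw [if_neg (fun h => hg h.2)]
      have h1 : IsEmpty {z : I → k // g + ∑ i, L i * z i = 0} := by
        refine ⟨fun z => hg ?_⟩
        have := z.2
        simpa [hL] using this
      have h2 : Nat.card {z : I → k // g + ∑ i, L i * z i = 0} = 0 :=
        @Nat.card_of_isEmpty _ h1
      rw [h2]; push_cast; ring
  · rw [if_neg hL, if_neg (fun h => hL h.1)]
    push Not at hL
    obtain ⟨i₀, h0⟩ := hL
    have h1 := card_lin L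
    rw [hc, if_neg (fun h => h0 (h i₀))] at h1
    have hs : ∀ (z : I → k) (t : k), ∑ i, L i * (z + (Pi.single i₀ t : I → k)) i =
        ∑ i, L i * z i + L i₀ * t := by
      intro z t
      simp only [Pi.add_apply, mul_add, Finset.sum_add_distrib]
      congr 1
      rw [Finset.sum_eq_single i₀]
      · simp
      · intro i _ hi; simp [Pi.single_eq_of_ne hi]
      · intro h; exact (h (Finset.mem_univ _)).elim
    have h2 : Nat.card {z : I → k // g + ∑ i, L i * z i = 0} =
        Nat.card {z : I → k // ∑ i, L i * z i = 0} := by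
      refine Nat.card_congr
        { toFun := fun z => ⟨z.1 + Pi.single i₀ (g / L i₀), ?_⟩
          invFun := fun z => ⟨z.1 + Pi.single i₀ (-(g / L i₀)), ?_⟩
          left_inv := fun z => ?_
          right_inv := fun z => ?_ }
      · rw [hs, mul_div_cancel₀ _ h0]
        linear_combination z.2
      · rw [hs, mul_neg, mul_div_cancel₀ _ h0]
        linear_combination z.2
      · apply Subtype.ext
        show z.1 + Pi.single i₀ (g / L i₀) + Pi.single i₀ (-(g / L i₀)) = z.1
        rw [add_assoc, ← Pi.single_add]; simp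
      · apply Subtype.ext
        show z.1 + Pi.single i₀ (-(g / L i₀)) + Pi.single i₀ (g / L i₀) = z.1
        rw [add_assoc, ← Pi.single_add]; simp
    rw [h2, h1]; push_cast; ring

lemma card_aff {k : Type} [Field k] [Fintype k] {α I : Type} [Finite α] [Fintype I]
    (L : α → I → k) (g : α → k) :
    (Nat.card k : ℤ) * Nat.card {p : α × (I → k) // g p.1 + ∑ i, L p.1 i * p.2 i = 0} =
      (Nat.card k : ℤ) ^ (Fintype.card I) *
        ((Nat.card k : ℤ) * Nat.card {a // (∀ i, L a i = 0) ∧ g a = 0} + Nat.card α -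
          Nat.card {a // ∀ i, L a i = 0}) := by
  have : Fintype α := Fintype.ofFinite α
  rw [card_fib (fun (a : α) (z : I → k) => g a + ∑ i, L a i * z i = 0)]
  have hu : ∀ p : α → Prop, Nat.card {a // p a} = ∑ a, Nat.card {_u : Unit // p a} := by
    intro p
    rw [← card_fib (fun (a : α) (_ : Unit) => p a)]
    exact Nat.card_congr
      { toFun := fun a => ⟨(a.1, ()), a.2⟩
        invFun := fun p => ⟨p.1.1, p.2⟩
        left_inv := fun a => rfl
        right_inv := fun p => rfl }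
  have h2 : (Nat.card α : ℤ) = ∑ _a : α, (1 : ℤ) := by simp
  rw [hu (fun a => (∀ i, L a i = 0) ∧ g a = 0), hu (fun a => ∀ i, L a i = 0), h2]
  push_cast
  rw [Finset.mul_sum, Finset.sum_congr rfl fun a _ => card_aff1 (L a) (g a), ← Finset.mul_sum,
    Finset.sum_sub_distrib, Finset.sum_add_distrib, ← Finset.mul_sum]

/-! ### The form -/

lemma aeval_eq' {N D : ℕ} (f : MvPolynomial (Fin N) ℤ) (hD : f.totalDegree ≤ D) {k : Type}
    [Field k] (x : Fin N → k) :
    aeval x f = ∑ m : Mn N D, ((cf f m : ℤ) : k) * mv x m := by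
  rw [aeval_def, eval₂_eq']
  let toF : Mn N D → (Fin N →₀ ℕ) :=
    fun m => Finsupp.equivFunOnFinite.symm (fun i => (m i : ℕ))
  have toF_apply : ∀ m i, toF m i = (m i : ℕ) := fun m i => rfl
  have toF_inj : Function.Injective toF := by
    intro m m' h
    funext i
    apply Fin.ext
    rw [← toF_apply, ← toF_apply, h]
  have h1 : ∑ m : Mn N D, ((cf f m : ℤ) : k) * mv x m = ∑ e ∈ univ.image toF,
      (algebraMap ℤ k) (coeff e f) * ∏ i, x i ^ e i := by
    rw [Finset.sum_image (fun a _ b _ h => toF_inj h)]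
    refine Finset.sum_congr rfl fun m _ => ?_
    rfl
  rw [h1]
  refine Finset.sum_subset ?_ ?_
  · intro e he
    rw [Finset.mem_image]
    have hb : ∀ i, e i < D + 1 := by
      intro i
      have h2 : e i ≤ totalDegree f := by
        by_cases h0 : e i = 0
        · omega
        · exact (Finset.single_le_sum (f := fun i => e i) (fun _ _ => Nat.zero_le _)
            (Finsupp.mem_support_iff.mpr h0)).trans (le_totalDegree he)
      omega
    refine ⟨fun i => ⟨e i, hb i⟩, mem_univ _, ?_⟩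
    ext i; rfl
  · intro e _ he
    rw [notMem_support_iff.mp he]
    simp

section

variable {N : ℕ} (D : ℕ) (b c : MvPolynomial (Fin N) ℤ)

/-- multipliers -/
abbrev ZZ (N D : ℕ) : Type := (Mn N D × Fin N) ⊕ Unit

/-- unknowns: `u`, `v`, the copies `y_m` of `x^m v`, the multipliers -/
abbrev QJ (N D : ℕ) : Type := Bool ⊕ Mn N D ⊕ ZZ N D

/-- the coefficients of the multipliers -/
noncomputable def QL {k : Type} [Field k] (x : Fin N → k) (v : k) (y : Mn N D → k) : ZZ N D → k
  | Sum.inl (m, i) => ((d1 ((m i : ℕ) ≠ 0) : ℤ) : k) * (y m - x i * y (dec m i))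
  | Sum.inr () => y (fun _ => 0) - v

/-- the part without multipliers -/
noncomputable def Qg {k : Type} [Field k] (u v : k) (y : Mn N D → k) : k :=
  u * u + u * ∑ m, ((cf b m : ℤ) : k) * y m + v * ∑ m, ((cf c m : ℤ) : k) * y m

/-- the first quadratic form -/
noncomputable def Q0 (k : Type) [Field k] (w : QJ N D → k) : k :=
  w (.inl true) * w (.inl true) + ∑ m : Mn N D, ((cf b m : ℤ) : k) *
    (w (.inl true) * w (.inr (.inl m))) + ∑ m : Mn N D, ((cf c m : ℤ) : k) *
    (w (.inl false) * w (.inr (.inl m))) + ∑ p : Mn N D × Fin N,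
    ((d1 ((p.1 p.2 : ℕ) ≠ 0) : ℤ) : k) * (w (.inr (.inr (.inl p))) * w (.inr (.inl p.1))) +
    (w (.inr (.inr (.inr ()))) * w (.inr (.inl (fun _ => 0))) +
      ((-1 : ℤ) : k) * (w (.inr (.inr (.inr ()))) * w (.inl false)))

/-- the other quadratic forms -/
noncomputable def Q1 (i : Fin N) (k : Type) [Field k] (w : QJ N D → k) : k :=
  ((-1 : ℤ) : k) * ∑ m : Mn N D, ((d1 ((m i : ℕ) ≠ 0) : ℤ) : k) *
    (w (.inr (.inr (.inl (m, i)))) * w (.inr (.inl (dec m i))))

lemma isQuad_Q0 : IsQuad (fun (k : Type) [Field k] (w : QJ N D → k) => Q0 D b c k w) := by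
  refine (((((isQuad_mul (J := QJ N D) (.inl true) (.inl true)).add
    (IsQuad.sum univ fun m : Mn N D =>
      (isQuad_mul (J := QJ N D) (.inl true) (.inr (.inl m))).smul (cf b m))).add
    (IsQuad.sum univ fun m : Mn N D =>
      (isQuad_mul (J := QJ N D) (.inl false) (.inr (.inl m))).smul (cf c m))).add
    (IsQuad.sum univ fun p : Mn N D × Fin N =>
      (isQuad_mul (J := QJ N D) (.inr (.inr (.inl p))) (.inr (.inl p.1))).smul
        (d1 ((p.1 p.2 : ℕ) ≠ 0)))).add
    ((isQuad_mul (J := QJ N D) (.inr (.inr (.inr ()))) (.inr (.inl (fun _ => 0)))).add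
      ((isQuad_mul (J := QJ N D) (.inr (.inr (.inr ()))) (.inl false)).smul (-1)))).congr
    fun k _ w => ?_
  rfl

lemma isQuad_Q1 (i : Fin N) : IsQuad (fun (k : Type) [Field k] (w : QJ N D → k) => Q1 D i k w) := by
  refine ((IsQuad.sum univ fun m : Mn N D =>
      (isQuad_mul (J := QJ N D) (.inr (.inr (.inl (m, i)))) (.inr (.inl (dec m i)))).smul
        (d1 ((m i : ℕ) ≠ 0))).smul (-1)).congr fun k _ w => ?_
  rfl

/-- the system of quadratic forms -/
noncomputable def Qs (k : Type) [Field k] : Fin (N + 1) → (QJ N D → k) → k :=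
  Fin.cons (Q0 D b c k) (fun i => Q1 D i k)

lemma Q_eq {k : Type} [Field k] (x : Fin N → k) (w : QJ N D → k) :
    Q0 D b c k w + ∑ i, x i * Q1 D i k w =
      Qg D b c (w (.inl true)) (w (.inl false)) (fun m => w (.inr (.inl m))) +
      ∑ z : ZZ N D, QL D x (w (.inl false)) (fun m => w (.inr (.inl m))) z * w (.inr (.inr z)) := by
  rw [Fintype.sum_sum_type, Fintype.sum_prod_type]
  simp only [Finset.univ_unique, Finset.sum_singleton]
  have h1 : ∑ i, x i * Q1 D i k w = ∑ m : Mn N D, ∑ i : Fin N,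
      -(((d1 ((m i : ℕ) ≠ 0) : ℤ) : k) * (x i * w (.inr (.inl (dec m i)))) *
        w (.inr (.inr (.inl (m, i))))) := by
    rw [Finset.sum_comm]
    refine Finset.sum_congr rfl fun i _ => ?_
    unfold Q1
    rw [Finset.mul_sum, Finset.mul_sum]
    refine Finset.sum_congr rfl fun m _ => ?_
    push_cast; ring
  have h2 : ∑ p : Mn N D × Fin N, ((d1 ((p.1 p.2 : ℕ) ≠ 0) : ℤ) : k) *
      (w (.inr (.inr (.inl p))) * w (.inr (.inl p.1))) = ∑ m : Mn N D, ∑ i : Fin N,
      ((d1 ((m i : ℕ) ≠ 0) : ℤ) : k) * (w (.inr (.inr (.inl (m, i)))) * w (.inr (.inl m))) := by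
    rw [Fintype.sum_prod_type]
  have h3 : ∑ m : Mn N D, ∑ i : Fin N, QL D x (w (.inl false)) (fun m => w (.inr (.inl m)))
      (Sum.inl (m, i)) * w (.inr (.inr (.inl (m, i)))) =
      (∑ m : Mn N D, ∑ i : Fin N,
      ((d1 ((m i : ℕ) ≠ 0) : ℤ) : k) * (w (.inr (.inr (.inl (m, i)))) * w (.inr (.inl m)))) +
      ∑ m : Mn N D, ∑ i : Fin N,
      -(((d1 ((m i : ℕ) ≠ 0) : ℤ) : k) * (x i * w (.inr (.inl (dec m i)))) *
        w (.inr (.inr (.inl (m, i))))) := by
    rw [← Finset.sum_add_distrib]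
    refine Finset.sum_congr rfl fun m _ => ?_
    rw [← Finset.sum_add_distrib]
    refine Finset.sum_congr rfl fun i _ => ?_
    unfold QL
    ring
  rw [h3, h1]
  unfold Q0 Qg
  rw [h2]
  have h4 : ∀ (t : k) (g : Mn N D → ℤ), ∑ m : Mn N D, ((g m : ℤ) : k) *
      (t * w (.inr (.inl m))) = t * ∑ m : Mn N D, ((g m : ℤ) : k) * w (.inr (.inl m)) := by
    intro t g
    rw [Finset.mul_sum]
    exact Finset.sum_congr rfl fun m _ => by ring
  rw [h4, h4]
  show _ = _ + (_ + (w (.inr (.inl (fun _ => 0))) - w (.inl false)) * w (.inr (.inr (.inr ()))))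
  push_cast
  ring

lemma QL_zero_iff {k : Type} [Field k] (x : Fin N → k) (v : k) (y : Mn N D → k) :
    (∀ z, QL D x v y z = 0) ↔ y = fun m => mv x m * v := by
  constructor
  · intro h
    have e1 : y (fun _ => 0) = v := sub_eq_zero.mp (h (Sum.inr ()))
    have e2 : ∀ (m : Mn N D) (i : Fin N), (m i : ℕ) ≠ 0 → y m = x i * y (dec m i) := by
      intro m i hm
      have h1 : ((d1 ((m i : ℕ) ≠ 0) : ℤ) : k) * (y m - x i * y (dec m i)) = 0 :=
        h (Sum.inl (m, i))
      rw [d1_one hm] at h1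
      rw [← sub_eq_zero]
      simpa using h1
    have e3 : ∀ (B : ℕ) (m : Mn N D), ∑ j, (m j : ℕ) = B → y m = mv x m * v := by
      intro B
      induction B using Nat.strong_induction_on with
      | _ B ih =>
        intro m hm
        by_cases h0 : ∀ i, (m i : ℕ) = 0
        · have : m = fun _ => 0 := by
            funext i; exact Fin.ext (h0 i)
          rw [this, e1]
          simp [mv]
        · push Not at h0
          obtain ⟨i, hi⟩ := h0
          rw [e2 m i hi, ih _ (by rw [← hm]; exact sum_dec m i hi) (dec m i) rfl,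
            mv_dec x m i hi, mul_assoc]
    funext m
    exact e3 _ m rfl
  · rintro rfl z
    rcases z with ⟨m, i⟩ | ⟨⟩
    · show ((d1 ((m i : ℕ) ≠ 0) : ℤ) : k) * (mv x m * v - x i * (mv x (dec m i) * v)) = 0
      by_cases hm : (m i : ℕ) = 0
      · rw [d1_zero (not_not.mpr hm)]; simp
      · rw [mv_dec x m i hm]; ring
    · show mv x (fun _ => 0) * v - v = 0
      simp [mv]

/-- the number of points of the double cover -/
noncomputable def dc (k : Type) [Field k] (b c : MvPolynomial (Fin N) ℤ) : ℕ :=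
  Nat.card {p : (Fin N → k) × k // p.2 ^ 2 + aeval p.1 b * p.2 + aeval p.1 c = 0}

lemma card_binary (k : Type) [Field k] [Finite k] :
    (Nat.card {p : (Fin N → k) × k × k //
      p.2.1 * p.2.1 + aeval p.1 b * p.2.1 * p.2.2 + aeval p.1 c * p.2.2 * p.2.2 = 0} : ℤ) =
      (Nat.card k : ℤ) ^ N + ((Nat.card k : ℤ) - 1) * dc k b c := by
  rw [card_split _ (fun p : (Fin N → k) × k × k => p.2.2 = 0)]
  have h1 : Nat.card {p : (Fin N → k) × k × k //
      (p.2.1 * p.2.1 + aeval p.1 b * p.2.1 * p.2.2 + aeval p.1 c * p.2.2 * p.2.2 = 0) ∧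
        p.2.2 = 0} = Nat.card (Fin N → k) := by
    refine Nat.card_congr
      { toFun := fun p => p.1.1
        invFun := fun x => ⟨(x, 0, 0), by simp⟩
        left_inv := fun p => ?_
        right_inv := fun x => rfl }
    obtain ⟨⟨x, u, v⟩, h, hv⟩ := p
    simp only at h hv
    subst hv
    have hu : u = 0 := by
      have : u * u = 0 := by simpa using h
      exact mul_self_eq_zero.mp this
    subst hu
    rfl
  have h2 : Nat.card {p : (Fin N → k) × k × k //
      (p.2.1 * p.2.1 + aeval p.1 b * p.2.1 * p.2.2 + aeval p.1 c * p.2.2 * p.2.2 = 0) ∧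
        ¬ p.2.2 = 0} = Nat.card kˣ * dc k b c := by
    unfold dc
    rw [← Nat.card_prod]
    refine Nat.card_congr
      { toFun := fun p => (Units.mk0 p.1.2.2 p.2.2, ⟨(p.1.1, p.1.2.1 / p.1.2.2), ?_⟩)
        invFun := fun q => ⟨(q.2.1.1, q.2.1.2 * q.1, q.1), ?_, q.1.ne_zero⟩
        left_inv := fun p => ?_
        right_inv := fun q => ?_ }
    · have h0 : p.1.2.2 ≠ 0 := p.2.2
      have h1 := p.2.1
      show (p.1.2.1 / p.1.2.2) ^ 2 + aeval p.1.1 b * (p.1.2.1 / p.1.2.2) + aeval p.1.1 c = 0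
      field_simp
      linear_combination h1
    · have h1 := q.2.2
      show q.2.1.2 * q.1 * (q.2.1.2 * q.1) + aeval q.2.1.1 b * (q.2.1.2 * q.1) * (q.1 : k) +
        aeval q.2.1.1 c * (q.1 : k) * (q.1 : k) = 0
      linear_combination (q.1 : k) ^ 2 * h1
    · apply Subtype.ext
      have h0 : p.1.2.2 ≠ 0 := p.2.2
      show (p.1.1, p.1.2.1 / p.1.2.2 * p.1.2.2, p.1.2.2) = p.1
      rw [div_mul_cancel₀ _ h0]
    · apply Prod.ext
      · apply Units.ext; rfl
      · apply Subtype.ext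
        show (q.2.1.1, q.2.1.2 * (q.1 : k) / (q.1 : k)) = q.2.1
        rw [mul_div_cancel_right₀ _ q.1.ne_zero]
  rw [h1, h2, Nat.card_fun, Nat.card_eq_fintype_card (α := Fin N), Fintype.card_fin]
  have hcard : ((Nat.card k : ℤ) - 1) = (Nat.card kˣ : ℤ) := by
    have := Nat.card_units k
    have h1 : 0 < Nat.card k := Nat.card_pos
    rw [this]
    omega
  rw [hcard]
  push_cast
  ring

lemma Ag_Qs (hb : b.totalDegree ≤ D) (hc : c.totalDegree ≤ D) (k : Type) [Field k] [Fintype k] :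
    (Nat.card k : ℤ) * Ag (Qs D b c k) = (Nat.card k : ℤ) ^ (Fintype.card (ZZ N D)) *
      ((Nat.card k : ℤ) * ((Nat.card k : ℤ) ^ N + ((Nat.card k : ℤ) - 1) * dc k b c) +
        (Nat.card k : ℤ) ^ (N + 2 + Fintype.card (Mn N D)) - (Nat.card k : ℤ) ^ (N + 2)) := by
  have h := card_aff (k := k) (α := (Fin N → k) × k × k × (Mn N D → k)) (I := ZZ N D)
    (fun a z => QL D a.1 a.2.2.1 a.2.2.2 z) (fun a => Qg D b c a.2.1 a.2.2.1 a.2.2.2)
  let e : (Fin N → k) × (QJ N D → k) ≃
      ((Fin N → k) × k × k × (Mn N D → k)) × (ZZ N D → k) :=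
    { toFun := fun p => ((p.1, p.2 (.inl true), p.2 (.inl false), fun m => p.2 (.inr (.inl m))),
        fun z => p.2 (.inr (.inr z)))
      invFun := fun q => (q.1.1, fun j => match j with
        | .inl true => q.1.2.1
        | .inl false => q.1.2.2.1
        | .inr (.inl m) => q.1.2.2.2 m
        | .inr (.inr z) => q.2 z)
      left_inv := fun p => by
        apply Prod.ext
        · rfl
        · funext j
          rcases j with (_ | _) | m | z <;> rfl
      right_inv := fun q => rfl }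
  have h1 : Ag (Qs D b c k) = Nat.card {p : ((Fin N → k) × k × k × (Mn N D → k)) × (ZZ N D → k) //
      Qg D b c p.1.2.1 p.1.2.2.1 p.1.2.2.2 +
        ∑ z, QL D p.1.1 p.1.2.2.1 p.1.2.2.2 z * p.2 z = 0} := by
    unfold Ag
    refine Nat.card_congr (Equiv.subtypeEquiv e fun p => Eq.congr_left ?_)
    exact Q_eq D b c p.1 p.2
  have h2 : Nat.card {a : (Fin N → k) × k × k × (Mn N D → k) //
      ∀ z, QL D a.1 a.2.2.1 a.2.2.2 z = 0} = Nat.card ((Fin N → k) × k × k) := by
    refine Nat.card_congr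
      { toFun := fun a => (a.1.1, a.1.2.1, a.1.2.2.1)
        invFun := fun x => ⟨(x.1, x.2.1, x.2.2, fun m => mv x.1 m * x.2.2),
          (QL_zero_iff D _ _ _).mpr rfl⟩
        left_inv := fun a => ?_
        right_inv := fun x => rfl }
    apply Subtype.ext
    have h3 := (QL_zero_iff D _ _ _).mp a.2
    show (a.1.1, a.1.2.1, a.1.2.2.1, fun m => mv a.1.1 m * a.1.2.2.1) = a.1
    rw [← h3]
  have hg : ∀ (x : Fin N → k) (u v : k), Qg D b c u v (fun m => mv x m * v) =
      u * u + aeval x b * u * v + aeval x c * v * v := by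
    intro x u v
    unfold Qg
    rw [aeval_eq' b hb, aeval_eq' c hc]
    have h5 : ∀ g : Mn N D → ℤ, ∑ m, ((g m : ℤ) : k) * (mv x m * v) =
        (∑ m, ((g m : ℤ) : k) * mv x m) * v := by
      intro g
      rw [Finset.sum_mul]
      exact Finset.sum_congr rfl fun m _ => by ring
    rw [h5, h5]
    ring
  have h4 : Nat.card {a : (Fin N → k) × k × k × (Mn N D → k) //
      (∀ z, QL D a.1 a.2.2.1 a.2.2.2 z = 0) ∧ Qg D b c a.2.1 a.2.2.1 a.2.2.2 = 0} =
      Nat.card {p : (Fin N → k) × k × k //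
      p.2.1 * p.2.1 + aeval p.1 b * p.2.1 * p.2.2 + aeval p.1 c * p.2.2 * p.2.2 = 0} := by
    refine Nat.card_congr
      { toFun := fun a => ⟨(a.1.1, a.1.2.1, a.1.2.2.1), ?_⟩
        invFun := fun x => ⟨(x.1.1, x.1.2.1, x.1.2.2, fun m => mv x.1.1 m * x.1.2.2),
          (QL_zero_iff D _ _ _).mpr rfl, ?_⟩
        left_inv := fun a => ?_
        right_inv := fun x => rfl }
    · have h3 := (QL_zero_iff D _ _ _).mp a.2.1
      have h6 := a.2.2
      rw [h3, hg] at h6
      exact h6
    · rw [hg]; exact x.2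
    · apply Subtype.ext
      have h3 := (QL_zero_iff D _ _ _).mp a.2.1
      show (a.1.1, a.1.2.1, a.1.2.2.1, fun m => mv a.1.1 m * a.1.2.2.1) = a.1
      rw [← h3]
  rw [← h1, h2, h4, card_binary] at h
  rw [h]
  congr 2
  · congr 1
    rw [Nat.card_prod, Nat.card_prod, Nat.card_prod, Nat.card_fun, Nat.card_fun,
      Nat.card_eq_fintype_card (α := Fin N), Fintype.card_fin,
      Nat.card_eq_fintype_card (α := Mn N D)]
    push_cast
    rw [pow_add, pow_add]
    ring
  · rw [Nat.card_prod, Nat.card_prod, Nat.card_fun,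
      Nat.card_eq_fintype_card (α := Fin N), Fintype.card_fin]
    push_cast
    rw [pow_add]
    ring

end

/-! ### The theorem -/

/-- reindexing a system of quadratic forms -/
lemma Vg_reindex {J : Type} [Fintype J] {m : ℕ} (Q : Fin m → J → J → ℤ) (k : Type) [Field k] :
    Vg (fun (l : Fin m) (w : J → k) => ∑ i, ∑ j, (Q l i j : k) * (w i * w j)) =
      Nat.card {y : Fin (Fintype.card J) → k // ∀ l, ∑ i, ∑ j,
        (Q l ((Fintype.equivFin J).symm i) ((Fintype.equivFin J).symm j) : k) * (y i * y j) = 0} := by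
  let e : J ≃ Fin (Fintype.card J) := Fintype.equivFin J
  unfold Vg
  refine Nat.card_congr (Equiv.subtypeEquiv (Equiv.arrowCongr e (Equiv.refl k)) fun w => ?_)
  refine forall_congr' fun l => Eq.congr_left ?_
  beta_reduce
  rw [← Equiv.sum_comp e.symm]
  refine Finset.sum_congr rfl fun i _ => ?_
  rw [← Equiv.sum_comp e.symm]
  rfl

variable {P : (ℕ → ℤ) → Prop} (hP : Cls P)

include hP

/-- **`m + 1` quadratic equations control double covers of `A^m`.** -/
theorem dc_of_quad {m : ℕ} (hQ : ∀ (a : ℕ) (Q : Fin (m + 1) → Fin a → Fin a → ℤ),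
    P (fun n => (Nat.card {y : Fin a → FF n //
      ∀ l, ∑ i, ∑ j, (Q l i j : FF n) * (y i * y j) = 0} : ℤ)))
    (b c : MvPolynomial (Fin m) ℤ) : P (fun n => (dc (FF n) b c : ℤ)) := by
  set D : ℕ := max b.totalDegree c.totalDegree with hD
  -- systems of quadratic forms on any set of unknowns
  have hV : ∀ {J : Type} [Fintype J] (φ : Fin (m + 1) → ∀ (k : Type) [Field k], (J → k) → k),
      (∀ l, IsQuad (φ l)) → P (fun n => (Tg (fun l => φ l (FF n)) : ℤ)) := by
    intro J _ φ h
    choose Q hQφ using h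
    refine Tg_of_Vg hP (fun n l => φ l (FF n)) (hP.congr (hQ (Fintype.card J) fun l i j =>
      Q l ((Fintype.equivFin J).symm i) ((Fintype.equivFin J).symm j)) fun n _ => ?_)
    rw [← Vg_reindex]
    have : (fun l => φ l (FF n)) =
        fun (l : Fin (m + 1)) (w : J → FF n) => ∑ i, ∑ j, (Q l i j : FF n) * (w i * w j) := by
      funext l w
      exact hQφ l (FF n) w
    rw [this]
  let φ : Fin (m + 1) → ∀ (k : Type) [Field k], (QJ m D → k) → k := fun l k _ => Qs D b c k l
  let φ' : Fin (m + 1) → ∀ (k : Type) [Field k], (QJ m D → k) → k := fun l k _ =>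
    Fin.cases (fun _ => 0) (fun i => Q1 D i k) l
  have h1 : P (fun n => (Tg (fun l => φ l (FF n)) : ℤ)) := by
    refine hV φ fun l => ?_
    refine Fin.cases ?_ (fun i => ?_) l
    · exact isQuad_Q0 D b c
    · exact isQuad_Q1 D i
  have h2 : P (fun n => (Tg (fun l => φ' l (FF n)) : ℤ)) := by
    refine hV φ' fun l => ?_
    refine Fin.cases ?_ (fun i => ?_) l
    · exact isQuad_zero
    · exact isQuad_Q1 D i
  have hgd : Growth (fun n => ((dc (FF n) b c : ℤ) : ℂ)) := by
    refine growth_nat (m + 1) fun n hn => ?_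
    unfold dc
    refine (Nat.card_le_card_of_injective Subtype.val Subtype.val_injective).trans (le_of_eq ?_)
    rw [Nat.card_prod, Nat.card_fun, card_FF hn, Nat.card_eq_fintype_card (α := Fin m),
      Fintype.card_fin, pow_succ]
  have hq1 : Growth (fun n : ℕ => (((n : ℤ) - 1 : ℤ) : ℂ)) :=
    (Growth.id.sub (Growth.const 1)).congr fun n _ => by push_cast; rfl
  set r := Fintype.card (ZZ m D) with hr
  set s := Fintype.card (Mn m D) with hs
  have key : ∀ n : ℕ, IsPrimePow n → (n : ℤ) * Tg (fun l => φ l (FF n)) -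
      Tg (fun l => φ' l (FF n)) = ((n : ℤ) - 1) * ((n : ℤ) ^ r *
      ((n : ℤ) * ((n : ℤ) ^ m + ((n : ℤ) - 1) * dc (FF n) b c) +
        (n : ℤ) ^ (m + 2 + s) - (n : ℤ) ^ (m + 2))) := by
    intro n hn
    have e1 : (Tg (fun l => φ l (FF n)) : ℤ) = Tg (fun l => φ (Fin.succ l) (FF n)) +
        ((Nat.card (FF n) : ℤ) - 1) * Ag (fun l => φ l (FF n)) := Tg_succ (fun l => φ l (FF n))
    have e2 : (Tg (fun l => φ' l (FF n)) : ℤ) =
        (Nat.card (FF n) : ℤ) * Tg (fun l => φ' (Fin.succ l) (FF n)) :=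
      Tg_inf (fun l => φ' l (FF n)) (fun a => rfl)
    have e3 := Ag_Qs D b c (le_max_left _ _) (le_max_right _ _) (FF n)
    have e4 : (fun l : Fin m => φ' (Fin.succ l) (FF n)) = fun l => φ (Fin.succ l) (FF n) := rfl
    have e5 : Ag (fun l => φ l (FF n)) = Ag (Qs D b c (FF n)) := rfl
    rw [card_FF hn] at e1 e2 e3
    rw [e1, e2, e4, e5, ← e3]
    ring
  have h3 : P (fun n => (n : ℤ) ^ (r + 1) * (((n : ℤ) - 1) * (((n : ℤ) - 1) *
      dc (FF n) b c))) := by
    have h4 : P (fun n => ((n : ℤ) - 1) * ((n : ℤ) ^ r *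
        ((n : ℤ) ^ (m + 1) + (n : ℤ) ^ (m + 2 + s) - (n : ℤ) ^ (m + 2)))) :=
      hP.pred_mul (hP.pow_mul (hP.sub (hP.add (hP.pow (m + 1)) (hP.pow (m + 2 + s)))
        (hP.pow (m + 2))) r)
    refine hP.congr (hP.sub (hP.sub (hP.id_mul h1) h2) h4) fun n hn => ?_
    rw [key n hn]
    ring
  have hg1 : Growth (fun n => (((((n : ℤ) - 1) * dc (FF n) b c : ℤ)) : ℂ)) :=
    (hq1.mul hgd).congr fun n _ => by push_cast; rfl
  have hg2 : Growth (fun n => (((((n : ℤ) - 1) * (((n : ℤ) - 1) * dc (FF n) b c) : ℤ)) : ℂ)) :=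
    (hq1.mul hg1).congr fun n _ => by push_cast; rfl
  exact hP.of_pred_mul hgd (hP.of_pred_mul hg1 (hP.of_pow_mul hg2 (r + 1) h3))

end Pool.Agent.Helper81.HI
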