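import Pool.Agent.Helper81.HI.Geo
import Pool.Agent.Helper81.HI.QEnc
import Pool.Agent.Helper81.HI.Alt
import Pool.Agent.Helper81.HI.Defs

/-!
# Counting functions of the classes
-/

set_option autoImplicit false

open AlgebraicGeometry CategoryTheory TopologicalSpace MvPolynomial
open Pool.Agent.Helper29.Zeta Pool.Agent.Helper50.KR

namespace Pool.Agent.Helper81.HI

/-! ### Schemes of finite type and counting functions -/

/-- of finite type over `ℤ` -/
def IsFT (X : Scheme.{0}) : Prop :=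
  ∃ f : X ⟶ Spec (CommRingCat.of ℤ), LocallyOfFiniteType f ∧ QuasiCompact f

/-- the counting function of `X` has the property `P` -/
def CP (P : (ℕ → ℤ) → Prop) (X : Scheme.{0}) : Prop :=
  ∃ c : ℕ → ℤ, P c ∧ HasCount (Set.univ : Set X) (fun n => (c n : ℝ))

/-- the counting functions of all members of `𝒞` have the property `P` -/
def CC (P : (ℕ → ℤ) → Prop) (𝒞 : Set Scheme.{0}) : Prop := ∀ X ∈ 𝒞, CP P X

lemma CP.out {P : (ℕ → ℤ) → Prop} (hP : Cls P) {X : Scheme.{0}} (h : CP P X) {c : ℕ → ℤ}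
    (hc : HasCount (Set.univ : Set X) (fun n => (c n : ℝ))) : P c := by
  obtain ⟨c', h', hc'⟩ := h
  refine hP.congr h' fun n hn => ?_
  have : (c' n : ℝ) = (c n : ℝ) := (hc' n hn).unique (hc n hn)
  exact_mod_cast this

lemma mero_of_zc {X : Scheme.{0}} (hX : IsFT X) {c : ℕ → ℤ}
    (hg : Growth (fun n => (c n : ℂ)))
    (hc : HasCount (Set.univ : Set X) (fun n => (c n : ℝ))) (h : ZetaContinues X) :
    Mero (fun n => (c n : ℂ)) := by
  obtain ⟨f, hf, hq⟩ := hX
  have hJ : JacobsonSpace X := LocallyOfFiniteType.jacobsonSpace f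
  have hg' : Growth (fun n => (((c n : ℝ)) : ℂ)) := hg.congr fun n _ => by push_cast; rfl
  obtain ⟨σ, hσ⟩ := euler_scheme f hg' hc
  obtain ⟨F, hF, σ', hσ'⟩ := h
  refine ⟨F, hF, max σ σ', fun s hs => ?_⟩
  rw [hσ' s ((max_lt_iff.mp hs).2)]
  have h1 := hσ s ((max_lt_iff.mp hs).1)
  unfold zetaProd at h1
  rw [h1]
  congr 2

lemma zc_of_mero {X : Scheme.{0}} (hX : IsFT X) {c : ℕ → ℤ}
    (hg : Growth (fun n => (c n : ℂ)))
    (hc : HasCount (Set.univ : Set X) (fun n => (c n : ℝ)))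
    (h : Mero (fun n => (c n : ℂ))) : ZetaContinues X := by
  obtain ⟨f, hf, hq⟩ := hX
  have hJ : JacobsonSpace X := LocallyOfFiniteType.jacobsonSpace f
  have hg' : Growth (fun n => (((c n : ℝ)) : ℂ)) := hg.congr fun n _ => by push_cast; rfl
  obtain ⟨σ, hσ⟩ := euler_scheme f hg' hc
  obtain ⟨F, hF, σ', hσ'⟩ := h
  refine ⟨F, hF, max σ σ', fun s hs => ?_⟩
  rw [hσ' s ((max_lt_iff.mp hs).2)]
  have h1 := hσ s ((max_lt_iff.mp hs).1)
  unfold zetaProd at h1
  rw [h1]
  congr 2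

/-- the class of functions of polynomial growth -/
lemma cls_growth : Cls (fun c => Growth (fun n => (c n : ℂ))) where
  growth h := h
  congr h h' := h.congr fun n hn => by rw [h' n hn]
  add h h' := (h.add h').congr fun n _ => by push_cast; rfl
  mul_poly h Q := ((growth_eval Q).mul h).congr fun n _ => by push_cast; rfl
  one := mg_one.1
  char p hp := (mg_chr p hp).1
  of_monic hg _ _ _ := hg

lemma hyp_growth (m : ℕ) : Hyp (fun c => Growth (fun n => (c n : ℂ))) m := fun f =>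
  growth_card (Fin m) fun _ x => aeval x f = 0

/-! ### Closed subschemes of affine space -/

lemma isFT_spec (A : Type) [CommRing A] (h : @Algebra.FiniteType ℤ A _ _ (Ring.toIntAlgebra A)) :
    IsFT (Spec (CommRingCat.of A)) := by
  let _ : Algebra ℤ A := Ring.toIntAlgebra A
  refine ⟨Spec.map (CommRingCat.ofHom (algebraMap ℤ A)), ?_, inferInstance⟩
  rw [HasRingHomProperty.Spec_iff (P := @LocallyOfFiniteType)]
  exact RingHom.finiteType_algebraMap.mpr h

lemma hasCount_spec (A : Type) [CommRing A] [Algebra.FiniteType ℤ A] :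
    HasCount (Set.univ : Set (Spec (CommRingCat.of A))) (fun n => (cI (⊥ : Ideal A) n : ℝ)) := by
  let f : Spec (CommRingCat.of A) ⟶ Spec (CommRingCat.of ℤ) :=
    Spec.map (CommRingCat.ofHom (algebraMap ℤ A))
  have hf : LocallyOfFiniteType f := by
    rw [HasRingHomProperty.Spec_iff (P := @LocallyOfFiniteType)]
    exact RingHom.finiteType_algebraMap.mpr inferInstance
  have hJ : JacobsonSpace (Spec (CommRingCat.of A)) := LocallyOfFiniteType.jacobsonSpace f
  have hfg : Algebra.FiniteType ℤ (CommRingCat.of A) := ‹Algebra.FiniteType ℤ A›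
  have h1 := hasCount_stratum (𝟙 (Spec (CommRingCat.of A))) Set.univ isClosed_univ
  have e : Set.range (𝟙 (Spec (CommRingCat.of A)) : Spec (CommRingCat.of A) ⟶ _) ∩ Set.univ =
      (Set.univ : Set (Spec (CommRingCat.of A))) := by
    ext x; simp
  rw [e] at h1
  refine h1.congr fun n => ?_
  rw [cI_cnt]
  unfold cnt
  congr 1
  refine Nat.card_congr
    { toFun := fun φ => ⟨φ.1, bot_le⟩
      invFun := fun φ => ⟨φ.1, ?_⟩
      left_inv := fun φ => rfl
      right_inv := fun φ => rfl }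
  intro a ha
  have h3 := (PrimeSpectrum.mem_vanishingIdeal _ a).mp ha
    (⟨RingHom.ker φ.1, RingHom.ker_isPrime φ.1⟩ : PrimeSpectrum A) trivial
  exact h3

lemma fg_quot {σ : Type} [Finite σ] (I : Ideal (MvPolynomial σ ℤ)) :
    @Algebra.FiniteType ℤ (MvPolynomial σ ℤ ⧸ I) _ _
      (Ring.toIntAlgebra (MvPolynomial σ ℤ ⧸ I)) := by
  have h : ∀ i j : Algebra ℤ (MvPolynomial σ ℤ ⧸ I), @Algebra.FiniteType ℤ _ _ _ i →
      @Algebra.FiniteType ℤ _ _ _ j := by
    intro i j hi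
    rw [Subsingleton.elim j i]
    exact hi
  exact h _ _ (Algebra.FiniteType.of_surjective (Ideal.Quotient.mkₐ ℤ I)
    (Ideal.Quotient.mkₐ_surjective ℤ I))

/-- the number of common zeros -/
noncomputable def zn {σ : Type} (S : Set (MvPolynomial σ ℤ)) (n : ℕ) : ℤ :=
  Nat.card {x : σ → FF n // ∀ f ∈ S, aeval x f = 0}

lemma isFT_zeros {σ : Type} [Finite σ] (S : Set (MvPolynomial σ ℤ)) : IsFT (Zeros S) :=
  isFT_spec _ (fg_quot _)

lemma hasCount_zeros {σ : Type} [Finite σ] (S : Set (MvPolynomial σ ℤ)) :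
    HasCount (Set.univ : Set (Zeros S)) (fun n => (zn S n : ℝ)) := by
  have hfg := fg_quot (Ideal.span S)
  refine (hasCount_spec (MvPolynomial σ ℤ ⧸ Ideal.span S)).congr fun n => ?_
  rw [cI_quot, cI_poly]
  rfl

lemma growth_zn {σ : Type} [Finite σ] (S : Set (MvPolynomial σ ℤ)) :
    Growth (fun n => (zn S n : ℂ)) :=
  growth_card σ fun _ x => ∀ f ∈ S, aeval x f = 0

lemma cp_zeros {P : (ℕ → ℤ) → Prop} (hP : Cls P) {σ : Type} [Finite σ]
    (S : Set (MvPolynomial σ ℤ)) : CP P (Zeros S) ↔ P (zn S) :=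
  ⟨fun h => h.out hP (hasCount_zeros S), fun h => ⟨_, h, hasCount_zeros S⟩⟩

/-! ### The counting functions -/

lemma zn_bilinear {m a b : ℕ} (M : Fin m → Fin a → Fin b → ℤ) (n : ℕ) :
    zn (Set.range fun l : Fin m => ∑ i, ∑ j, C (M l i j) *
      (X (Sum.inl i) * X (Sum.inr j) : MvPolynomial (Fin a ⊕ Fin b) ℤ)) n = Bc (FF n) M := by
  unfold zn Bc
  congr 1
  refine Nat.card_congr (Equiv.subtypeEquiv (Equiv.sumArrowEquivProdArrow _ _ _) fun x => ?_)
  rw [Set.forall_mem_range]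
  refine forall_congr' fun l => Eq.congr_left ?_
  simp only [map_sum, map_mul, aeval_X, aeval_C]
  rfl

lemma zn_kernel {m a b : ℕ} (M : Fin m → Fin a → Fin b → ℤ) (n : ℕ) :
    zn (Set.range fun i : Fin a => ∑ l, ∑ j, C (M l i j) *
      (X (Sum.inl l) * X (Sum.inr j) : MvPolynomial (Fin m ⊕ Fin b) ℤ)) n = Kc (FF n) M := by
  unfold zn Kc
  congr 1
  refine Nat.card_congr (Equiv.subtypeEquiv (Equiv.sumArrowEquivProdArrow _ _ _) fun x => ?_)
  rw [Set.forall_mem_range]
  refine forall_congr' fun l => Eq.congr_left ?_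
  simp only [map_sum, map_mul, aeval_X, aeval_C]
  rfl

lemma aeval_tri {m a b : ℕ} (T : Finset (Fin m × Fin a × Fin b)) {k : Type} [Field k]
    (x : Fin m ⊕ Fin a ⊕ Fin b → k) :
    aeval x (∑ t ∈ T, (X (Sum.inl t.1) * X (Sum.inr (Sum.inl t.2.1)) *
      X (Sum.inr (Sum.inr t.2.2)) : MvPolynomial (Fin m ⊕ Fin a ⊕ Fin b) ℤ)) =
    ∑ l, ∑ i, ∑ j, (ofT T l i j : k) *
      (x (Sum.inl l) * x (Sum.inr (Sum.inl i)) * x (Sum.inr (Sum.inr j))) := by
  classical
  have h1 : ∑ l, ∑ i, ∑ j, (ofT T l i j : k) *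
      (x (Sum.inl l) * x (Sum.inr (Sum.inl i)) * x (Sum.inr (Sum.inr j))) =
      ∑ t : Fin m × Fin a × Fin b, (ofT T t.1 t.2.1 t.2.2 : k) *
      (x (Sum.inl t.1) * x (Sum.inr (Sum.inl t.2.1)) * x (Sum.inr (Sum.inr t.2.2))) := by
    rw [Fintype.sum_prod_type]
    refine Finset.sum_congr rfl fun l _ => ?_
    rw [Fintype.sum_prod_type]
  rw [h1, map_sum]
  simp only [map_mul, aeval_X]
  rw [← Finset.sum_subset (Finset.subset_univ T)]
  · refine Finset.sum_congr rfl fun t ht => ?_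
    unfold ofT
    rw [if_pos ht]; simp
  · intro t _ ht
    unfold ofT
    rw [if_neg ht]; simp

/-- the points where the trilinear form takes the value `c` -/
noncomputable def Tv (k : Type) [Field k] {m : ℕ} {I J : Type} [Fintype I] [Fintype J]
    (M : Fin m → I → J → ℤ) (c : k) : ℕ :=
  Nat.card {p : (Fin m → k) × (I → k) × (J → k) //
    ∑ l, ∑ i, ∑ j, (M l i j : k) * (p.1 l * p.2.1 i * p.2.2 j) = c}

lemma zn_trilinear {m a b : ℕ} (T : Finset (Fin m × Fin a × Fin b)) (c : ℤ) (n : ℕ) :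
    zn {∑ t ∈ T, (X (Sum.inl t.1) * X (Sum.inr (Sum.inl t.2.1)) *
      X (Sum.inr (Sum.inr t.2.2)) : MvPolynomial (Fin m ⊕ Fin a ⊕ Fin b) ℤ) - C c} n =
      Tv (FF n) (ofT T) (c : FF n) := by
  unfold zn Tv
  congr 1
  let e : (Fin m ⊕ Fin a ⊕ Fin b → FF n) ≃ (Fin m → FF n) × (Fin a → FF n) × (Fin b → FF n) :=
    (Equiv.sumArrowEquivProdArrow _ _ _).trans
      (Equiv.prodCongr (Equiv.refl _) (Equiv.sumArrowEquivProdArrow _ _ _))
  refine Nat.card_congr (Equiv.subtypeEquiv e fun x => ?_)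
  simp only [Set.mem_singleton_iff, forall_eq]
  rw [map_sub, aeval_tri, aeval_C, sub_eq_zero]
  exact Iff.rfl

lemma Tv_zero (k : Type) [Field k] {m : ℕ} {I J : Type} [Fintype I] [Fintype J]
    (M : Fin m → I → J → ℤ) : Tv k M 0 = Tc k M := rfl

lemma Tv_one (k : Type) [Field k] [Finite k] {m : ℕ} {I J : Type} [Fintype I] [Fintype J]
    (M : Fin m → I → J → ℤ) :
    (Tc k M : ℤ) + ((Nat.card k : ℤ) - 1) * Tv k M 1 =
      (Nat.card k : ℤ) ^ (m + (Fintype.card I + Fintype.card J)) := by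
  have h := card_split (α := (Fin m → k) × (I → k) × (J → k)) (fun _ => True)
    (fun p => ∑ l, ∑ i, ∑ j, (M l i j : k) * (p.1 l * p.2.1 i * p.2.2 j) = 0)
  have h1 : Nat.card {p : (Fin m → k) × (I → k) × (J → k) // True} =
      Nat.card k ^ (m + (Fintype.card I + Fintype.card J)) := by
    rw [Nat.card_congr (Equiv.subtypeUnivEquiv fun _ => trivial), Nat.card_prod, Nat.card_prod,
      Nat.card_fun, Nat.card_fun, Nat.card_fun, Nat.card_eq_fintype_card (α := Fin m),
      Fintype.card_fin, Nat.card_eq_fintype_card (α := I), Nat.card_eq_fintype_card (α := J),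
      pow_add, pow_add]
  have h2 : Nat.card {p : (Fin m → k) × (I → k) × (J → k) // True ∧
      ∑ l, ∑ i, ∑ j, (M l i j : k) * (p.1 l * p.2.1 i * p.2.2 j) = 0} = Tc k M :=
    Nat.card_congr (Equiv.subtypeEquivRight fun p => by simp)
  have h3 : Nat.card {p : (Fin m → k) × (I → k) × (J → k) // True ∧
      ¬ ∑ l, ∑ i, ∑ j, (M l i j : k) * (p.1 l * p.2.1 i * p.2.2 j) = 0} =
      Nat.card kˣ * Tv k M 1 := by
    unfold Tv
    rw [← Nat.card_prod]
    have hs : ∀ (t : k) (p : (Fin m → k) × (I → k) × (J → k)),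
        ∑ l, ∑ i, ∑ j, (M l i j : k) * (t * p.1 l * p.2.1 i * p.2.2 j) =
        t * ∑ l, ∑ i, ∑ j, (M l i j : k) * (p.1 l * p.2.1 i * p.2.2 j) := by
      intro t p
      rw [Finset.mul_sum]
      refine Finset.sum_congr rfl fun l _ => ?_
      rw [Finset.mul_sum]
      refine Finset.sum_congr rfl fun i _ => ?_
      rw [Finset.mul_sum]
      exact Finset.sum_congr rfl fun j _ => by ring
    refine Nat.card_congr
      { toFun := fun p => (Units.mk0 _ p.2.2, ⟨(fun l => (∑ l, ∑ i, ∑ j, (M l i j : k) *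
          (p.1.1 l * p.1.2.1 i * p.1.2.2 j))⁻¹ * p.1.1 l, p.1.2), ?_⟩)
        invFun := fun q => ⟨(fun l => (q.1 : k) * q.2.1.1 l, q.2.1.2), trivial, ?_⟩
        left_inv := fun p => ?_
        right_inv := fun q => ?_ }
    · show ∑ l, ∑ i, ∑ j, (M l i j : k) * ((∑ l, ∑ i, ∑ j, (M l i j : k) *
          (p.1.1 l * p.1.2.1 i * p.1.2.2 j))⁻¹ * p.1.1 l * p.1.2.1 i * p.1.2.2 j) = 1
      rw [hs, inv_mul_cancel₀ p.2.2]
    · show ¬ ∑ l, ∑ i, ∑ j, (M l i j : k) * ((q.1 : k) * q.2.1.1 l * q.2.1.2.1 i *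
        q.2.1.2.2 j) = 0
      rw [hs, q.2.2, mul_one]
      exact q.1.ne_zero
    · apply Subtype.ext
      apply Prod.ext
      · funext l
        show (∑ l, ∑ i, ∑ j, (M l i j : k) * (p.1.1 l * p.1.2.1 i * p.1.2.2 j)) *
          ((∑ l, ∑ i, ∑ j, (M l i j : k) * (p.1.1 l * p.1.2.1 i * p.1.2.2 j))⁻¹ * p.1.1 l) = _
        rw [← mul_assoc, mul_inv_cancel₀ p.2.2, one_mul]
      · rfl
    · have hq : ∑ l, ∑ i, ∑ j, (M l i j : k) * ((q.1 : k) * q.2.1.1 l * q.2.1.2.1 i *
        q.2.1.2.2 j) = q.1 := by rw [hs, q.2.2, mul_one]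
      apply Prod.ext
      · apply Units.ext
        exact hq
      · apply Subtype.ext
        apply Prod.ext
        · funext l
          show (∑ l, ∑ i, ∑ j, (M l i j : k) * ((q.1 : k) * q.2.1.1 l * q.2.1.2.1 i *
            q.2.1.2.2 j))⁻¹ * ((q.1 : k) * q.2.1.1 l) = q.2.1.1 l
          rw [hq, ← mul_assoc, inv_mul_cancel₀ q.1.ne_zero, one_mul]
        · rfl
  rw [h1, h2, h3] at h
  have hcard : ((Nat.card k : ℤ) - 1) = (Nat.card kˣ : ℤ) := by
    have := Nat.card_units k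
    have h1 : 0 < Nat.card k := Nat.card_pos
    rw [this]
    omega
  rw [hcard]
  exact_mod_cast h.symm

lemma zn_double {m : ℕ} (b c : MvPolynomial (Fin m) ℤ) (n : ℕ) :
    zn {X none ^ 2 + rename some b * X none + rename some c} n = dc (FF n) b c := by
  unfold zn dc
  congr 1
  let e : (Option (Fin m) → FF n) ≃ (Fin m → FF n) × FF n :=
    { toFun := fun x => (fun i => x (some i), x none)
      invFun := fun p => fun o => o.elim p.2 p.1
      left_inv := fun x => by funext o; cases o <;> rfl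
      right_inv := fun p => rfl }
  refine Nat.card_congr (Equiv.subtypeEquiv e fun x => ?_)
  simp only [Set.mem_singleton_iff, forall_eq]
  refine Eq.congr_left ?_
  rw [map_add, map_add, map_mul, map_pow, aeval_X, aeval_rename, aeval_rename]
  rfl

lemma zn_forms {m a : ℕ} (Q : Fin m → Fin a → Fin a → ℤ) (n : ℕ) :
    zn (Set.range fun l : Fin m => ∑ i, ∑ j, C (Q l i j) *
      (X i * X j : MvPolynomial (Fin a) ℤ)) n =
      Nat.card {y : Fin a → FF n // ∀ l, ∑ i, ∑ j, (Q l i j : FF n) * (y i * y j) = 0} := by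
  unfold zn
  congr 1
  refine Nat.card_congr (Equiv.subtypeEquivRight fun x => ?_)
  rw [Set.forall_mem_range]
  refine forall_congr' fun l => Eq.congr_left ?_
  simp only [map_sum, map_mul, aeval_X, aeval_C]
  rfl

lemma zn_single {m : ℕ} (f : MvPolynomial (Fin m) ℤ) (n : ℕ) :
    zn {f} n = Nat.card {x : Fin m → FF n // aeval x f = 0} := by
  unfold zn
  congr 1
  exact Nat.card_congr (Equiv.subtypeEquivRight fun x => by simp)

end Pool.Agent.Helper81.HI
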