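import Pool.Agent.Helper81.HI.Noe

/-!
# Birational subrings of a field have the same homomorphisms to fields generically
-/

set_option autoImplicit false

open Pool.Agent.Helper29.Zeta

namespace Pool.Agent.Helper81.HI

variable {K : Type} [Field K]

/-- the subring generated by `S` and the inverse of `x` -/
def loc (S : Subring K) (x : K) : Subring K := Subring.closure ((S : Set K) ∪ {x⁻¹})

lemma le_loc (S : Subring K) (x : K) : S ≤ loc S x := fun _ h =>
  Subring.subset_closure (Or.inl h)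

lemma inv_mem_loc (S : Subring K) (x : K) : x⁻¹ ∈ loc S x :=
  Subring.subset_closure (Or.inr rfl)

lemma loc_le {S T : Subring K} {x : K} (h : S ≤ T) (hx : x⁻¹ ∈ T) : loc S x ≤ T := by
  unfold loc
  rw [Subring.closure_le, Set.union_subset_iff]
  exact ⟨h, by simpa using hx⟩

lemma mem_loc {S : Subring K} {x : K} (hx : x ∈ S) (h0 : x ≠ 0) {t : K} (ht : t ∈ loc S x) :
    ∃ i : ℕ, t * x ^ i ∈ S := by
  unfold loc at ht
  induction ht using Subring.closure_induction with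
  | mem t ht =>
    rcases ht with h | h
    · exact ⟨0, by simpa using h⟩
    · refine ⟨1, ?_⟩
      rw [Set.mem_singleton_iff.mp h, pow_one, inv_mul_cancel₀ h0]
      exact S.one_mem
  | zero => exact ⟨0, by simp [S.zero_mem]⟩
  | one => exact ⟨0, by simp [S.one_mem]⟩
  | add a b _ _ ha hb =>
    obtain ⟨i, hi⟩ := ha
    obtain ⟨j, hj⟩ := hb
    refine ⟨i + j, ?_⟩
    have : (a + b) * x ^ (i + j) = (a * x ^ i) * x ^ j + (b * x ^ j) * x ^ i := by ring
    rw [this]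
    exact S.add_mem (S.mul_mem hi (S.pow_mem hx j)) (S.mul_mem hj (S.pow_mem hx i))
  | neg a _ ha =>
    obtain ⟨i, hi⟩ := ha
    exact ⟨i, by rw [neg_mul]; exact S.neg_mem hi⟩
  | mul a b _ _ ha hb =>
    obtain ⟨i, hi⟩ := ha
    obtain ⟨j, hj⟩ := hb
    refine ⟨i + j, ?_⟩
    have : (a * b) * x ^ (i + j) = (a * x ^ i) * (b * x ^ j) := by ring
    rw [this]
    exact S.mul_mem hi hj

lemma isLoc_loc (S : Subring K) (x : K) (hx : x ∈ S) (h0 : x ≠ 0) :
    @IsLocalization.Away S _ ⟨x, hx⟩ (loc S x) _ (Subring.inclusion (le_loc S x)).toAlgebra := by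
  let _ : Algebra S (loc S x) := (Subring.inclusion (le_loc S x)).toAlgebra
  let b : S := ⟨x, hx⟩
  have hu : IsUnit (algebraMap S (loc S x) b) := by
    refine IsUnit.of_mul_eq_one ⟨x⁻¹, inv_mem_loc S x⟩ ?_
    apply Subtype.ext
    show x * x⁻¹ = 1
    exact mul_inv_cancel₀ h0
  refine ⟨?_, ?_, ?_⟩
  · rintro ⟨y, n, rfl⟩
    rw [map_pow]
    exact hu.pow n
  · rintro ⟨t, ht⟩
    obtain ⟨i, hi⟩ := mem_loc hx h0 ht
    refine ⟨⟨⟨t * x ^ i, hi⟩, ⟨b ^ i, i, rfl⟩⟩, ?_⟩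
    apply Subtype.ext
    show t * ((b ^ i : S) : K) = t * x ^ i
    rfl
  · intro s t h
    refine ⟨1, ?_⟩
    have : s = t := by
      apply Subtype.ext
      exact congrArg (fun z : loc S x => (z : K)) h
    rw [this]

lemma card_loc (S : Subring K) (x : K) (hx : x ∈ S) (h0 : x ≠ 0) (k : Type) [Field k] :
    Nat.card {α : S →+* k // α ⟨x, hx⟩ ≠ 0} = Nat.card (loc S x →+* k) := by
  let _ : Algebra S (loc S x) := (Subring.inclusion (le_loc S x)).toAlgebra
  have hmap : ∀ s : S, ((algebraMap S (loc S x) s : loc S x) : K) = s := fun s => rfl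
  let b : S := ⟨x, hx⟩
  have hu : IsUnit (algebraMap S (loc S x) b) := by
    refine IsUnit.of_mul_eq_one ⟨x⁻¹, inv_mem_loc S x⟩ ?_
    apply Subtype.ext
    show x * x⁻¹ = 1
    exact mul_inv_cancel₀ h0
  have hloc : IsLocalization.Away b (loc S x) := by
    refine ⟨?_, ?_, ?_⟩
    · rintro ⟨y, n, rfl⟩
      rw [map_pow]
      exact hu.pow n
    · rintro ⟨t, ht⟩
      obtain ⟨i, hi⟩ := mem_loc hx h0 ht
      refine ⟨⟨⟨t * x ^ i, hi⟩, ⟨b ^ i, i, rfl⟩⟩, ?_⟩
      apply Subtype.ext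
      show t * ((b ^ i : S) : K) = t * x ^ i
      rfl
    · intro s t h
      refine ⟨1, ?_⟩
      have : s = t := by
        apply Subtype.ext
        exact congrArg (fun z : loc S x => (z : K)) h
      rw [this]
  refine Nat.card_congr
    { toFun := fun α => IsLocalization.Away.lift b (g := α.1) (isUnit_iff_ne_zero.mpr α.2)
      invFun := fun l => ⟨l.comp (algebraMap S (loc S x)), ?_⟩
      left_inv := fun α => ?_
      right_inv := fun l => ?_ }
  · rw [RingHom.comp_apply]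
    exact (hu.map l).ne_zero
  · apply Subtype.ext
    exact IsLocalization.Away.lift_comp b _
  · refine IsLocalization.ringHom_ext (Submonoid.powers b) ?_
    exact IsLocalization.Away.lift_comp b _

lemma card_hom_range {A k : Type} [CommRing A] [Field k] (φ : A →+* K) (a : A) :
    Nat.card {α : A →+* k // RingHom.ker φ ≤ RingHom.ker α ∧ α a ≠ 0} =
      Nat.card {α : φ.range →+* k // α ⟨φ a, φ.mem_range_self a⟩ ≠ 0} := by
  let e := RingHom.liftOfSurjective (C := k) φ.rangeRestrict φ.rangeRestrict_surjective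
  have hker : RingHom.ker φ.rangeRestrict = RingHom.ker φ := RingHom.ker_rangeRestrict φ
  refine Nat.card_congr
    { toFun := fun α => ⟨e ⟨α.1, hker.le.trans α.2.1⟩, ?_⟩
      invFun := fun β => ⟨(e.symm β.1).1, hker.ge.trans (e.symm β.1).2, β.2⟩
      left_inv := fun α => ?_
      right_inv := fun β => ?_ }
  · have h1 : e ⟨α.1, hker.le.trans α.2.1⟩ (φ.rangeRestrict a) = α.1 a :=
      RingHom.liftOfRightInverse_comp_apply _ _ _ _ a
    show e ⟨α.1, hker.le.trans α.2.1⟩ (φ.rangeRestrict a) ≠ 0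
    rw [h1]
    exact α.2.2
  · apply Subtype.ext
    show (e.symm (e ⟨α.1, hker.le.trans α.2.1⟩)).1 = α.1
    rw [Equiv.symm_apply_apply]
  · apply Subtype.ext
    exact e.apply_symm_apply β.1

/-- the image of a ring of finite type is generated by finitely many elements -/
lemma exists_gens {A : Type} [CommRing A] [Algebra.FiniteType ℤ A] (φ : A →+* K) :
    ∃ F : Finset K, φ.range = Subring.closure (F : Set K) := by
  classical
  obtain ⟨s, hs⟩ := (Algebra.FiniteType.out : (⊤ : Subalgebra ℤ A).FG)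
  have h1 : Subring.closure (s : Set A) = ⊤ := by
    rw [Algebra.adjoin_int] at hs
    rw [eq_top_iff]
    intro x _
    have : x ∈ subalgebraOfSubring (Subring.closure (s : Set A)) := by rw [hs]; trivial
    exact this
  refine ⟨s.image φ, ?_⟩
  rw [Finset.coe_image, ← RingHom.map_closure, h1, RingHom.range_eq_map]

/-- common denominators -/
lemma exists_den {A : Type} [CommRing A] (φ : A →+* K)
    (hφ : ∀ x : K, ∃ a b : A, φ b ≠ 0 ∧ x * φ b = φ a) (F : Finset K) :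
    ∃ b : A, φ b ≠ 0 ∧ ∀ x ∈ F, x * φ b ∈ φ.range := by
  classical
  induction F using Finset.induction_on with
  | empty => exact ⟨1, by simp, by simp⟩
  | insert x F _ ih =>
    obtain ⟨b, hb, h⟩ := ih
    obtain ⟨a, c, hc, hx⟩ := hφ x
    refine ⟨b * c, by rw [map_mul]; exact mul_ne_zero hb hc, fun y hy => ?_⟩
    rw [Finset.mem_insert] at hy
    rcases hy with rfl | hy
    · refine ⟨b * a, ?_⟩
      rw [map_mul, map_mul, ← hx]; ring
    · obtain ⟨d, hd⟩ := h y hy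
      refine ⟨d * c, ?_⟩
      rw [map_mul, map_mul, hd]; ring

lemma exists_loc {A R : Type} [CommRing A] [CommRing R] [Algebra.FiniteType ℤ R]
    (φ : A →+* K) (ψ : R →+* K) (hφ : ∀ x : K, ∃ a b : A, φ b ≠ 0 ∧ x * φ b = φ a) :
    ∃ b : A, φ b ≠ 0 ∧ ψ.range ≤ loc φ.range (φ b) := by
  obtain ⟨F, hF⟩ := exists_gens ψ
  obtain ⟨b, hb, h⟩ := exists_den φ hφ F
  refine ⟨b, hb, ?_⟩
  rw [hF, Subring.closure_le]
  intro y hy
  have h1 : y = (y * φ b) * (φ b)⁻¹ := by field_simp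
  rw [h1]
  exact Subring.mul_mem _ (le_loc _ _ (h y hy)) (inv_mem_loc _ _)

/-- **Birational subrings** have a common localization. -/
theorem bir_loc {A R : Type} [CommRing A] [CommRing R] [Algebra.FiniteType ℤ A]
    [Algebra.FiniteType ℤ R] (φ : A →+* K) (ψ : R →+* K)
    (hφ : ∀ x : K, ∃ a b : A, φ b ≠ 0 ∧ x * φ b = φ a)
    (hψ : ∀ x : K, ∃ a b : R, ψ b ≠ 0 ∧ x * ψ b = ψ a) :
    ∃ (a : A) (g : R), φ a ≠ 0 ∧ ψ g ≠ 0 ∧ loc φ.range (φ a) = loc ψ.range (ψ g) := by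
  obtain ⟨h, hh, h1⟩ := exists_loc φ ψ hφ
  obtain ⟨g₁, hg₁, h2⟩ := exists_loc ψ φ hψ
  obtain ⟨l, γ, hγ⟩ := mem_loc (S := ψ.range) (ψ.mem_range_self g₁) hg₁ (h2 (φ.mem_range_self h))
  obtain ⟨m, β, hβ⟩ := mem_loc (S := φ.range) (φ.mem_range_self h) hh (h1 (ψ.mem_range_self g₁))
  have e1 : φ (h * β) = φ h ^ (m + 1) * ψ g₁ := by rw [map_mul, hβ]; ring
  have e2 : ψ (g₁ * γ) = ψ g₁ ^ (l + 1) * φ h := by rw [map_mul, hγ]; ring
  have n1 : φ (h * β) ≠ 0 := by rw [e1]; exact mul_ne_zero (pow_ne_zero _ hh) hg₁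
  have n2 : ψ (g₁ * γ) ≠ 0 := by rw [e2]; exact mul_ne_zero (pow_ne_zero _ hg₁) hh
  have i1 : (φ h)⁻¹ ∈ loc φ.range (φ (h * β)) := by
    have : (φ h)⁻¹ = φ β * (φ (h * β))⁻¹ := by
      rw [map_mul] at n1 ⊢
      have := right_ne_zero_of_mul n1
      field_simp
    rw [this]
    exact Subring.mul_mem _ (le_loc _ _ (φ.mem_range_self β)) (inv_mem_loc _ _)
  have i2 : (ψ g₁)⁻¹ ∈ loc ψ.range (ψ (g₁ * γ)) := by
    have : (ψ g₁)⁻¹ = ψ γ * (ψ (g₁ * γ))⁻¹ := by
      rw [map_mul] at n2 ⊢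
      have := right_ne_zero_of_mul n2
      field_simp
    rw [this]
    exact Subring.mul_mem _ (le_loc _ _ (ψ.mem_range_self γ)) (inv_mem_loc _ _)
  have j1 : loc φ.range (φ h) ≤ loc φ.range (φ (h * β)) := loc_le (le_loc _ _) i1
  have j2 : loc ψ.range (ψ g₁) ≤ loc ψ.range (ψ (g₁ * γ)) := loc_le (le_loc _ _) i2
  -- the inverses in the other ring
  have k1 : (ψ g₁)⁻¹ ∈ loc φ.range (φ (h * β)) := by
    have : (ψ g₁)⁻¹ = φ h ^ (m + 1) * (φ (h * β))⁻¹ := by
      rw [e1]; field_simp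
    rw [this]
    exact Subring.mul_mem _ (Subring.pow_mem _ (le_loc _ _ (φ.mem_range_self h)) _) (inv_mem_loc _ _)
  have k2 : (φ h)⁻¹ ∈ loc ψ.range (ψ (g₁ * γ)) := by
    have : (φ h)⁻¹ = ψ g₁ ^ (l + 1) * (ψ (g₁ * γ))⁻¹ := by
      rw [e2]; field_simp
    rw [this]
    exact Subring.mul_mem _ (Subring.pow_mem _ (le_loc _ _ (ψ.mem_range_self g₁)) _) (inv_mem_loc _ _)
  refine ⟨h * β, g₁ * γ, n1, n2, ?_⟩
  refine le_antisymm (loc_le (h2.trans j2) ?_) (loc_le (h1.trans j1) ?_)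
  · rw [e1, mul_inv, ← inv_pow]
    exact Subring.mul_mem _ (Subring.pow_mem _ k2 _) i2
  · rw [e2, mul_inv, ← inv_pow]
    exact Subring.mul_mem _ (Subring.pow_mem _ k1 _) i1

/-- **Birational subrings.** -/
theorem bir {A R : Type} [CommRing A] [CommRing R] [Algebra.FiniteType ℤ A]
    [Algebra.FiniteType ℤ R] (φ : A →+* K) (ψ : R →+* K)
    (hφ : ∀ x : K, ∃ a b : A, φ b ≠ 0 ∧ x * φ b = φ a)
    (hψ : ∀ x : K, ∃ a b : R, ψ b ≠ 0 ∧ x * ψ b = ψ a) :
    ∃ (a : A) (g : R), φ a ≠ 0 ∧ ψ g ≠ 0 ∧ ∀ (k : Type) [Field k],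
      Nat.card {α : A →+* k // RingHom.ker φ ≤ RingHom.ker α ∧ α a ≠ 0} =
      Nat.card {β : R →+* k // RingHom.ker ψ ≤ RingHom.ker β ∧ β g ≠ 0} := by
  obtain ⟨a, g, ha, hg, heq⟩ := bir_loc φ ψ hφ hψ
  refine ⟨a, g, ha, hg, fun k _ => ?_⟩
  rw [card_hom_range, card_hom_range, card_loc _ _ (φ.mem_range_self a) ha,
    card_loc _ _ (ψ.mem_range_self g) hg, heq]

end Pool.Agent.Helper81.HI
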