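import Pool.Agent.Helper50.KR.MG

/-!
# Classes of counting functions

A property of functions on prime powers is *closed* if it is stable under sums, products with
integer polynomials in `q` and division by monic polynomials in `q`, and if it holds for the
counting functions of `Spec ℤ` and `Spec 𝔽_p`.  The main example: the zeta function is
meromorphic on `ℂ`.
-/

set_option autoImplicit false

open Complex
open Pool.Agent.Helper29.Zeta Pool.Agent.Helper50.KR

namespace Pool.Agent.Helper81.HI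

/-! ### The zeta functions of `Spec ℤ` and `Spec 𝔽_p` -/

lemma meromorphicAt_riemannZeta (s : ℂ) : MeromorphicAt riemannZeta s := by
  by_cases hs : s = 1
  · subst hs
    refine ⟨2, ?_⟩
    refine Complex.analyticAt_of_differentiable_on_punctured_nhds_of_continuousAt ?_ ?_
    · filter_upwards [self_mem_nhdsWithin] with z hz
      exact (by fun_prop : DifferentiableAt ℂ (fun z : ℂ => (z - 1) ^ 2) z).smul
        (differentiableAt_riemannZeta hz)
    · have h1 := riemannZeta_residue_one
      have h2 : Filter.Tendsto (fun z : ℂ => z - 1) (nhdsWithin 1 {1}ᶜ) (nhds 0) := by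
        have : Filter.Tendsto (fun z : ℂ => z - 1) (nhds 1) (nhds (1 - 1)) := by
          exact (continuous_id.sub continuous_const).tendsto 1
        rw [sub_self] at this
        exact this.mono_left nhdsWithin_le_nhds
      have h3 := h2.mul h1
      rw [zero_mul] at h3
      rw [continuousAt_iff_punctured_nhds]
      have h4 : ((1 : ℂ) - 1) ^ 2 • riemannZeta 1 = 0 := by simp
      rw [h4]
      refine h3.congr fun z => ?_
      rw [smul_eq_mul]; ring
  · have h1 : ∀ᶠ z in nhds s, DifferentiableAt ℂ riemannZeta z := by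
      filter_upwards [isOpen_ne.mem_nhds hs] with z hz
      exact differentiableAt_riemannZeta hz
    exact (analyticAt_iff_eventually_differentiableAt.mpr h1).meromorphicAt

lemma mult_prime {p n : ℕ} (hp : p.Prime) (h : ∃ k : ℕ, k ≠ 0 ∧ p ^ k = n) :
    (mult p n : ℝ) = 1 := by
  classical
  unfold mult
  rw [if_pos h, ArithmeticFunction.cardFactors_apply_prime hp]; simp

lemma mult_prime' {p n : ℕ} (h : ¬ ∃ k : ℕ, k ≠ 0 ∧ p ^ k = n) :
    (mult p n : ℝ) = 0 := by
  classical
  unfold mult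
  rw [if_neg h]; simp

lemma mero_one' : Mero (fun _ => 1) := by
  classical
  obtain ⟨σ, hσ⟩ := euler (P := Nat.Primes) (fun p => (p : ℕ)) (fun p => p.2.isPrimePow)
    (fun _ => 1) (by simpa using Growth.const 1) (fun n hn => by
      obtain ⟨p, k, hp, hk, rfl⟩ := hn
      have h1 := hasSum_single (f := fun x : Nat.Primes => (mult (x : ℕ) (p ^ k) : ℝ))
        ⟨p, hp.nat_prime⟩ (fun q hq => by
          refine mult_prime' ?_
          rintro ⟨j, hj, h⟩
          apply hq
          apply Subtype.ext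
          have h2 : (q : ℕ) ∣ p ^ k := by rw [← h]; exact dvd_pow_self _ hj
          exact (Nat.prime_dvd_prime_iff_eq q.2 hp.nat_prime).mp (q.2.dvd_of_dvd_pow h2))
      rw [mult_prime hp.nat_prime ⟨k, hk.ne', rfl⟩] at h1
      exact h1)
  refine ⟨riemannZeta, fun s _ => meromorphicAt_riemannZeta s, max σ 1, fun s hs => ?_⟩
  have h1 := hσ s (max_lt_iff.mp hs).1
  rw [← riemannZeta_eulerProduct_tprod (max_lt_iff.mp hs).2, h1]
  simp

lemma mero_char (p : ℕ) (hp : p.Prime) : Mero (fun n => ((if p ∣ n then (1 : ℤ) else 0 : ℤ) : ℂ)) := by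
  classical
  obtain ⟨σ, hσ⟩ := euler (P := Unit) (fun _ => p) (fun _ => hp.isPrimePow)
    (fun n => if p ∣ n then 1 else 0) (by
      refine ⟨1, 0, fun n _ => ?_⟩
      beta_reduce
      split_ifs <;> simp) (fun n hn => by
      obtain ⟨q, k, hq, hk, rfl⟩ := hn
      have h1 := hasSum_single (f := fun x : Unit => (mult p (q ^ k) : ℝ)) ()
        (fun x hx => (hx rfl).elim)
      by_cases hpq : p = q
      · subst hpq
        rw [mult_prime hp ⟨k, hk.ne', rfl⟩] at h1
        rw [mult_prime hp ⟨k, hk.ne', rfl⟩, if_pos (dvd_pow_self p hk.ne')]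
        exact h1
      · have h2 : ¬ p ∣ q ^ k := fun h =>
          hpq ((Nat.prime_dvd_prime_iff_eq hp hq.nat_prime).mp (hp.dvd_of_dvd_pow h))
        have h3 : ¬ ∃ j : ℕ, j ≠ 0 ∧ p ^ j = q ^ k := by
          rintro ⟨j, hj, h⟩
          exact h2 (by rw [← h]; exact dvd_pow_self p hj)
        rw [mult_prime' h3] at h1
        rw [mult_prime' h3, if_neg h2]
        exact h1)
  refine ⟨fun s => (1 - ((p : ℂ) ^ (-s)))⁻¹, fun s _ => ?_, σ, fun s hs => ?_⟩
  · have hp0 : (p : ℂ) ≠ 0 := Nat.cast_ne_zero.mpr hp.ne_zero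
    have h1 : AnalyticAt ℂ (fun s : ℂ => 1 - ((p : ℂ) ^ (-s))) s := by
      have h2 : AnalyticAt ℂ (fun s : ℂ => Complex.exp (Complex.log p * (-s))) s := by fun_prop
      have h3 : (fun s : ℂ => ((p : ℂ) ^ (-s))) =
          fun s : ℂ => Complex.exp (Complex.log p * (-s)) := by
        funext s
        rw [Complex.cpow_def_of_ne_zero hp0]
      refine analyticAt_const.sub ?_
      rw [h3]; exact h2
    exact h1.meromorphicAt.inv
  · have h1 := hσ s hs
    simp only [tprod_fintype, Finset.univ_unique, Finset.prod_singleton] at h1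
    beta_reduce
    rw [h1]
    congr 2
    funext n
    split_ifs <;> simp

/-! ### Closed properties -/

/-- the constant `1` if `p ∣ n`: the counting function of `Spec 𝔽_p` -/
noncomputable def chr (p n : ℕ) : ℤ := open Classical in if p ∣ n then 1 else 0

/-- a closed property of counting functions -/
structure Cls (P : (ℕ → ℤ) → Prop) : Prop where
  growth : ∀ {c : ℕ → ℤ}, P c → Growth (fun n => (c n : ℂ))
  congr : ∀ {c c' : ℕ → ℤ}, P c → (∀ n, IsPrimePow n → c n = c' n) → P c'
  add : ∀ {c c' : ℕ → ℤ}, P c → P c' → P (fun n => c n + c' n)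
  mul_poly : ∀ {c : ℕ → ℤ}, P c → ∀ Q : Polynomial ℤ, P (fun n => Q.eval (n : ℤ) * c n)
  one : P (fun _ => 1)
  char : ∀ p : ℕ, p.Prime → P (chr p)
  of_monic : ∀ {c : ℕ → ℤ}, Growth (fun n => (c n : ℂ)) → ∀ {Q : Polynomial ℤ}, Q.Monic →
    P (fun n => Q.eval (n : ℤ) * c n) → P c

namespace Cls

variable {P : (ℕ → ℤ) → Prop} (hP : Cls P)

include hP

lemma neg {c : ℕ → ℤ} (h : P c) : P (fun n => - c n) :=
  hP.congr (hP.mul_poly h (-1)) fun n _ => by simp

lemma sub {c c' : ℕ → ℤ} (h : P c) (h' : P c') : P (fun n => c n - c' n) :=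
  hP.congr (hP.add h (hP.neg h')) fun n _ => by ring

lemma zero : P (fun _ => 0) :=
  hP.congr (hP.mul_poly hP.one 0) fun n _ => by simp

lemma poly (Q : Polynomial ℤ) : P (fun n => Q.eval (n : ℤ)) :=
  hP.congr (hP.mul_poly hP.one Q) fun n _ => by simp

lemma pow_mul {c : ℕ → ℤ} (h : P c) (a : ℕ) : P (fun n => (n : ℤ) ^ a * c n) :=
  hP.congr (hP.mul_poly h (Polynomial.X ^ a)) fun n _ => by simp

lemma id_mul {c : ℕ → ℤ} (h : P c) : P (fun n => (n : ℤ) * c n) :=
  hP.congr (hP.mul_poly h Polynomial.X) fun n _ => by simp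

lemma pred_mul {c : ℕ → ℤ} (h : P c) : P (fun n => ((n : ℤ) - 1) * c n) :=
  hP.congr (hP.mul_poly h (Polynomial.X - 1)) fun n _ => by simp

lemma pow (a : ℕ) : P (fun n => (n : ℤ) ^ a) :=
  hP.congr (hP.pow_mul hP.one a) fun n _ => by simp

lemma sum {ι : Type*} (s : Finset ι) {c : ι → ℕ → ℤ} (h : ∀ i ∈ s, P (c i)) :
    P (fun n => ∑ i ∈ s, c i n) := by
  classical
  induction s using Finset.induction_on with
  | empty => simpa using hP.zero
  | insert i s hi ih =>
    refine hP.congr (hP.add (h i (Finset.mem_insert_self _ _))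
      (ih fun j hj => h j (Finset.mem_insert_of_mem hj))) fun n _ => ?_
    rw [Finset.sum_insert hi]

lemma of_pow_mul {c : ℕ → ℤ} (hg : Growth (fun n => (c n : ℂ))) (a : ℕ)
    (h : P (fun n => (n : ℤ) ^ a * c n)) : P c :=
  hP.of_monic hg (Polynomial.monic_X_pow a) (hP.congr h fun n _ => by simp)

lemma of_pred_mul {c : ℕ → ℤ} (hg : Growth (fun n => (c n : ℂ)))
    (h : P (fun n => ((n : ℤ) - 1) * c n)) : P c :=
  hP.of_monic hg (Polynomial.monic_X_sub_C 1) (hP.congr h fun n _ => by simp)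

end Cls

/-! ### Meromorphic continuation relative to a class -/

lemma mg_one : MG (fun _ => 1) := by
  refine ⟨by simpa using Growth.const 1, ?_⟩
  simpa using mero_one'

lemma mg_chr (p : ℕ) (hp : p.Prime) : MG (chr p) := by
  refine ⟨⟨1, 0, fun n _ => ?_⟩, ?_⟩
  · unfold chr
    beta_reduce
    split_ifs <;> simp
  · have := mero_char p hp
    unfold chr
    exact this

/-- meromorphic continuation under the hypothesis `H F` for some `F` -/
def Rel {S : Type*} (H : Finset S → Prop) (c : ℕ → ℤ) : Prop :=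
  Growth (fun n => (c n : ℂ)) ∧ ∃ F : Finset S, H F → Mero (fun n => (c n : ℂ))

lemma cls_rel {S : Type*} [DecidableEq S] (H : Finset S → Prop)
    (mono : ∀ F F', F ⊆ F' → H F' → H F) : Cls (Rel H) where
  growth h := h.1
  congr {c c'} h h' := ⟨h.1.congr fun n hn => by rw [h' n hn], by
    obtain ⟨F, hF⟩ := h.2
    exact ⟨F, fun hH => (hF hH).congr fun n hn => by rw [h' n hn]⟩⟩
  add {c c'} h h' := by
    obtain ⟨F, hF⟩ := h.2
    obtain ⟨F', hF'⟩ := h'.2
    refine ⟨(h.1.add h'.1).congr fun n _ => by push_cast; rfl, F ∪ F', fun hH => ?_⟩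
    exact (MG.add ⟨h.1, hF (mono _ _ Finset.subset_union_left hH)⟩
      ⟨h'.1, hF' (mono _ _ Finset.subset_union_right hH)⟩).2
  mul_poly {c} h Q := by
    obtain ⟨F, hF⟩ := h.2
    refine ⟨((growth_eval Q).mul h.1).congr fun n _ => by push_cast; rfl, F, fun hH => ?_⟩
    exact (MG.mul_poly ⟨h.1, hF hH⟩ Q).2
  one := ⟨mg_one.1, ∅, fun _ => mg_one.2⟩
  char p hp := ⟨(mg_chr p hp).1, ∅, fun _ => (mg_chr p hp).2⟩
  of_monic {c} hg {Q} hQ h := by
    obtain ⟨F, hF⟩ := h.2
    exact ⟨hg, F, fun hH => (MG.of_monic hg hQ ⟨h.1, hF hH⟩).2⟩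

end Pool.Agent.Helper81.HI
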