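import Pool.Agent.Helper81.HI.Fld

/-!
# Rings all of whose residue fields have transcendence degree `< m`
-/

set_option autoImplicit false

open MvPolynomial
open Pool.Agent.Helper29.Zeta

namespace Pool.Agent.Helper81.HI

lemma ker_residue {A : Type} [CommRing A] (p : Ideal A) [p.IsPrime] :
    RingHom.ker (algebraMap A p.ResidueField) = p := by
  ext x
  rw [RingHom.mem_ker, Ideal.algebraMap_residueField_eq_zero]

lemma exists_frac {A : Type} [CommRing A] (p : Ideal A) [p.IsPrime] (x : p.ResidueField) :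
    ∃ a b : A, algebraMap A p.ResidueField b ≠ 0 ∧
      x * algebraMap A p.ResidueField b = algebraMap A p.ResidueField a := by
  obtain ⟨⟨a, s⟩, h⟩ := IsLocalization.surj (nonZeroDivisors (A ⧸ p)) x
  obtain ⟨a, rfl⟩ := Ideal.Quotient.mk_surjective a
  obtain ⟨b, hb⟩ := Ideal.Quotient.mk_surjective (s : A ⧸ p)
  refine ⟨a, b, ?_, ?_⟩
  · have h0 : algebraMap (A ⧸ p) p.ResidueField s ≠ 0 :=
      IsLocalization.to_map_ne_zero_of_mem_nonZeroDivisors _ le_rfl s.2
    rw [← hb] at h0
    exact h0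
  · rw [← hb] at h
    exact h

lemma fg_poly (σ : Type) [Finite σ] : @Algebra.FiniteType ℤ (MvPolynomial σ ℤ) _ _
    (Ring.toIntAlgebra (MvPolynomial σ ℤ)) := by
  have h : ∀ i j : Algebra ℤ (MvPolynomial σ ℤ), @Algebra.FiniteType ℤ _ _ _ i →
      @Algebra.FiniteType ℤ _ _ _ j := by
    intro i j hi
    rw [Subsingleton.elim j i]
    exact hi
  exact h _ _ (inferInstance : Algebra.FiniteType ℤ (MvPolynomial σ ℤ))

/-- **Rings of small transcendence degree are controlled by hypersurfaces in `A^m`.** -/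
theorem cI_mem_of_trdeg {P : (ℕ → ℤ) → Prop} (hP : Cls P) {m : ℕ} (hH : Hyp P m)
    {A : Type} [CommRing A] [Algebra.FiniteType ℤ A]
    (h : ∀ (p : Ideal A) [p.IsPrime],
      Algebra.trdeg (⊥ : Subfield p.ResidueField) p.ResidueField < m) (I : Ideal A) :
    P (cI I) := by
  classical
  refine noe hP (fun p hp ih => ?_) I
  have hK := h p
  have h1 : Algebra.EssFiniteType ℤ p.ResidueField := Algebra.EssFiniteType.comp ℤ A _
  have htower : @IsScalarTower ℤ (⊥ : Subfield p.ResidueField) p.ResidueField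
      Algebra.toSMul Algebra.toSMul Algebra.toSMul :=
    IsScalarTower.of_algebraMap_eq' (RingHom.ext_int _ _)
  have hR := fg_poly (Fin m)
  have h2 : Algebra.EssFiniteType (⊥ : Subfield p.ResidueField) p.ResidueField :=
    Algebra.EssFiniteType.of_comp ℤ (⊥ : Subfield p.ResidueField) p.ResidueField
  obtain ⟨z, hz⟩ := exists_generators hK
  let φ : A →+* p.ResidueField := algebraMap A p.ResidueField
  let ψ : MvPolynomial (Fin m) ℤ →+* p.ResidueField :=
    ((aeval z : MvPolynomial (Fin m) ℤ →ₐ[ℤ] p.ResidueField) :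
      MvPolynomial (Fin m) ℤ →+* p.ResidueField)
  have hrange : Subring.closure (Set.range z) ≤ ψ.range := by
    rw [Subring.closure_le]
    rintro _ ⟨i, rfl⟩
    exact ⟨X i, aeval_X z i⟩
  have hψ : ∀ x : p.ResidueField, ∃ a b : MvPolynomial (Fin m) ℤ, ψ b ≠ 0 ∧ x * ψ b = ψ a := by
    intro x
    have hx : x ∈ Subfield.closure (Set.range z) := by rw [hz]; trivial
    obtain ⟨y, hy, w, hw, hyw⟩ := Subfield.mem_closure_iff.mp hx
    obtain ⟨a, ha⟩ := hrange hy
    obtain ⟨b, hb⟩ := hrange hw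
    by_cases h0 : w = 0
    · refine ⟨0, 1, by simp, ?_⟩
      rw [← hyw, h0]; simp
    · refine ⟨a, b, by rw [hb]; exact h0, ?_⟩
      rw [ha, hb, ← hyw]; field_simp
  obtain ⟨a, g, ha, hg, hcard⟩ := bir φ ψ (exists_frac p) hψ
  obtain ⟨S, hS⟩ := (inferInstance : IsNoetherianRing (MvPolynomial (Fin m) ℤ)).noetherian
    (RingHom.ker ψ)
  have hap : a ∉ p := by
    intro hap
    apply ha
    have : a ∈ RingHom.ker φ := by rw [ker_residue]; exact hap
    exact this
  refine hP.congr (hP.add (ih (p ⊔ Ideal.span {a}) ?_) (uc_mem hP hH S g)) fun n _ => ?_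
  · refine lt_of_le_of_ne le_sup_left fun h => hap ?_
    rw [h]
    exact Ideal.mem_sup_right (Ideal.mem_span_singleton_self a)
  · rw [cI_split p a n]
    congr 1
    have h3 := hcard (FF n)
    rw [ker_residue] at h3
    rw [h3]
    unfold uc
    congr 1
    have h4 := card_hom_poly (k := FF n) (S : Set (MvPolynomial (Fin m) ℤ)) g
    have h5 : Ideal.span (S : Set (MvPolynomial (Fin m) ℤ)) = RingHom.ker ψ := hS
    rw [h5] at h4
    rw [h4]
    rfl

end Pool.Agent.Helper81.HI
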