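import Pool.Agent.Helper81.HI.Dim

/-!
# From rings of small transcendence degree to hypersurfaces
-/

set_option autoImplicit false

open MvPolynomial
open Pool.Agent.Helper29.Zeta

namespace Pool.Agent.Helper81.HI

lemma natCast_eq_zero_iff {ℓ n : ℕ} (hℓ : ℓ.Prime) (hn : IsPrimePow n) :
    ((ℓ : ℕ) : FF n) = 0 ↔ ℓ ∣ n := by
  have hcard := card_FF hn
  constructor
  · intro h
    have h1 : addOrderOf (1 : FF n) ∣ ℓ := by
      rw [addOrderOf_dvd_iff_nsmul_eq_zero]
      simpa using h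
    have h2 : addOrderOf (1 : FF n) ∣ n := by
      have := addOrderOf_dvd_natCard (1 : FF n)
      rwa [hcard] at this
    rcases (Nat.dvd_prime hℓ).mp h1 with h3 | h3
    · rw [AddMonoid.addOrderOf_eq_one_iff] at h3
      exact (one_ne_zero h3).elim
    · rwa [h3] at h2
  · intro h
    obtain ⟨q, r, hq, hr, rfl⟩ := hn
    have h1 : ℓ = q := (Nat.prime_dvd_prime_iff_eq hℓ hq.nat_prime).mp (hℓ.dvd_of_dvd_pow h)
    subst h1
    have h2 : addOrderOf (1 : FF (ℓ ^ r)) ∣ ℓ ^ r := by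
      have := addOrderOf_dvd_natCard (1 : FF (ℓ ^ r))
      rwa [hcard] at this
    rw [addOrderOf_dvd_iff_nsmul_eq_zero] at h2
    have h3 : ((ℓ : ℕ) : FF (ℓ ^ r)) ^ r = 0 := by
      simpa using h2
    exact pow_eq_zero_iff hr.ne' |>.mp h3

/-- the kernel of a generically surjective map to a field of transcendence degree `≥ m` -/
lemma ker_of_trdeg {κ : Type} [Field κ] {m : ℕ} (θ : MvPolynomial (Fin m) ℤ →+* κ)
    (hθ : ∀ x : κ, ∃ a b, θ b ≠ 0 ∧ x * θ b = θ a)
    (h : (m : Cardinal) ≤ Algebra.trdeg (⊥ : Subfield κ) κ) :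
    RingHom.ker θ = ⊥ ∨ ∃ ℓ : ℕ, ℓ.Prime ∧ RingHom.ker θ = Ideal.span {C (ℓ : ℤ)} := by
  let z : Fin m → κ := fun i => θ (X i)
  have hev : ∀ f, θ f = aeval z f := by
    intro f
    have h3 : θ = ((aeval z : MvPolynomial (Fin m) ℤ →ₐ[ℤ] κ) :
        MvPolynomial (Fin m) ℤ →+* κ) := by
      refine ringHom_ext' (RingHom.ext_int _ _) fun i => ?_
      simp [z]
    exact congrArg (fun ψ : MvPolynomial (Fin m) ℤ →+* κ => ψ f) h3
  have htower : @IsScalarTower ℤ (⊥ : Subfield κ) κ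
      Algebra.toSMul Algebra.toSMul Algebra.toSMul :=
    IsScalarTower.of_algebraMap_eq' (RingHom.ext_int _ _)
  have hmap : ∀ f, θ f = aeval z (map (algebraMap ℤ (⊥ : Subfield κ)) f) := by
    intro f
    rw [hev, aeval_map_algebraMap]
  have hmem : ∀ f, θ f ∈ Algebra.adjoin (⊥ : Subfield κ) (Set.range z) := by
    intro f
    rw [hmap, Algebra.adjoin_range_eq_range_aeval]
    exact ⟨_, rfl⟩
  have halg : Algebra.IsAlgebraic (Algebra.adjoin (⊥ : Subfield κ) (Set.range z)) κ := by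
    refine ⟨fun x => ?_⟩
    obtain ⟨a, b, hb, hx⟩ := hθ x
    refine ⟨Polynomial.C ⟨θ b, hmem b⟩ * Polynomial.X - Polynomial.C ⟨θ a, hmem a⟩, ?_, ?_⟩
    · intro h0
      have h1 := congrArg (fun p => Polynomial.coeff p 1) h0
      simp only [Polynomial.coeff_sub, Polynomial.coeff_C_mul, Polynomial.coeff_X_one, mul_one,
        Polynomial.coeff_C_succ, sub_zero, Polynomial.coeff_zero] at h1
      exact hb (congrArg Subtype.val h1)
    · rw [map_sub, map_mul, Polynomial.aeval_X, Polynomial.aeval_C, Polynomial.aeval_C]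
      show θ b * x - θ a = 0
      rw [← hx]; ring
  have hind : AlgebraicIndependent (⊥ : Subfield κ) z :=
    (Algebra.IsAlgebraic.isTranscendenceBasis_of_le_trdeg_of_finite (⊥ : Subfield κ) z
      (by simpa using h)).1
  have hco : ∀ f, θ f = 0 → ∀ e, ((coeff e f : ℤ) : κ) = 0 := by
    intro f hf e
    rw [hmap] at hf
    have h1 := (injective_iff_map_eq_zero _).mp hind _ hf
    have h2 := congrArg (coeff e) h1
    rw [coeff_map, coeff_zero] at h2
    have h3 := congrArg Subtype.val h2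
    simpa using h3
  obtain ⟨p, hp⟩ := CharP.exists κ
  rcases CharP.char_is_prime_or_zero κ p with h0 | h0
  · right
    refine ⟨p, h0, le_antisymm ?_ ?_⟩
    · intro f hf
      rw [Ideal.mem_span_singleton, C_dvd_iff_dvd_coeff]
      intro e
      exact (CharP.intCast_eq_zero_iff κ p _).mp (hco f hf e)
    · rw [Ideal.span_singleton_le_iff_mem, RingHom.mem_ker, hev, aeval_C]
      simp
  · left
    subst h0
    have : CharZero κ := CharP.charP_to_charZero κ
    rw [eq_bot_iff]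
    intro f hf
    rw [Ideal.mem_bot]
    ext e
    rw [coeff_zero]
    exact Int.cast_eq_zero.mp (hco f hf e)

lemma eq_of_le_span {m ℓ : ℕ} (hℓ : ℓ.Prime) (p : Ideal (MvPolynomial (Fin m) ℤ))
    (hp : p.IsPrime) (h0 : p ≠ ⊥) (hle : p ≤ Ideal.span {C (ℓ : ℤ)}) :
    p = Ideal.span {C (ℓ : ℤ)} := by
  by_cases hC : (C (ℓ : ℤ) : MvPolynomial (Fin m) ℤ) ∈ p
  · exact le_antisymm hle ((Ideal.span_singleton_le_iff_mem _).mpr hC)
  exfalso
  have claim : ∀ k : ℕ, ∀ f ∈ p, ∃ g ∈ p, f = C ((ℓ : ℤ) ^ k) * g := by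
    intro k
    induction k with
    | zero => intro f hf; exact ⟨f, hf, by simp⟩
    | succ k ih =>
      intro f hf
      obtain ⟨g, hg, rfl⟩ := ih f hf
      obtain ⟨g', rfl⟩ := Ideal.mem_span_singleton.mp (hle hg)
      refine ⟨g', (hp.mem_or_mem hg).resolve_left hC, ?_⟩
      rw [pow_succ, C_mul, mul_assoc]
  obtain ⟨f, hf, hf0⟩ := Submodule.exists_mem_ne_zero_of_ne_bot h0
  obtain ⟨e, he⟩ := MvPolynomial.ne_zero_iff.mp hf0
  set c := coeff e f with hc
  obtain ⟨g, _, hg⟩ := claim c.natAbs f hf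
  have h1 : c = (ℓ : ℤ) ^ c.natAbs * coeff e g := by
    have := congrArg (coeff e) hg
    rw [coeff_C_mul] at this
    exact this
  have h2 : (ℓ ^ c.natAbs) ∣ c.natAbs := by
    have h3 : ((ℓ ^ c.natAbs : ℕ) : ℤ) ∣ c := ⟨coeff e g, by push_cast; exact h1⟩
    exact Int.natCast_dvd.mp h3
  have h4 := Nat.le_of_dvd (Int.natAbs_pos.mpr he) h2
  have h5 : c.natAbs < ℓ ^ c.natAbs := Nat.lt_pow_self hℓ.one_lt
  omega

/-- **Rings of small transcendence degree control hypersurfaces in `A^m`.** -/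
theorem hyp_of_D {P : (ℕ → ℤ) → Prop} (hP : Cls P) {m : ℕ}
    (hD : ∀ (A : Type) [CommRing A] [Algebra.FiniteType ℤ A],
      (∀ (p : Ideal A) [p.IsPrime],
        Algebra.trdeg (⊥ : Subfield p.ResidueField) p.ResidueField < m) →
      P (cI (⊥ : Ideal A))) : Hyp P m := by
  have hR := fg_poly (Fin m)
  have key : ∀ I : Ideal (MvPolynomial (Fin m) ℤ), P (cI I) := by
    refine noe hP fun p hp ih => ?_
    by_cases h0 : p = ⊥
    · subst h0
      refine hP.congr (hP.pow m) fun n hn => ?_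
      have h1 := cI_poly (∅ : Set (MvPolynomial (Fin m) ℤ)) n
      rw [Ideal.span_empty] at h1
      rw [h1]
      have h2 : Nat.card {x : Fin m → FF n // ∀ f ∈ (∅ : Set (MvPolynomial (Fin m) ℤ)),
          aeval x f = 0} = n ^ m := by
        rw [Nat.card_congr (Equiv.subtypeUnivEquiv fun x => by simp), Nat.card_fun, card_FF hn]
        simp
      rw [h2]; push_cast; rfl
    by_cases h1 : ∃ ℓ : ℕ, ℓ.Prime ∧ p = Ideal.span {C (ℓ : ℤ)}
    · obtain ⟨ℓ, hℓ, rfl⟩ := h1
      refine hP.congr (hP.pow_mul (hP.char ℓ hℓ) m) fun n hn => ?_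
      rw [cI_poly]
      unfold chr
      by_cases hd : ℓ ∣ n
      · have h2 : Nat.card {x : Fin m → FF n // ∀ f ∈ ({C (ℓ : ℤ)} :
            Set (MvPolynomial (Fin m) ℤ)), aeval x f = 0} = n ^ m := by
          have h3 : ∀ x : Fin m → FF n, ∀ f ∈ ({C (ℓ : ℤ)} : Set (MvPolynomial (Fin m) ℤ)),
              aeval x f = 0 := by
            intro x f hf
            rw [Set.mem_singleton_iff.mp hf, aeval_C]
            simpa using (natCast_eq_zero_iff hℓ hn).mpr hd
          rw [Nat.card_congr (Equiv.subtypeUnivEquiv h3), Nat.card_fun, card_FF hn]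
          simp
        rw [h2, if_pos hd]; push_cast; ring
      · have h2 : IsEmpty {x : Fin m → FF n // ∀ f ∈ ({C (ℓ : ℤ)} :
            Set (MvPolynomial (Fin m) ℤ)), aeval x f = 0} := by
          refine ⟨fun x => hd ?_⟩
          have := x.2 _ rfl
          rw [aeval_C] at this
          exact (natCast_eq_zero_iff hℓ hn).mp (by simpa using this)
        rw [Nat.card_of_isEmpty, if_neg hd]; simp
    have hfg : @Algebra.FiniteType ℤ (MvPolynomial (Fin m) ℤ ⧸ p) _ _
        (Ring.toIntAlgebra (MvPolynomial (Fin m) ℤ ⧸ p)) := by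
      have h : ∀ i j : Algebra ℤ (MvPolynomial (Fin m) ℤ ⧸ p), @Algebra.FiniteType ℤ _ _ _ i →
          @Algebra.FiniteType ℤ _ _ _ j := by
        intro i j hi
        rw [Subsingleton.elim j i]
        exact hi
      exact h _ _ (Algebra.FiniteType.of_surjective (Ideal.Quotient.mkₐ ℤ p)
        (Ideal.Quotient.mkₐ_surjective ℤ p))
    refine hP.congr (hD (MvPolynomial (Fin m) ℤ ⧸ p) fun q hq => ?_) fun n _ => cI_quot p n
    by_contra hlt
    rw [not_lt] at hlt
    let θ : MvPolynomial (Fin m) ℤ →+* q.ResidueField :=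
      (algebraMap (MvPolynomial (Fin m) ℤ ⧸ p) q.ResidueField).comp (Ideal.Quotient.mk p)
    have hpθ : p ≤ RingHom.ker θ := by
      intro f hf
      show algebraMap (MvPolynomial (Fin m) ℤ ⧸ p) q.ResidueField (Ideal.Quotient.mk p f) = 0
      rw [Ideal.Quotient.eq_zero_iff_mem.mpr hf, map_zero]
    have hθ : ∀ x : q.ResidueField, ∃ a b, θ b ≠ 0 ∧ x * θ b = θ a := by
      intro x
      obtain ⟨a, b, hb, hx⟩ := exists_frac q x
      obtain ⟨a, rfl⟩ := Ideal.Quotient.mk_surjective a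
      obtain ⟨b, rfl⟩ := Ideal.Quotient.mk_surjective b
      exact ⟨a, b, hb, hx⟩
    rcases ker_of_trdeg θ hθ hlt with h2 | ⟨ℓ, hℓ, h2⟩
    · exact h0 (le_bot_iff.mp (h2 ▸ hpθ))
    · exact h1 ⟨ℓ, hℓ, eq_of_le_span hℓ p hp h0 (h2 ▸ hpθ)⟩
  intro f
  refine hP.congr (key (Ideal.span {f})) fun n _ => ?_
  rw [cI_poly]
  congr 1
  exact Nat.card_congr (Equiv.subtypeEquivRight fun x => by simp)

end Pool.Agent.Helper81.HI
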