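import Pool.Agent.Helper81.HI.Bir

/-!
# Generators of finitely generated fields
-/

set_option autoImplicit false

namespace Pool.Agent.Helper81.HI

lemma perfect_bot (K : Type) [Field K] : PerfectField (⊥ : Subfield K) := by
  obtain ⟨p, hp⟩ := CharP.exists K
  rcases CharP.char_is_prime_or_zero K p with h | h
  · have : Fact p.Prime := ⟨h⟩
    have : Finite (⊥ : Subfield K) := @Finite.of_fintype _ (Subfield.fintypeBot K p)
    infer_instance
  · subst h
    have : CharZero K := CharP.charP_to_charZero K
    have : CharZero (⊥ : Subfield K) :=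
      (⊥ : Subfield K).subtype.charZero
    infer_instance

/-- enumerating a small nonempty finite set -/
lemma exists_enum {α : Type} (T : Finset α) (hT : T.Nonempty) {m : ℕ} (h : T.card ≤ m) :
    ∃ z : Fin m → α, Set.range z = T := by
  classical
  obtain ⟨t₀, h₀⟩ := hT
  have : Nonempty T := ⟨⟨t₀, h₀⟩⟩
  obtain ⟨e⟩ : Nonempty (T ↪ Fin m) :=
    Function.Embedding.nonempty_of_card_le (by simpa using h)
  have hs : Function.Surjective (Function.invFun e) := Function.invFun_surjective e.injective
  refine ⟨fun i => (Function.invFun e i : T), ?_⟩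
  ext x
  constructor
  · rintro ⟨i, rfl⟩
    exact (Function.invFun e i).2
  · intro hx
    obtain ⟨i, hi⟩ := hs ⟨x, hx⟩
    exact ⟨i, by simp only [hi]⟩

/-- A finitely generated field of transcendence degree `< m` over its prime field is generated by
`m` elements. -/
theorem exists_generators {K : Type} [Field K] [Algebra.EssFiniteType (⊥ : Subfield K) K] {m : ℕ}
    (h : Algebra.trdeg (⊥ : Subfield K) K < m) :
    ∃ z : Fin m → K, Subfield.closure (Set.range z) = ⊤ := by
  classical
  have hp := perfect_bot K
  obtain ⟨s, hs, hsep⟩ :=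
    exists_isTranscendenceBasis_and_isSeparable_of_perfectField (⊥ : Subfield K) K
  have hcard : s.card < m := by
    rw [← hs.cardinalMk_eq_trdeg] at h
    simpa using h
  have hess : Algebra.EssFiniteType (IntermediateField.adjoin (⊥ : Subfield K) (s : Set K)) K :=
    Algebra.EssFiniteType.of_comp (⊥ : Subfield K) _ K
  have hfin : FiniteDimensional (IntermediateField.adjoin (⊥ : Subfield K) (s : Set K)) K := by
    obtain ⟨t, ht⟩ := IntermediateField.fg_top
      (IntermediateField.adjoin (⊥ : Subfield K) (s : Set K)) K
    have h1 := IntermediateField.finiteDimensional_adjoin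
      (K := (IntermediateField.adjoin (⊥ : Subfield K) (s : Set K))) (S := (t : Set K))
      (fun x _ => Algebra.IsSeparable.isIntegral _ x)
    rw [ht] at h1
    exact Module.Finite.equiv (IntermediateField.topEquiv
      (F := (IntermediateField.adjoin (⊥ : Subfield K) (s : Set K))) (E := K)).toLinearEquiv
  obtain ⟨θ, hθ⟩ := Field.exists_primitive_element
    (IntermediateField.adjoin (⊥ : Subfield K) (s : Set K)) K
  obtain ⟨z, hz⟩ := exists_enum (insert θ s) (Finset.insert_nonempty θ s)
    ((Finset.card_insert_le θ s).trans hcard)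
  refine ⟨z, ?_⟩
  rw [hz]
  set L : Subfield K := Subfield.closure ((insert θ s : Finset K) : Set K) with hL
  have hθL : θ ∈ L := Subfield.subset_closure (by simp)
  have hsL : (s : Set K) ⊆ L := fun x hx => Subfield.subset_closure (by simp [Finset.mem_coe.mp hx])
  have h1 : ∀ x ∈ IntermediateField.adjoin (⊥ : Subfield K) (s : Set K), x ∈ L := by
    intro x hx
    have h2 : x ∈ (IntermediateField.adjoin (⊥ : Subfield K) (s : Set K)).toSubfield := hx
    rw [IntermediateField.adjoin_toSubfield] at h2
    refine (Subfield.closure_le.mpr ?_) h2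
    rw [Set.union_subset_iff]
    refine ⟨?_, hsL⟩
    rintro _ ⟨y, rfl⟩
    exact (bot_le : (⊥ : Subfield K) ≤ L) y.2
  rw [eq_top_iff]
  intro x _
  have h3 : x ∈ (IntermediateField.adjoin
      (IntermediateField.adjoin (⊥ : Subfield K) (s : Set K)) {θ}).toSubfield := by
    rw [hθ]; trivial
  rw [IntermediateField.adjoin_toSubfield] at h3
  refine (Subfield.closure_le.mpr ?_) h3
  rw [Set.union_subset_iff]
  constructor
  · rintro _ ⟨y, rfl⟩
    exact h1 _ y.2
  · simpa using hθL

end Pool.Agent.Helper81.HI
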