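import Pool.Agent.Helper81.HI.Cls

/-!
# Counting zeros of trilinear forms in three ways
-/

set_option autoImplicit false

open Finset
open Pool.Agent.Helper29.Zeta

namespace Pool.Agent.Helper81.HI

/-- fibering over the first factor -/
lemma card_fib {α β : Type} [Fintype α] [Finite β] (R : α → β → Prop) :
    Nat.card {p : α × β // R p.1 p.2} = ∑ a, Nat.card {b // R a b} := by
  rw [← Nat.card_sigma]
  exact Nat.card_congr
    { toFun := fun p => ⟨p.1.1, p.1.2, p.2⟩
      invFun := fun s => ⟨(s.1, s.2.1), s.2.2⟩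
      left_inv := fun p => rfl
      right_inv := fun s => rfl }

lemma card_lin {k : Type} [Field k] [Fintype k] {I : Type} [Fintype I] (L : I → k) :
    (Nat.card k : ℤ) * Nat.card {z : I → k // ∑ i, L i * z i = 0} =
      (Nat.card k : ℤ) ^ (Fintype.card I) *
        (((Nat.card k : ℤ) - 1) * Nat.card {_u : Unit // ∀ i, L i = 0} + 1) := by
  classical
  have h := card_linear (k := k) L
  have h1 : (∑ z : I → k, if ∑ κ, L κ * z κ = 0 then (1 : ℝ) else 0) =
      (Nat.card {z : I → k // ∑ i, L i * z i = 0} : ℝ) := by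
    rw [Nat.card_eq_fintype_card, Fintype.card_subtype, Finset.card_filter]
    push_cast
    rfl
  rw [h1] at h
  have h2 : (Nat.card {_u : Unit // ∀ i, L i = 0}) = if ∀ i, L i = 0 then 1 else 0 := by
    rw [Nat.card_eq_fintype_card, Fintype.card_subtype, Finset.card_filter]
    simp
  rw [h2]
  rw [Nat.card_eq_fintype_card (α := k)]
  split_ifs at h ⊢ with h3
  · have : (Fintype.card k : ℝ) * Nat.card {z : I → k // ∑ i, L i * z i = 0} =
        (Fintype.card k : ℝ) ^ (Fintype.card I) * Fintype.card k := h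
    have h4 : Fintype.card k * Nat.card {z : I → k // ∑ i, L i * z i = 0} =
        (Fintype.card k) ^ (Fintype.card I) * Fintype.card k := by exact_mod_cast this
    have h5 := congrArg (fun n : ℕ => (n : ℤ)) h4
    push_cast at h5 ⊢
    rw [h5]; ring
  · have : (Fintype.card k : ℝ) * Nat.card {z : I → k // ∑ i, L i * z i = 0} =
        (Fintype.card k : ℝ) ^ (Fintype.card I) * 1 := h
    have h4 : Fintype.card k * Nat.card {z : I → k // ∑ i, L i * z i = 0} =
        (Fintype.card k) ^ (Fintype.card I) * 1 := by exact_mod_cast this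
    have h5 := congrArg (fun n : ℕ => (n : ℤ)) h4
    push_cast at h5 ⊢
    rw [h5]; ring

lemma card_form {k : Type} [Field k] [Fintype k] {α I : Type} [Finite α] [Fintype I]
    (L : α → I → k) :
    (Nat.card k : ℤ) * Nat.card {p : α × (I → k) // ∑ i, L p.1 i * p.2 i = 0} =
      (Nat.card k : ℤ) ^ (Fintype.card I) *
        (((Nat.card k : ℤ) - 1) * Nat.card {a // ∀ i, L a i = 0} + Nat.card α) := by
  have : Fintype α := Fintype.ofFinite α
  rw [card_fib (fun (a : α) (z : I → k) => ∑ i, L a i * z i = 0)]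
  have h1 : Nat.card {a // ∀ i, L a i = 0} =
      ∑ a, Nat.card {_u : Unit // ∀ i, L a i = 0} := by
    rw [← card_fib (fun (a : α) (_ : Unit) => ∀ i, L a i = 0)]
    exact Nat.card_congr
      { toFun := fun a => ⟨(a.1, ()), a.2⟩
        invFun := fun p => ⟨p.1.1, p.2⟩
        left_inv := fun a => rfl
        right_inv := fun p => rfl }
  have h2 : (Nat.card α : ℤ) = ∑ _a : α, (1 : ℤ) := by simp
  rw [h1, h2]
  push_cast
  rw [Finset.mul_sum, Finset.sum_congr rfl fun a _ => card_lin (L a), ← Finset.mul_sum,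
    Finset.sum_add_distrib, ← Finset.mul_sum]

section

variable {m : ℕ} {I J : Type} [Fintype I] [Fintype J]

/-- the solutions `(x, y)` of `∑ x_l M_l y = 0` -/
noncomputable def Kc (k : Type) [Field k] (M : Fin m → I → J → ℤ) : ℕ :=
  Nat.card {p : (Fin m → k) × (J → k) // ∀ i, ∑ l, ∑ j, (M l i j : k) * (p.1 l * p.2 j) = 0}

/-- the zeros of the trilinear form `∑ x_l M_l(z, y)` -/
noncomputable def Tc (k : Type) [Field k] (M : Fin m → I → J → ℤ) : ℕ :=
  Nat.card {p : (Fin m → k) × (I → k) × (J → k) //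
    ∑ l, ∑ i, ∑ j, (M l i j : k) * (p.1 l * p.2.1 i * p.2.2 j) = 0}

/-- the solutions of the bilinear equations `M_l(z, y) = 0` -/
noncomputable def Bc (k : Type) [Field k] (M : Fin m → I → J → ℤ) : ℕ :=
  Nat.card {p : (I → k) × (J → k) // ∀ l, ∑ i, ∑ j, (M l i j : k) * (p.1 i * p.2 j) = 0}

variable (k : Type) [Field k] [Fintype k]

lemma Tc_eq_K (M : Fin m → I → J → ℤ) :
    (Nat.card k : ℤ) * Tc k M = (Nat.card k : ℤ) ^ (Fintype.card I) *
      (((Nat.card k : ℤ) - 1) * Kc k M + (Nat.card k : ℤ) ^ (m + Fintype.card J)) := by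
  have h := card_form (k := k) (α := (Fin m → k) × (J → k)) (I := I)
    (fun p i => ∑ l, ∑ j, (M l i j : k) * (p.1 l * p.2 j))
  have h1 : Nat.card {p : ((Fin m → k) × (J → k)) × (I → k) //
      ∑ i, (∑ l, ∑ j, (M l i j : k) * (p.1.1 l * p.1.2 j)) * p.2 i = 0} = Tc k M := by
    unfold Tc
    let e : ((Fin m → k) × (J → k)) × (I → k) ≃ (Fin m → k) × (I → k) × (J → k) :=
      { toFun := fun p => (p.1.1, p.2, p.1.2)
        invFun := fun p => ((p.1, p.2.2), p.2.1)
        left_inv := fun p => rfl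
        right_inv := fun p => rfl }
    refine Nat.card_congr (Equiv.subtypeEquiv e fun p => Eq.congr_left ?_)
    show _ = ∑ l, ∑ i, ∑ j, (M l i j : k) * (p.1.1 l * p.2 i * p.1.2 j)
    rw [Finset.sum_comm (s := (univ : Finset (Fin m)))]
    refine Finset.sum_congr rfl fun i _ => ?_
    rw [Finset.sum_mul]
    refine Finset.sum_congr rfl fun l _ => ?_
    rw [Finset.sum_mul]
    exact Finset.sum_congr rfl fun j _ => by ring
  rw [h1] at h
  rw [h]
  congr 2
  rw [Nat.card_prod, Nat.card_fun, Nat.card_fun, Nat.card_eq_fintype_card (α := Fin m),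
    Fintype.card_fin, Nat.card_eq_fintype_card (α := J), pow_add]
  push_cast
  rfl

lemma Tc_eq_B (M : Fin m → I → J → ℤ) :
    (Nat.card k : ℤ) * Tc k M = (Nat.card k : ℤ) ^ m *
      (((Nat.card k : ℤ) - 1) * Bc k M +
        (Nat.card k : ℤ) ^ (Fintype.card I + Fintype.card J)) := by
  have h := card_form (k := k) (α := (I → k) × (J → k)) (I := Fin m)
    (fun p l => ∑ i, ∑ j, (M l i j : k) * (p.1 i * p.2 j))
  have h1 : Nat.card {p : ((I → k) × (J → k)) × (Fin m → k) //
      ∑ l, (∑ i, ∑ j, (M l i j : k) * (p.1.1 i * p.1.2 j)) * p.2 l = 0} = Tc k M := by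
    unfold Tc
    let e : ((I → k) × (J → k)) × (Fin m → k) ≃ (Fin m → k) × (I → k) × (J → k) :=
      { toFun := fun p => (p.2, p.1.1, p.1.2)
        invFun := fun p => ((p.2.1, p.2.2), p.1)
        left_inv := fun p => rfl
        right_inv := fun p => rfl }
    refine Nat.card_congr (Equiv.subtypeEquiv e fun p => Eq.congr_left ?_)
    show _ = ∑ l, ∑ i, ∑ j, (M l i j : k) * (p.2 l * p.1.1 i * p.1.2 j)
    refine Finset.sum_congr rfl fun l _ => ?_
    rw [Finset.sum_mul]
    refine Finset.sum_congr rfl fun i _ => ?_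
    rw [Finset.sum_mul]
    exact Finset.sum_congr rfl fun j _ => by ring
  rw [h1, Fintype.card_fin] at h
  rw [h]
  congr 2
  simp only [Nat.card_prod, Nat.card_fun, Nat.card_eq_fintype_card]
  push_cast
  ring

end

end Pool.Agent.Helper81.HI
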