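import Pool.Agent.Helper81.HI.Lev
import Pool.Agent.Helper14.HQ.Quad

/-!
# The classes of level `n + 1/2`
-/

set_option autoImplicit false

open AlgebraicGeometry CategoryTheory TopologicalSpace MvPolynomial
open Pool.Agent.Helper29.Zeta Pool.Agent.Helper50.KR Pool.Agent.Helper14.HQ

namespace Pool.Agent.Helper81.HI

/-! ### Homogenising quadratic polynomials -/

lemma exists_pair {a : ℕ} (s : Multiset (Fin a)) (hs : Multiset.card s ≤ 2) :
    ∃ i j : Fin (a + 1), ∀ (k : Type) [Field k] (y : Fin a → k),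
      (s.map y).prod = (Fin.cons 1 y : Fin (a + 1) → k) i * (Fin.cons 1 y : Fin (a + 1) → k) j := by
  have h : Multiset.card s = 0 ∨ Multiset.card s = 1 ∨ Multiset.card s = 2 := by omega
  rcases h with h | h | h
  · rw [Multiset.card_eq_zero] at h
    subst h
    exact ⟨0, 0, fun k _ y => by simp⟩
  · obtain ⟨i, rfl⟩ := Multiset.card_eq_one.mp h
    exact ⟨0, i.succ, fun k _ y => by simp⟩
  · obtain ⟨i, j, rfl⟩ := Multiset.card_eq_two.mp h
    exact ⟨i.succ, j.succ, fun k _ y => by simp⟩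

lemma prod_eq_map {a : ℕ} (e : Fin a →₀ ℕ) {k : Type} [Field k] (y : Fin a → k) :
    e.prod (fun i n => y i ^ n) = ((Finsupp.toMultiset e).map y).prod := by
  rw [Finsupp.toMultiset_map, Finsupp.prod_toMultiset, Finsupp.prod_mapDomain_index]
  · intro b; simp
  · intro b m n; exact pow_add b m n

lemma exists_quad {a : ℕ} (f : MvPolynomial (Fin a) ℤ) (hf : f.totalDegree ≤ 2) :
    ∃ Q : Fin (a + 1) → Fin (a + 1) → ℤ, ∀ (k : Type) [Field k] (y : Fin a → k),
      aeval y f = ∑ i, ∑ j, (Q i j : k) * ((Fin.cons 1 y : Fin (a + 1) → k) i *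
        (Fin.cons 1 y : Fin (a + 1) → k) j) := by
  classical
  have h1 : ∀ e : f.support, ∃ i j : Fin (a + 1), ∀ (k : Type) [Field k] (y : Fin a → k),
      e.1.prod (fun i n => y i ^ n) =
        (Fin.cons 1 y : Fin (a + 1) → k) i * (Fin.cons 1 y : Fin (a + 1) → k) j := by
    intro e
    have h2 : Multiset.card (Finsupp.toMultiset e.1) ≤ 2 := by
      rw [Finsupp.card_toMultiset]
      exact (le_totalDegree e.2).trans hf
    obtain ⟨i, j, h⟩ := exists_pair _ h2
    exact ⟨i, j, fun k _ y => by rw [prod_eq_map]; exact h k y⟩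
  choose I J hIJ using h1
  obtain ⟨Q, hQ⟩ := IsQuad.sum (J := Fin (a + 1)) (Finset.univ : Finset f.support)
    (φ := fun e k _ w => ((coeff e.1 f : ℤ) : k) * (w (I e) * w (J e)))
    (fun e => (isQuad_mul (I e) (J e)).smul (coeff e.1 f))
  refine ⟨Q, fun k _ y => ?_⟩
  rw [← hQ k (Fin.cons 1 y)]
  rw [aeval_def, eval₂_eq', ← Finset.sum_coe_sort]
  refine Finset.sum_congr rfl fun e _ => ?_
  rw [← hIJ e k y, Finsupp.prod_fintype _ _ (fun i => pow_zero _)]
  rfl

/-- common zeros of quadratic forms -/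
noncomputable def Fq (k : Type) [Field k] {m a : ℕ} (Q : Fin m → Fin a → Fin a → ℤ) : ℕ :=
  Nat.card {y : Fin a → k // ∀ l, ∑ i, ∑ j, (Q l i j : k) * (y i * y j) = 0}

lemma Fq_split (k : Type) [Field k] [Finite k] {m a : ℕ}
    (Q : Fin m → Fin (a + 1) → Fin (a + 1) → ℤ) :
    (Fq k Q : ℤ) = Fq k (fun l (i j : Fin a) => Q l i.succ j.succ) + ((Nat.card k : ℤ) - 1) *
      Nat.card {y : Fin a → k // ∀ l, ∑ i, ∑ j, (Q l i j : k) *
        ((Fin.cons 1 y : Fin (a + 1) → k) i * (Fin.cons 1 y : Fin (a + 1) → k) j) = 0} := by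
  unfold Fq
  rw [card_split _ (fun w : Fin (a + 1) → k => w 0 = 0)]
  push_cast
  congr 1
  · congr 1
    have key : ∀ (w : Fin (a + 1) → k), w 0 = 0 → ∀ l,
        ∑ i, ∑ j, (Q l i j : k) * (w i * w j) =
        ∑ i : Fin a, ∑ j : Fin a, (Q l i.succ j.succ : k) * (w i.succ * w j.succ) := by
      intro w h0 l
      rw [Fin.sum_univ_succ, Finset.sum_eq_zero (fun j _ => by rw [h0]; ring), zero_add]
      refine Finset.sum_congr rfl fun i _ => ?_
      rw [Fin.sum_univ_succ, h0, mul_zero, mul_zero, zero_add]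
    refine Nat.card_congr
      { toFun := fun w => ⟨Fin.tail w.1, fun l => ?_⟩
        invFun := fun y => ⟨Fin.cons 0 y.1, fun l => ?_, rfl⟩
        left_inv := fun w => ?_
        right_inv := fun y => ?_ }
    · have h1 := w.2.1 l
      rw [key w.1 w.2.2] at h1
      exact h1
    · rw [key _ rfl]
      exact y.2 l
    · apply Subtype.ext
      show (Fin.cons 0 (Fin.tail w.1) : Fin (a + 1) → k) = w.1
      conv_rhs => rw [← Fin.cons_self_tail w.1]
      rw [w.2.2]
    · apply Subtype.ext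
      funext i; rfl
  · have hcard : ((Nat.card k : ℤ) - 1) = (Nat.card kˣ : ℤ) := by
      have := Nat.card_units k
      have h1 : 0 < Nat.card k := Nat.card_pos
      rw [this]
      omega
    rw [hcard, ← Nat.cast_mul, ← Nat.card_prod]
    congr 1
    have hs : ∀ (t : k) (w w' : Fin (a + 1) → k), (∀ i, w i = t * w' i) → ∀ l,
        ∑ i, ∑ j, (Q l i j : k) * (w i * w j) =
          t ^ 2 * ∑ i, ∑ j, (Q l i j : k) * (w' i * w' j) := by
      intro t w w' h l
      rw [Finset.mul_sum]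
      refine Finset.sum_congr rfl fun i _ => ?_
      rw [Finset.mul_sum]
      refine Finset.sum_congr rfl fun j _ => ?_
      rw [h i, h j]; ring
    have hw : ∀ (t : k) (y : Fin a → k) (i : Fin (a + 1)),
        (Fin.cons t (fun i => t * y i) : Fin (a + 1) → k) i =
          t * (Fin.cons 1 y : Fin (a + 1) → k) i := by
      intro t y i
      refine Fin.cases ?_ (fun i => ?_) i
      · simp
      · simp
    have hw' : ∀ (w : Fin (a + 1) → k), w 0 ≠ 0 → ∀ i,
        w i = w 0 * (Fin.cons 1 (fun i : Fin a => (w 0)⁻¹ * w i.succ) : Fin (a + 1) → k) i := by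
      intro w h0 i
      refine Fin.cases ?_ (fun i => ?_) i
      · simp
      · simp only [Fin.cons_succ]
        rw [← mul_assoc, mul_inv_cancel₀ h0, one_mul]
    refine Nat.card_congr
      { toFun := fun w => (Units.mk0 (w.1 0) w.2.2, ⟨fun i => (w.1 0)⁻¹ * w.1 i.succ, fun l => ?_⟩)
        invFun := fun q => ⟨Fin.cons (q.1 : k) (fun i => (q.1 : k) * q.2.1 i),
          fun l => ?_, q.1.ne_zero⟩
        left_inv := fun w => ?_
        right_inv := fun q => ?_ }
    · have h0 : w.1 0 ≠ 0 := w.2.2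
      have h1 := w.2.1 l
      rw [hs (w.1 0) w.1 _ (hw' w.1 h0) l] at h1
      exact (mul_eq_zero.mp h1).resolve_left (pow_ne_zero 2 h0)
    · rw [hs (q.1 : k) _ _ (hw q.1 q.2.1) l, q.2.2 l, mul_zero]
    · have h0 : w.1 0 ≠ 0 := w.2.2
      apply Subtype.ext
      show (Fin.cons (w.1 0) (fun i => w.1 0 * ((w.1 0)⁻¹ * w.1 i.succ)) : Fin (a + 1) → k) = w.1
      funext i
      rw [hw, ← hw' w.1 h0]
    · apply Prod.ext
      · apply Units.ext; rfl
      · apply Subtype.ext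
        funext i
        show (q.1 : k)⁻¹ * ((q.1 : k) * q.2.1 i) = q.2.1 i
        rw [← mul_assoc, inv_mul_cancel₀ q.1.ne_zero, one_mul]

variable {P : (ℕ → ℤ) → Prop} (hP : Cls P)

include hP

lemma dbl_of_double {n : ℕ} (h : CC P (DoubleCover n)) : Dbl P n := by
  intro b c
  have h1 := (cp_zeros hP _).mp (h _ ⟨b, c, rfl⟩)
  refine hP.congr h1 fun q _ => ?_
  rw [zn_double]
  rfl

lemma dbl_of_forms {n : ℕ} (h : CC P (QuadraticForms n)) : Dbl P n := by
  intro b c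
  refine dc_of_quad hP (fun a Q => ?_) b c
  have h1 := (cp_zeros hP _).mp (h _ ⟨a, Q, rfl⟩)
  exact hP.congr h1 fun q _ => zn_forms Q q

omit hP in
lemma forms_subset (n : ℕ) : QuadraticForms n ⊆ Quadratic n := by
  rintro X ⟨a, Q, rfl⟩
  refine ⟨a, _, fun l => ?_, rfl⟩
  refine (totalDegree_finsetSum _ _).trans (Finset.sup_le fun i _ => ?_)
  refine (totalDegree_finsetSum _ _).trans (Finset.sup_le fun j _ => ?_)
  refine (totalDegree_mul _ _).trans ?_
  rw [totalDegree_C, zero_add]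
  refine (totalDegree_mul _ _).trans ?_
  rw [totalDegree_X, totalDegree_X]

lemma dbl_of_quadratic {n : ℕ} (h : CC P (Quadratic n)) : Dbl P n :=
  dbl_of_forms hP fun X hX => h X (forms_subset n hX)

lemma cc_double {n : ℕ} (hD : Dbl P n) : CC P (DoubleCover n) := by
  rintro X ⟨b, c, rfl⟩
  rw [cp_zeros hP]
  refine hP.congr (hD b c) fun q _ => ?_
  rw [zn_double]
  rfl

lemma cc_quadratic {n : ℕ} (hD : Dbl P n) : CC P (Quadratic n) := by
  rintro X ⟨a, f, hf, rfl⟩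
  rw [cp_zeros hP]
  choose Q hQ using fun l => exists_quad (f l) (hf l)
  have h1 : P (fun q => (Fq (FF q) Q : ℤ)) := quad_of_dbl hP hD (a + 1) Q
  have h2 : P (fun q => (Fq (FF q) (fun l (i j : Fin a) => Q l i.succ j.succ) : ℤ)) :=
    quad_of_dbl hP hD a _
  refine hP.of_pred_mul (growth_zn _) (hP.congr (hP.sub h1 h2) fun q hq => ?_)
  rw [Fq_split, card_FF hq]
  have h3 : zn (Set.range f) q = Nat.card {y : Fin a → FF q // ∀ l, ∑ i, ∑ j, (Q l i j : FF q) *
        ((Fin.cons 1 y : Fin (a + 1) → FF q) i * (Fin.cons 1 y : Fin (a + 1) → FF q) j) = 0} := by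
    unfold zn
    congr 1
    refine Nat.card_congr (Equiv.subtypeEquivRight fun y => ?_)
    rw [Set.forall_mem_range]
    exact forall_congr' fun l => by rw [hQ l (FF q) y]
  rw [h3]
  ring

lemma cc_forms {n : ℕ} (hD : Dbl P n) : CC P (QuadraticForms n) := fun X hX =>
  cc_quadratic hP hD X (forms_subset n hX)

theorem dbl_of_half {n : ℕ} {𝒞 : Set Scheme.{0}} (h𝒞 : 𝒞 ∈ HalfLevel n) (h : CC P 𝒞) :
    Dbl P n := by
  simp only [HalfLevel, Set.mem_insert_iff, Set.mem_singleton_iff] at h𝒞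
  rcases h𝒞 with rfl | rfl | rfl
  · exact dbl_of_double hP h
  · exact dbl_of_forms hP h
  · exact dbl_of_quadratic hP h

theorem cc_half {n : ℕ} (hD : Dbl P n) {𝒞 : Set Scheme.{0}} (h𝒞 : 𝒞 ∈ HalfLevel n) : CC P 𝒞 := by
  simp only [HalfLevel, Set.mem_insert_iff, Set.mem_singleton_iff] at h𝒞
  rcases h𝒞 with rfl | rfl | rfl
  · exact cc_double hP hD
  · exact cc_forms hP hD
  · exact cc_quadratic hP hD

omit hP

lemma count_half {n : ℕ} {𝒞 : Set Scheme.{0}} (h𝒞 : 𝒞 ∈ HalfLevel n) :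
    ∀ X ∈ 𝒞, IsFT X ∧ CP (fun c => Growth (fun n => (c n : ℂ))) X := by
  intro X hX
  refine ⟨?_, cc_half cls_growth (dbl_of_hyp cls_growth (hyp_growth (n + 1))) h𝒞 X hX⟩
  simp only [HalfLevel, Set.mem_insert_iff, Set.mem_singleton_iff] at h𝒞
  rcases h𝒞 with rfl | rfl | rfl
  · obtain ⟨b, c, rfl⟩ := hX
    exact isFT_zeros _
  · obtain ⟨a, Q, rfl⟩ := hX
    exact isFT_zeros _
  · obtain ⟨a, f, _, rfl⟩ := hX
    exact isFT_zeros _

theorem half_controls (n : ℕ) {𝒞 𝒞' : Set Scheme.{0}} (h : 𝒞 ∈ HalfLevel n)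
    (h' : 𝒞' ∈ HalfLevel n) : Controls 𝒞' 𝒞 :=
  controls_of_cc (fun X hX => (count_half h X hX).1)
    (cc_half (cls_need 𝒞') (dbl_of_half (cls_need 𝒞') h' (cc_need 𝒞' (count_half h'))) h)

theorem half_controls_level (n : ℕ) {𝒞 𝒞' : Set Scheme.{0}} (h : 𝒞 ∈ Level n)
    (h' : 𝒞' ∈ HalfLevel n) : Controls 𝒞' 𝒞 :=
  controls_of_cc (fun X hX => (count_level h X hX).1)
    (cc_level (cls_need 𝒞') (hyp_of_dbl (cls_need 𝒞')
      (dbl_of_half (cls_need 𝒞') h' (cc_need 𝒞' (count_half h')))) h)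

theorem level_controls_half (n : ℕ) {𝒞 𝒞' : Set Scheme.{0}} (h : 𝒞 ∈ HalfLevel n)
    (h' : 𝒞' ∈ Level (n + 1)) : Controls 𝒞' 𝒞 :=
  controls_of_cc (fun X hX => (count_half h X hX).1)
    (cc_half (cls_need 𝒞') (dbl_of_hyp (cls_need 𝒞')
      (hyp_of_level (cls_need 𝒞') h' (cc_need 𝒞' (count_level h')))) h)

/-- **The hierarchy.** -/
theorem hierarchy (n : ℕ) :
    (∀ 𝒞 ∈ Level n, ∀ 𝒞' ∈ Level n, Controls 𝒞' 𝒞) ∧
    (∀ 𝒞 ∈ Level n ∪ HalfLevel n, ∀ 𝒞' ∈ HalfLevel n, Controls 𝒞' 𝒞) ∧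
    (∀ 𝒞 ∈ HalfLevel n, ∀ 𝒞' ∈ Level (n + 1), Controls 𝒞' 𝒞) :=
  ⟨fun _ h _ h' => level_controls n h h',
    fun _ h _ h' => h.elim (fun h => half_controls_level n h h') (fun h => half_controls n h h'),
    fun _ h _ h' => level_controls_half n h h'⟩

end Pool.Agent.Helper81.HI
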