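import Pool.Agent.Helper81.HI.Cnt

/-!
# The classes of level `n`
-/

set_option autoImplicit false

open AlgebraicGeometry CategoryTheory TopologicalSpace MvPolynomial
open Pool.Agent.Helper29.Zeta Pool.Agent.Helper50.KR

namespace Pool.Agent.Helper81.HI

variable {P : (ℕ → ℤ) → Prop} (hP : Cls P)

include hP

lemma hyp_of_trilinear {n : ℕ} (h : CC P (Trilinear n 0)) : Hyp P n := by
  refine hyp_of_T hP fun a b T => ?_
  have h1 := (cp_zeros hP _).mp (h _ ⟨a, b, T, rfl⟩)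
  refine hP.congr h1 fun q _ => ?_
  rw [zn_trilinear, Int.cast_zero, Tv_zero]

lemma hyp_of_trilinear_one {n : ℕ} (h : CC P (Trilinear n 1)) : Hyp P n := by
  refine hyp_of_T hP fun a b T => ?_
  have h1 := (cp_zeros hP _).mp (h _ ⟨a, b, T, rfl⟩)
  refine hP.congr (hP.sub (hP.pow (n + 1 + (a + b))) (hP.pred_mul h1)) fun q hq => ?_
  rw [zn_trilinear, Int.cast_one]
  have h2 := Tv_one (FF q) (ofT T)
  rw [card_FF hq, Fintype.card_fin, Fintype.card_fin] at h2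
  rw [← h2]
  ring

lemma hyp_of_bilinear {n : ℕ} (h : CC P (Bilinear n)) : Hyp P n := by
  refine hyp_of_T hP fun a b T => Tc_of_Bc hP (ofT T) ?_
  have h1 := (cp_zeros hP _).mp (h _ ⟨a, b, ofT T, rfl⟩)
  refine hP.congr h1 fun q _ => ?_
  rw [zn_bilinear]

lemma hyp_of_commuting {n : ℕ} (h : CC P (Commuting n)) : Hyp P n := by
  refine hyp_of_alt hP fun a A hA => ?_
  have h1 := (cp_zeros hP _).mp (h _ ⟨a, A, hA, rfl⟩)
  refine hP.congr h1 fun q _ => ?_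
  rw [zn_bilinear]

lemma hyp_of_kernel {n : ℕ} (h : CC P (Kernel n)) : Hyp P n := by
  refine hyp_of_T hP fun a b T => Tc_of_Kc hP (ofT T) ?_
  have h1 := (cp_zeros hP _).mp (h _ ⟨a, b, ofT T, rfl⟩)
  refine hP.congr h1 fun q _ => ?_
  rw [zn_kernel]

lemma hyp_of_hypersurface {n : ℕ} (h : CC P (Hypersurface n)) : Hyp P n := by
  intro f
  have h1 := (cp_zeros hP _).mp (h _ ⟨f, rfl⟩)
  exact hP.congr h1 fun q _ => zn_single f q

lemma hyp_of_closed {n : ℕ} (h : CC P (Closed n)) : Hyp P n :=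
  hyp_of_hypersurface hP fun X ⟨f, hf⟩ => h X ⟨{f}, hf⟩

lemma hyp_of_fibreDim {n : ℕ} (h : CC P (FibreDimLT n)) : Hyp P n := by
  refine hyp_of_D hP fun A _ _ hA => ?_
  have hmem : Spec (CommRingCat.of A) ∈ FibreDimLT n :=
    ⟨isFT_spec A inferInstance, fun x => td_spec hA x⟩
  exact (h _ hmem).out hP (hasCount_spec A)

lemma cc_fibreDim {n : ℕ} (hH : Hyp P n) : CC P (FibreDimLT n) := by
  rintro X ⟨⟨f, hf, hq⟩, hX⟩
  exact geo hP hH X f hX

lemma cc_closed {n : ℕ} (hH : Hyp P n) : CC P (Closed n) := by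
  rintro X ⟨S, rfl⟩
  rw [cp_zeros hP]
  obtain ⟨S', hS'⟩ := (inferInstance : IsNoetherianRing (MvPolynomial (Fin n) ℤ)).noetherian
    (Ideal.span S)
  have hS'' : Ideal.span (S' : Set (MvPolynomial (Fin n) ℤ)) = Ideal.span S := hS'
  refine hP.congr (uc_mem hP hH S' 1) fun q _ => ?_
  have h1 := cI_poly S q
  have h2 := cI_poly (S' : Set (MvPolynomial (Fin n) ℤ)) q
  rw [hS'', h1] at h2
  unfold zn
  rw [h2]
  unfold uc
  congr 1
  exact Nat.card_congr (Equiv.subtypeEquivRight fun x => by simp)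

lemma cc_hypersurface {n : ℕ} (hH : Hyp P n) : CC P (Hypersurface n) := fun X ⟨f, hf⟩ =>
  cc_closed hP hH X ⟨{f}, hf⟩

lemma cc_bilinear {n : ℕ} (hH : Hyp P n) : CC P (Bilinear n) := by
  rintro X ⟨a, b, M, rfl⟩
  rw [cp_zeros hP]
  refine hP.congr (Bc_mem hP hH M) fun q _ => ?_
  rw [zn_bilinear]

lemma cc_commuting {n : ℕ} (hH : Hyp P n) : CC P (Commuting n) := fun X ⟨a, A, _, hX⟩ =>
  cc_bilinear hP hH X ⟨a, a, A, hX⟩

lemma cc_kernel {n : ℕ} (hH : Hyp P n) : CC P (Kernel n) := by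
  rintro X ⟨a, b, M, rfl⟩
  rw [cp_zeros hP]
  refine hP.congr (Kc_mem hP hH le_rfl M) fun q _ => ?_
  rw [zn_kernel]

lemma cc_trilinear {n : ℕ} (hH : Hyp P n) : CC P (Trilinear n 0) := by
  rintro X ⟨a, b, T, rfl⟩
  rw [cp_zeros hP]
  refine hP.congr (Tc_of_Kc hP (ofT T) (Kc_mem hP hH le_rfl (ofT T))) fun q _ => ?_
  rw [zn_trilinear, Int.cast_zero, Tv_zero]

omit hP in
lemma growth_Tv {m a b : ℕ} (T : Finset (Fin m × Fin a × Fin b)) (c : ℤ) :
    Growth (fun q => ((Tv (FF q) (ofT T) (c : FF q) : ℤ) : ℂ)) := by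
  refine (growth_zn ({∑ t ∈ T, (X (Sum.inl t.1) * X (Sum.inr (Sum.inl t.2.1)) *
      X (Sum.inr (Sum.inr t.2.2)) : MvPolynomial (Fin m ⊕ Fin a ⊕ Fin b) ℤ) - C c} :
      Set _)).congr fun q _ => ?_
  rw [zn_trilinear]

lemma cc_trilinear_one {n : ℕ} (hH : Hyp P n) : CC P (Trilinear n 1) := by
  rintro X ⟨a, b, T, rfl⟩
  rw [cp_zeros hP]
  have h1 : P (fun q => (Tv (FF q) (ofT T) ((1 : ℤ) : FF q) : ℤ)) := by
    refine hP.of_pred_mul (growth_Tv T 1) (hP.congr (hP.sub (hP.pow (n + 1 + (a + b)))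
      (Tc_of_Kc hP (ofT T) (Kc_mem hP hH le_rfl (ofT T)))) fun q hq => ?_)
    have h2 := Tv_one (FF q) (ofT T)
    rw [card_FF hq, Fintype.card_fin, Fintype.card_fin] at h2
    rw [← h2, Int.cast_one]
    ring
  exact hP.congr h1 fun q _ => (zn_trilinear T 1 q).symm

/-- every class of level `n` controls the hypersurfaces in `A^n` -/
theorem hyp_of_level {n : ℕ} {𝒞 : Set Scheme.{0}} (h𝒞 : 𝒞 ∈ Level n) (h : CC P 𝒞) : Hyp P n := by
  simp only [Level, Set.mem_insert_iff, Set.mem_singleton_iff] at h𝒞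
  rcases h𝒞 with rfl | rfl | rfl | rfl | rfl | rfl | rfl | rfl
  · exact hyp_of_fibreDim hP h
  · exact hyp_of_closed hP h
  · exact hyp_of_hypersurface hP h
  · exact hyp_of_bilinear hP h
  · exact hyp_of_commuting hP h
  · exact hyp_of_kernel hP h
  · exact hyp_of_trilinear hP h
  · exact hyp_of_trilinear_one hP h

/-- the hypersurfaces in `A^n` control every class of level `n` -/
theorem cc_level {n : ℕ} (hH : Hyp P n) {𝒞 : Set Scheme.{0}} (h𝒞 : 𝒞 ∈ Level n) : CC P 𝒞 := by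
  simp only [Level, Set.mem_insert_iff, Set.mem_singleton_iff] at h𝒞
  rcases h𝒞 with rfl | rfl | rfl | rfl | rfl | rfl | rfl | rfl
  · exact cc_fibreDim hP hH
  · exact cc_closed hP hH
  · exact cc_hypersurface hP hH
  · exact cc_bilinear hP hH
  · exact cc_commuting hP hH
  · exact cc_kernel hP hH
  · exact cc_trilinear hP hH
  · exact cc_trilinear_one hP hH

omit hP

/-- all members of the classes of level `n` are of finite type and have an integral counting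
function -/
lemma count_level {n : ℕ} {𝒞 : Set Scheme.{0}} (h𝒞 : 𝒞 ∈ Level n) :
    ∀ X ∈ 𝒞, IsFT X ∧ CP (fun c => Growth (fun n => (c n : ℂ))) X := by
  intro X hX
  refine ⟨?_, cc_level cls_growth (hyp_growth n) h𝒞 X hX⟩
  simp only [Level, Set.mem_insert_iff, Set.mem_singleton_iff] at h𝒞
  rcases h𝒞 with rfl | rfl | rfl | rfl | rfl | rfl | rfl | rfl
  · exact hX.1
  · obtain ⟨S, rfl⟩ := hX
    exact isFT_zeros _
  · obtain ⟨f, rfl⟩ := hX
    exact isFT_zeros _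
  · obtain ⟨a, b, M, rfl⟩ := hX
    exact isFT_zeros _
  · obtain ⟨a, A, _, rfl⟩ := hX
    exact isFT_zeros _
  · obtain ⟨a, b, M, rfl⟩ := hX
    exact isFT_zeros _
  · obtain ⟨a, b, T, rfl⟩ := hX
    exact isFT_zeros _
  · obtain ⟨a, b, T, rfl⟩ := hX
    exact isFT_zeros _

/-! ### From closed properties to meromorphic continuation -/

/-- members of `𝒞'` needed for the continuation -/
def Need (𝒞' : Set Scheme.{0}) (F : Finset 𝒞') : Prop := ∀ Y ∈ F, ZetaContinues Y.1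

open Classical in
lemma cls_need (𝒞' : Set Scheme.{0}) : Cls (Rel (Need 𝒞')) :=
  cls_rel (Need 𝒞') fun _ _ hF h Y hY => h Y (hF hY)

lemma cc_need (𝒞' : Set Scheme.{0})
    (h : ∀ X ∈ 𝒞', IsFT X ∧ CP (fun c => Growth (fun n => (c n : ℂ))) X) :
    CC (Rel (Need 𝒞')) 𝒞' := by
  classical
  intro X hX
  obtain ⟨hFT, c, hg, hc⟩ := h X hX
  exact ⟨c, ⟨hg, {⟨X, hX⟩}, fun hN => mero_of_zc hFT hg hc (hN _ (Finset.mem_singleton_self _))⟩,
    hc⟩

lemma controls_of_cc {𝒞 𝒞' : Set Scheme.{0}} (hft : ∀ X ∈ 𝒞, IsFT X)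
    (h : CC (Rel (Need 𝒞')) 𝒞) : Controls 𝒞' 𝒞 := by
  classical
  intro X hX
  obtain ⟨c, ⟨hg, F, hF⟩, hc⟩ := h X hX
  refine ⟨Subtype.val '' (F : Set 𝒞'), F.finite_toSet.image _, ?_, fun hY => ?_⟩
  · rintro _ ⟨Y, _, rfl⟩
    exact Y.2
  · exact zc_of_mero (hft X hX) hg hc (hF fun Y hYF => hY _ ⟨Y, hYF, rfl⟩)

/-- **Level `n`**: any two of its classes control each other. -/
theorem level_controls (n : ℕ) {𝒞 𝒞' : Set Scheme.{0}} (h : 𝒞 ∈ Level n) (h' : 𝒞' ∈ Level n) :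
    Controls 𝒞' 𝒞 :=
  controls_of_cc (fun X hX => (count_level h X hX).1)
    (cc_level (cls_need 𝒞') (hyp_of_level (cls_need 𝒞') h' (cc_need 𝒞' (count_level h'))) h)

end Pool.Agent.Helper81.HI
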