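import Pool.Agent.Helper81.HI.Form

/-!
# Linear systems with polynomial coefficients
-/

set_option autoImplicit false

open Finset MvPolynomial
open Pool.Agent.Helper29.Zeta Pool.Agent.Helper50.KR

namespace Pool.Agent.Helper81.HI

/-- `P` holds for the hypersurfaces in affine `m`-space -/
def Hyp (P : (ℕ → ℤ) → Prop) (m : ℕ) : Prop :=
  ∀ f : MvPolynomial (Fin m) ℤ, P (fun n => (Nat.card {x : Fin m → FF n // aeval x f = 0} : ℤ))

/-- the number of points of a locally closed subset of affine space -/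
noncomputable def uc {m : ℕ} (S : Finset (MvPolynomial (Fin m) ℤ)) (g : MvPolynomial (Fin m) ℤ)
    (n : ℕ) : ℤ :=
  Nat.card {x : Fin m → FF n // (∀ f ∈ S, aeval x f = 0) ∧ aeval x g ≠ 0}

lemma card_split {α : Type} [Finite α] (p q : α → Prop) :
    Nat.card {x // p x} = Nat.card {x // p x ∧ q x} + Nat.card {x // p x ∧ ¬ q x} := by
  classical
  have : Fintype α := Fintype.ofFinite α
  simp only [Nat.card_eq_fintype_card, Fintype.card_subtype]
  rw [← Finset.card_filter_add_card_filter_not (s := univ.filter p) q, Finset.filter_filter,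
    Finset.filter_filter]

variable {P : (ℕ → ℤ) → Prop} (hP : Cls P)

include hP

lemma uc_mem {m : ℕ} (hH : Hyp P m) (S : Finset (MvPolynomial (Fin m) ℤ)) :
    ∀ g : MvPolynomial (Fin m) ℤ, P (uc S g) := by
  classical
  induction S using Finset.induction_on with
  | empty =>
    intro g
    refine hP.congr (hP.sub (hP.pow m) (hH g)) fun n hn => ?_
    have h1 := card_split (α := Fin m → FF n) (fun _ => True) (fun x => aeval x g = 0)
    have h2 : Nat.card {x : Fin m → FF n // True} = n ^ m := by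
      rw [Nat.card_congr (Equiv.subtypeUnivEquiv fun _ => trivial), Nat.card_fun, card_FF hn]
      simp
    rw [h2] at h1
    have h3 : Nat.card {x : Fin m → FF n // True ∧ aeval x g = 0} =
        Nat.card {x : Fin m → FF n // aeval x g = 0} :=
      Nat.card_congr (Equiv.subtypeEquivRight fun x => by simp)
    have h4 : (Nat.card {x : Fin m → FF n // True ∧ ¬ aeval x g = 0} : ℤ) = uc ∅ g n := by
      unfold uc
      congr 1
      exact Nat.card_congr (Equiv.subtypeEquivRight fun x => by simp)
    rw [h3] at h1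
    rw [← h4]
    have h5 := congrArg (fun a : ℕ => (a : ℤ)) h1
    push_cast at h5 ⊢
    linarith
  | insert f S hf ih =>
    intro g
    refine hP.congr (hP.sub (ih g) (ih (f * g))) fun n hn => ?_
    have h1 := card_split (α := Fin m → FF n)
      (fun x => (∀ f ∈ S, aeval x f = 0) ∧ aeval x g ≠ 0) (fun x => aeval x f = 0)
    have h3 : (Nat.card {x : Fin m → FF n //
        ((∀ f ∈ S, aeval x f = 0) ∧ aeval x g ≠ 0) ∧ aeval x f = 0} : ℤ) =
        uc (insert f S) g n := by
      unfold uc
      congr 1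
      refine Nat.card_congr (Equiv.subtypeEquivRight fun x => ?_)
      simp only [Finset.forall_mem_insert]
      tauto
    have h4 : (Nat.card {x : Fin m → FF n //
        ((∀ f ∈ S, aeval x f = 0) ∧ aeval x g ≠ 0) ∧ ¬ aeval x f = 0} : ℤ) =
        uc S (f * g) n := by
      unfold uc
      congr 1
      refine Nat.card_congr (Equiv.subtypeEquivRight fun x => ?_)
      rw [map_mul]
      simp only [ne_eq, mul_eq_zero]
      tauto
    have h5 := congrArg (fun a : ℕ => (a : ℤ)) h1
    push_cast at h5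
    rw [h3, h4] at h5
    unfold uc at h5 ⊢
    linarith

lemma hyp_pred {m : ℕ} (hH : Hyp P (m + 1)) : Hyp P m := by
  intro f
  have h := hH (rename Fin.succ f)
  refine hP.of_pow_mul (growth_card (Fin m) fun n x => aeval x f = 0) 1
    (hP.congr h fun n hn => ?_)
  have e : {x : Fin (m + 1) → FF n // aeval x (rename Fin.succ f) = 0} ≃
      FF n × {x : Fin m → FF n // aeval x f = 0} :=
    { toFun := fun x => (x.1 0, ⟨Fin.tail x.1, by
        have := x.2
        rw [aeval_rename] at this
        exact this⟩)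
      invFun := fun p => ⟨Fin.cons p.1 p.2.1, by
        rw [aeval_rename]
        have : (Fin.cons p.1 p.2.1 : Fin (m + 1) → FF n) ∘ Fin.succ = p.2.1 := by
          funext i; simp
        rw [this]
        exact p.2.2⟩
      left_inv := fun x => by
        apply Subtype.ext
        exact Fin.cons_self_tail x.1
      right_inv := fun p => by
        apply Prod.ext
        · rfl
        · apply Subtype.ext
          funext i; rfl }
  rw [Nat.card_congr e, Nat.card_prod, card_FF hn]
  push_cast
  ring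

lemma hyp_le {m m' : ℕ} (h : m ≤ m') (hH : Hyp P m') : Hyp P m := by
  induction m', h using Nat.le_induction with
  | base => exact hH
  | succ l _ ih => exact ih (hyp_pred hP hH)

omit hP in
/-- the solutions of a linear system with polynomial coefficients over a locally closed set -/
noncomputable def wc {m a : ℕ} {ι : Type} (S : Finset (MvPolynomial (Fin m) ℤ))
    (g : MvPolynomial (Fin m) ℤ) (M : ι → Fin a → MvPolynomial (Fin m) ℤ) (n : ℕ) : ℤ :=
  Nat.card {p : (Fin m → FF n) × (Fin a → FF n) //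
    ((∀ f ∈ S, aeval p.1 f = 0) ∧ aeval p.1 g ≠ 0) ∧ ∀ i, ∑ j, aeval p.1 (M i j) * p.2 j = 0}

omit hP in
lemma wc_zero {m : ℕ} {ι : Type} (S : Finset (MvPolynomial (Fin m) ℤ))
    (g : MvPolynomial (Fin m) ℤ) (M : ι → Fin 0 → MvPolynomial (Fin m) ℤ) (n : ℕ) :
    wc S g M n = uc S g n := by
  unfold wc uc
  congr 1
  exact Nat.card_congr
    { toFun := fun p => ⟨p.1.1, p.2.1⟩
      invFun := fun x => ⟨(x.1, Fin.elim0), x.2, fun i => by simp⟩
      left_inv := fun p => by
        apply Subtype.ext
        apply Prod.ext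
        · rfl
        · exact Subsingleton.elim _ _
      right_inv := fun x => rfl }

omit hP in
lemma wc_split {m a : ℕ} {ι : Type} [DecidableEq (MvPolynomial (Fin m) ℤ)]
    (S : Finset (MvPolynomial (Fin m) ℤ)) (g f : MvPolynomial (Fin m) ℤ)
    (M : ι → Fin a → MvPolynomial (Fin m) ℤ) (n : ℕ) :
    wc S g M n = wc (insert f S) g M n + wc S (g * f) M n := by
  unfold wc
  rw [card_split _ (fun p : (Fin m → FF n) × (Fin a → FF n) => aeval p.1 f = 0)]
  push_cast
  congr 2
  · refine Nat.card_congr (Equiv.subtypeEquivRight fun x => ?_)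
    simp only [Finset.forall_mem_insert]
    tauto
  · refine Nat.card_congr (Equiv.subtypeEquivRight fun x => ?_)
    rw [map_mul]
    simp only [ne_eq, mul_eq_zero]
    tauto

omit hP in
lemma wc_free {m a : ℕ} {ι : Type} (S : Finset (MvPolynomial (Fin m) ℤ))
    (g : MvPolynomial (Fin m) ℤ) (M : ι → Fin (a + 1) → MvPolynomial (Fin m) ℤ)
    (h : ∀ i, M i 0 ∈ S) {n : ℕ} (hn : IsPrimePow n) :
    wc S g M n = n * wc S g (fun i j => M i j.succ) n := by
  unfold wc
  rw [← Nat.cast_mul]
  congr 1
  have e : {p : (Fin m → FF n) × (Fin (a + 1) → FF n) //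
      ((∀ f ∈ S, aeval p.1 f = 0) ∧ aeval p.1 g ≠ 0) ∧ ∀ i, ∑ j, aeval p.1 (M i j) * p.2 j = 0} ≃
      FF n × {p : (Fin m → FF n) × (Fin a → FF n) //
      ((∀ f ∈ S, aeval p.1 f = 0) ∧ aeval p.1 g ≠ 0) ∧
        ∀ i, ∑ j : Fin a, aeval p.1 (M i j.succ) * p.2 j = 0} :=
    { toFun := fun p => (p.1.2 0, ⟨(p.1.1, Fin.tail p.1.2), p.2.1, fun i => by
        have h1 := p.2.2 i
        rw [Fin.sum_univ_succ, p.2.1.1 _ (h i), zero_mul, zero_add] at h1
        exact h1⟩)
      invFun := fun p => ⟨(p.2.1.1, Fin.cons p.1 p.2.1.2), p.2.2.1, fun i => by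
        have h1 := p.2.2.2 i
        have h2 := p.2.2.1.1 _ (h i)
        show ∑ j, aeval p.2.1.1 (M i j) * (Fin.cons p.1 p.2.1.2 : Fin (a + 1) → FF n) j = 0
        rw [Fin.sum_univ_succ, h2, zero_mul, zero_add]
        simpa using h1⟩
      left_inv := fun p => by
        apply Subtype.ext
        apply Prod.ext
        · rfl
        · exact Fin.cons_self_tail p.1.2
      right_inv := fun p => by
        apply Prod.ext
        · rfl
        · apply Subtype.ext
          apply Prod.ext
          · rfl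
          · funext i; rfl }
  rw [Nat.card_congr e, Nat.card_prod, card_FF hn]

omit hP in
lemma wc_elim {m a : ℕ} {ι : Type} (S : Finset (MvPolynomial (Fin m) ℤ))
    (g : MvPolynomial (Fin m) ℤ) (M : ι → Fin (a + 1) → MvPolynomial (Fin m) ℤ)
    (i₀ : ι) (n : ℕ) :
    wc S (g * M i₀ 0) M n =
      wc S (g * M i₀ 0) (fun i j => M i₀ 0 * M i j.succ - M i 0 * M i₀ j.succ) n := by
  unfold wc
  congr 1
  have key : ∀ (x : Fin m → FF n) (y : Fin (a + 1) → FF n), aeval x (M i₀ 0) ≠ 0 →
      ∑ j, aeval x (M i₀ j) * y j = 0 → ∀ i,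
      (∑ j, aeval x (M i j) * y j = 0 ↔
        ∑ j : Fin a, aeval x (M i₀ 0 * M i j.succ - M i 0 * M i₀ j.succ) * y j.succ = 0) := by
    intro x y h0 h1 i
    have h2 : ∑ j : Fin a, aeval x (M i₀ 0 * M i j.succ - M i 0 * M i₀ j.succ) * y j.succ =
        aeval x (M i₀ 0) * ∑ j, aeval x (M i j) * y j -
          aeval x (M i 0) * ∑ j, aeval x (M i₀ j) * y j := by
      rw [Fin.sum_univ_succ, Fin.sum_univ_succ, mul_add, mul_add, Finset.mul_sum, Finset.mul_sum]
      have h3 : ∑ j : Fin a, aeval x (M i₀ 0 * M i j.succ - M i 0 * M i₀ j.succ) * y j.succ =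
          ∑ j : Fin a, aeval x (M i₀ 0) * (aeval x (M i j.succ) * y j.succ) -
          ∑ j : Fin a, aeval x (M i 0) * (aeval x (M i₀ j.succ) * y j.succ) := by
        rw [← Finset.sum_sub_distrib]
        refine Finset.sum_congr rfl fun j _ => ?_
        rw [map_sub, map_mul, map_mul]
        ring
      rw [h3]; ring
    rw [h2, h1, mul_zero, sub_zero, mul_eq_zero, or_iff_right h0]
  have hne : ∀ x : Fin m → FF n, aeval x (g * M i₀ 0) ≠ 0 → aeval x (M i₀ 0) ≠ 0 := by
    intro x h h0
    exact h (by rw [map_mul, h0, mul_zero])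
  let y0 : (Fin m → FF n) → (Fin a → FF n) → FF n := fun x y =>
    -(∑ j : Fin a, aeval x (M i₀ j.succ) * y j) / aeval x (M i₀ 0)
  have hy0 : ∀ (x : Fin m → FF n) (y : Fin a → FF n), aeval x (M i₀ 0) ≠ 0 →
      ∑ j, aeval x (M i₀ j) * (Fin.cons (y0 x y) y : Fin (a + 1) → FF n) j = 0 := by
    intro x y h0
    rw [Fin.sum_univ_succ]
    simp only [Fin.cons_zero, Fin.cons_succ, y0]
    field_simp
    ring
  refine Nat.card_congr
    { toFun := fun p => ⟨(p.1.1, Fin.tail p.1.2), p.2.1, fun i => ?_⟩
      invFun := fun p => ⟨(p.1.1, Fin.cons (y0 p.1.1 p.1.2) p.1.2), p.2.1, fun i => ?_⟩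
      left_inv := fun p => ?_
      right_inv := fun p => ?_ }
  · exact (key p.1.1 p.1.2 (hne _ p.2.1.2) (p.2.2 i₀) i).mp (p.2.2 i)
  · refine (key p.1.1 (Fin.cons (y0 p.1.1 p.1.2) p.1.2) (hne _ p.2.1.2)
      (hy0 _ _ (hne _ p.2.1.2)) i).mpr ?_
    simpa using p.2.2 i
  · apply Subtype.ext
    apply Prod.ext
    · rfl
    · show (Fin.cons (y0 p.1.1 (Fin.tail p.1.2)) (Fin.tail p.1.2) : Fin (a + 1) → FF n) = p.1.2
      have h1 := p.2.2 i₀
      have h0 := hne _ p.2.1.2
      have h2 : y0 p.1.1 (Fin.tail p.1.2) = p.1.2 0 := by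
        rw [Fin.sum_univ_succ] at h1
        show -(∑ j : Fin a, aeval p.1.1 (M i₀ j.succ) * p.1.2 j.succ) / aeval p.1.1 (M i₀ 0) = _
        rw [div_eq_iff h0]
        linear_combination -h1
      rw [h2]
      exact Fin.cons_self_tail p.1.2
  · apply Subtype.ext
    apply Prod.ext
    · rfl
    · funext i; rfl

theorem wc_mem {m : ℕ} (hH : Hyp P m) (a : ℕ) : ∀ {ι : Type} [Fintype ι]
    (M : ι → Fin a → MvPolynomial (Fin m) ℤ) (S : Finset (MvPolynomial (Fin m) ℤ))
    (g : MvPolynomial (Fin m) ℤ), P (wc S g M) := by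
  classical
  induction a with
  | zero =>
    intro ι _ M S g
    exact hP.congr (uc_mem hP hH S g) fun n _ => (wc_zero S g M n).symm
  | succ a ih =>
    intro ι _ M S g
    have claim : ∀ (R : Finset ι) (S : Finset (MvPolynomial (Fin m) ℤ))
        (g : MvPolynomial (Fin m) ℤ), (∀ i, i ∉ R → M i 0 ∈ S) → P (wc S g M) := by
      intro R
      induction R using Finset.induction_on with
      | empty =>
        intro S g h
        exact hP.congr (hP.id_mul (ih (fun i j => M i j.succ) S g)) fun n hn =>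
          (wc_free S g M (fun i => h i (Finset.notMem_empty i)) hn).symm
      | insert i R hi ihR =>
        intro S g h
        refine hP.congr (hP.add (ihR (insert (M i 0) S) g fun l hl => ?_)
          (ih (fun l j => M i 0 * M l j.succ - M l 0 * M i j.succ) S (g * M i 0))) fun n hn => ?_
        · by_cases hli : l = i
          · rw [hli]; exact Finset.mem_insert_self _ _
          · exact Finset.mem_insert_of_mem (h l (by simp [hli, hl]))
        · rw [wc_split S g (M i 0) M n, wc_elim S g M i n]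
    exact claim univ S g fun i hi => (hi (Finset.mem_univ i)).elim

end Pool.Agent.Helper81.HI
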