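import Pool.Agent.Helper81.HI.Lin

/-!
# Noetherian induction for counting functions
-/

set_option autoImplicit false

open Finset MvPolynomial
open Pool.Agent.Helper29.Zeta Pool.Agent.Helper50.KR

namespace Pool.Agent.Helper81.HI

/-- the number of homomorphisms to the field with `n` elements which kill `I` -/
noncomputable def cI {A : Type} [CommRing A] (I : Ideal A) (n : ℕ) : ℤ :=
  Nat.card {φ : A →+* FF n // I ≤ RingHom.ker φ}

lemma cI_cnt {A : Type} [CommRing A] (I : Ideal A) (n : ℕ) : (cI I n : ℝ) = cnt A I n := by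
  unfold cI cnt
  push_cast
  rfl

lemma growth_cI {A : Type} [CommRing A] [Algebra.FiniteType ℤ A] (I : Ideal A) :
    Growth (fun n => (cI I n : ℂ)) := by
  refine (growth_cnt A I).congr fun n _ => ?_
  rw [← cI_cnt]
  push_cast
  rfl

lemma cI_top {A : Type} [CommRing A] (n : ℕ) : cI (⊤ : Ideal A) n = 0 := by
  unfold cI
  have : IsEmpty {φ : A →+* FF n // (⊤ : Ideal A) ≤ RingHom.ker φ} := by
    refine ⟨fun φ => ?_⟩
    have h : (1 : A) ∈ RingHom.ker φ.1 := φ.2 trivial
    rw [RingHom.mem_ker, map_one] at h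
    exact one_ne_zero h
  rw [Nat.card_of_isEmpty]
  rfl

lemma cI_split {A : Type} [CommRing A] [Algebra.FiniteType ℤ A] (I : Ideal A) (a : A) (n : ℕ) :
    cI I n = cI (I ⊔ Ideal.span {a}) n +
      Nat.card {φ : A →+* FF n // I ≤ RingHom.ker φ ∧ φ a ≠ 0} := by
  have : Finite (A →+* FF n) := finite_ringHom A (FF n)
  unfold cI
  rw [card_split _ (fun φ : A →+* FF n => φ a = 0)]
  push_cast
  congr 2
  refine Nat.card_congr (Equiv.subtypeEquivRight fun φ => ?_)
  rw [sup_le_iff, Ideal.span_singleton_le_iff_mem, RingHom.mem_ker]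

lemma cI_mul {A : Type} [CommRing A] [Algebra.FiniteType ℤ A] (I : Ideal A) (a b : A)
    (h : a * b ∈ I) (n : ℕ) :
    cI I n = cI (I ⊔ Ideal.span {a}) n + cI (I ⊔ Ideal.span {b}) n -
      cI (I ⊔ Ideal.span {b} ⊔ Ideal.span {a}) n := by
  rw [cI_split I a n, cI_split (I ⊔ Ideal.span {b}) a n]
  have h1 : Nat.card {φ : A →+* FF n // I ≤ RingHom.ker φ ∧ φ a ≠ 0} =
      Nat.card {φ : A →+* FF n // I ⊔ Ideal.span {b} ≤ RingHom.ker φ ∧ φ a ≠ 0} := by
    refine Nat.card_congr (Equiv.subtypeEquivRight fun φ => ?_)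
    rw [sup_le_iff, Ideal.span_singleton_le_iff_mem, RingHom.mem_ker]
    constructor
    · rintro ⟨h1, h2⟩
      have h3 : φ (a * b) = 0 := h1 h
      rw [map_mul] at h3
      exact ⟨⟨h1, (mul_eq_zero.mp h3).resolve_left h2⟩, h2⟩
    · rintro ⟨⟨h1, _⟩, h2⟩
      exact ⟨h1, h2⟩
  rw [h1]
  ring

/-- **Noetherian induction.** -/
theorem noe {P : (ℕ → ℤ) → Prop} (hP : Cls P) {A : Type} [CommRing A] [Algebra.FiniteType ℤ A]
    (h : ∀ p : Ideal A, p.IsPrime → (∀ J : Ideal A, p < J → P (cI J)) → P (cI p))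
    (I : Ideal A) : P (cI I) := by
  have : IsNoetherianRing A := Algebra.FiniteType.isNoetherianRing ℤ A
  refine IsNoetherian.induction (P := fun I : Ideal A => P (cI I)) (fun (I : Ideal A) ih => ?_) I
  by_cases hI : Ideal.IsPrime I
  · exact h I hI fun J hJ => ih J hJ
  · rw [Ideal.not_isPrime_iff] at hI
    rcases hI with rfl | ⟨a, ha, b, hb, hab⟩
    · exact hP.congr hP.zero fun n _ => (cI_top n).symm
    · have h1 : ∀ (J : Ideal A) (c : A), I ≤ J → c ∉ I → c ∈ J → J > I := by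
        intro J c hJ hc hc'
        exact lt_of_le_of_ne hJ fun h => hc (h ▸ hc')
      have ha' : a ∈ I ⊔ Ideal.span {a} := Ideal.mem_sup_right (Ideal.mem_span_singleton_self a)
      have hb' : b ∈ I ⊔ Ideal.span {b} := Ideal.mem_sup_right (Ideal.mem_span_singleton_self b)
      refine hP.congr (hP.sub (hP.add (ih _ (h1 (I ⊔ Ideal.span {a}) a le_sup_left ha ha'))
        (ih _ (h1 (I ⊔ Ideal.span {b}) b le_sup_left hb hb')))
        (ih _ (h1 (I ⊔ Ideal.span {b} ⊔ Ideal.span {a}) b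
          (le_sup_left.trans le_sup_left) hb (Ideal.mem_sup_left hb')))) fun n _ => ?_
      rw [cI_mul I a b hab n]

/-- homomorphisms from a polynomial ring are points -/
lemma card_hom_poly {σ k : Type} [Field k] (T : Set (MvPolynomial σ ℤ)) (g : MvPolynomial σ ℤ) :
    Nat.card {φ : MvPolynomial σ ℤ →+* k // Ideal.span T ≤ RingHom.ker φ ∧ φ g ≠ 0} =
      Nat.card {x : σ → k // (∀ f ∈ T, aeval x f = 0) ∧ aeval x g ≠ 0} := by
  have h : ∀ φ : MvPolynomial σ ℤ →+* k, ∀ f, aeval (fun i => φ (X i)) f = φ f := by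
    intro φ f
    have h3 : φ = ((aeval (fun i => φ (X i)) : MvPolynomial σ ℤ →ₐ[ℤ] k) :
        MvPolynomial σ ℤ →+* k) := by
      refine ringHom_ext' (RingHom.ext_int _ _) fun i => ?_
      simp
    exact (congrArg (fun ψ : MvPolynomial σ ℤ →+* k => ψ f) h3).symm
  refine Nat.card_congr
    { toFun := fun φ => ⟨fun i => φ.1 (X i), ?_, ?_⟩
      invFun := fun x => ⟨((aeval x.1 : MvPolynomial σ ℤ →ₐ[ℤ] k) : MvPolynomial σ ℤ →+* k),
        ?_, x.2.2⟩
      left_inv := fun φ => ?_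
      right_inv := fun x => ?_ }
  · intro f hf
    rw [h]
    exact φ.2.1 (Ideal.subset_span hf)
  · rw [h]; exact φ.2.2
  · rw [Ideal.span_le]
    intro f hf
    exact x.2.1 f hf
  · apply Subtype.ext
    refine RingHom.ext fun f => ?_
    exact h φ.1 f
  · apply Subtype.ext
    funext i
    show aeval x.1 (X i) = x.1 i
    rw [aeval_X]

/-- the counting function of a closed subscheme of affine space -/
lemma cI_poly {σ : Type} (T : Set (MvPolynomial σ ℤ)) (n : ℕ) :
    cI (Ideal.span T) n = Nat.card {x : σ → FF n // ∀ f ∈ T, aeval x f = 0} := by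
  have := card_hom_poly (k := FF n) T 1
  unfold cI
  congr 1
  have h1 : Nat.card {φ : MvPolynomial σ ℤ →+* FF n // Ideal.span T ≤ RingHom.ker φ} =
      Nat.card {φ : MvPolynomial σ ℤ →+* FF n // Ideal.span T ≤ RingHom.ker φ ∧ φ 1 ≠ 0} :=
    Nat.card_congr (Equiv.subtypeEquivRight fun φ => by simp)
  have h2 : Nat.card {x : σ → FF n // ∀ f ∈ T, aeval x f = 0} =
      Nat.card {x : σ → FF n // (∀ f ∈ T, aeval x f = 0) ∧
        aeval x (1 : MvPolynomial σ ℤ) ≠ 0} :=
    Nat.card_congr (Equiv.subtypeEquivRight fun φ => by simp)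
  rw [h1, h2, this]

/-- the counting function of a quotient -/
lemma cI_quot {A : Type} [CommRing A] (I : Ideal A) (n : ℕ) :
    cI (⊥ : Ideal (A ⧸ I)) n = cI I n := by
  unfold cI
  congr 1
  refine Nat.card_congr
    { toFun := fun φ => ⟨φ.1.comp (Ideal.Quotient.mk I), fun a ha => ?_⟩
      invFun := fun φ => ⟨Ideal.Quotient.lift I φ.1 fun a ha => φ.2 ha, bot_le⟩
      left_inv := fun φ => ?_
      right_inv := fun φ => ?_ }
  · rw [RingHom.mem_ker, RingHom.comp_apply, Ideal.Quotient.eq_zero_iff_mem.mpr ha, map_zero]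
  · apply Subtype.ext
    exact Ideal.Quotient.ringHom_ext (RingHom.ext fun a => rfl)
  · apply Subtype.ext
    exact RingHom.ext fun a => rfl

end Pool.Agent.Helper81.HI
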