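import Pool.Agent.Helper81.HI.Lin

/-!
# Homogeneous pencils: from hypersurfaces in `A^N` to `N + 1` bilinear equations
-/

set_option autoImplicit false

open Finset MvPolynomial
open Pool.Agent.Helper29.Zeta Pool.Agent.Helper50.KR

namespace Pool.Agent.Helper81.HI

section count

variable {m : ℕ} {I J : Type} [Fintype I] [Fintype J] (k : Type) [Field k] [Finite k]

omit [Fintype I] [Finite k] in
lemma Kc_zero (M : Fin 0 → I → J → ℤ) :
    (Kc k M : ℤ) = (Nat.card k : ℤ) ^ (Fintype.card J) := by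
  unfold Kc
  have e : {p : (Fin 0 → k) × (J → k) // ∀ i, ∑ l, ∑ j, (M l i j : k) * (p.1 l * p.2 j) = 0} ≃
      (J → k) :=
    { toFun := fun p => p.1.2
      invFun := fun y => ⟨(Fin.elim0, y), fun i => by simp⟩
      left_inv := fun p => by
        apply Subtype.ext
        apply Prod.ext
        · exact Subsingleton.elim _ _
        · rfl
      right_inv := fun y => rfl }
  rw [Nat.card_congr e, Nat.card_fun]
  simp

/-- the part `x_0 = 1` -/
noncomputable def Kaff (M : Fin (m + 1) → I → J → ℤ) : ℕ :=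
  Nat.card {p : (Fin m → k) × (J → k) //
    ∀ i, ∑ j, ((M 0 i j : k) + ∑ l : Fin m, p.1 l * (M l.succ i j : k)) * p.2 j = 0}

omit [Fintype I] in
lemma Kc_succ (M : Fin (m + 1) → I → J → ℤ) :
    (Kc k M : ℤ) = Kc k (fun l => M l.succ) + ((Nat.card k : ℤ) - 1) * Kaff k M := by
  unfold Kc
  rw [card_split _ (fun p : (Fin (m + 1) → k) × (J → k) => p.1 0 = 0)]
  push_cast
  congr 1
  · congr 1
    refine Nat.card_congr
      { toFun := fun p => ⟨(Fin.tail p.1.1, p.1.2), fun i => ?_⟩
        invFun := fun p => ⟨(Fin.cons 0 p.1.1, p.1.2), fun i => ?_, rfl⟩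
        left_inv := fun p => ?_
        right_inv := fun p => ?_ }
    · have h1 := p.2.1 i
      rw [Fin.sum_univ_succ] at h1
      simp only [p.2.2, zero_mul, mul_zero, Finset.sum_const_zero, zero_add] at h1
      exact h1
    · have h1 := p.2 i
      rw [Fin.sum_univ_succ]
      simp only [Fin.cons_zero, zero_mul, mul_zero, Finset.sum_const_zero, zero_add, Fin.cons_succ]
      exact h1
    · apply Subtype.ext
      apply Prod.ext
      · show (Fin.cons 0 (Fin.tail p.1.1) : Fin (m + 1) → k) = p.1.1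
        conv_rhs => rw [← Fin.cons_self_tail p.1.1]
        rw [p.2.2]
      · rfl
    · apply Subtype.ext
      apply Prod.ext
      · funext l; rfl
      · rfl
  · have hcard : ((Nat.card k : ℤ) - 1) = (Nat.card kˣ : ℤ) := by
      have := Nat.card_units k
      have h1 : 0 < Nat.card k := Nat.card_pos
      rw [this]
      omega
    rw [hcard, ← Nat.cast_mul, Kaff, ← Nat.card_prod]
    congr 1
    have key : ∀ (x : Fin (m + 1) → k) (y : J → k) (t : k) (x' : Fin m → k), x 0 = t →
        (∀ l : Fin m, x l.succ = t * x' l) → ∀ i,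
        ∑ l, ∑ j, (M l i j : k) * (x l * y j) =
          t * ∑ j, ((M 0 i j : k) + ∑ l : Fin m, x' l * (M l.succ i j : k)) * y j := by
      intro x y t x' h0 h i
      rw [Fin.sum_univ_succ, h0]
      simp only [h]
      rw [Finset.sum_comm, ← Finset.sum_add_distrib, Finset.mul_sum]
      refine Finset.sum_congr rfl fun j _ => ?_
      rw [add_mul, mul_add, Finset.sum_mul, Finset.mul_sum]
      congr 1
      · ring
      · exact Finset.sum_congr rfl fun l _ => by ring
    refine Nat.card_congr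
      { toFun := fun p => (Units.mk0 (p.1.1 0) p.2.2,
          ⟨(fun l => p.1.1 l.succ / p.1.1 0, p.1.2), fun i => ?_⟩)
        invFun := fun p => ⟨(Fin.cons (p.1 : k) (fun l => (p.1 : k) * p.2.1.1 l), p.2.1.2),
          fun i => ?_, p.1.ne_zero⟩
        left_inv := fun p => ?_
        right_inv := fun p => ?_ }
    · have h0 : p.1.1 0 ≠ 0 := p.2.2
      have h1 := p.2.1 i
      rw [key p.1.1 p.1.2 (p.1.1 0) (fun l => p.1.1 l.succ / p.1.1 0) rfl
        (fun l => by field_simp) i] at h1
      exact (mul_eq_zero.mp h1).resolve_left h0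
    · show ∑ l, ∑ j, (M l i j : k) * ((Fin.cons (p.1 : k) (fun l => (p.1 : k) * p.2.1.1 l) :
        Fin (m + 1) → k) l * p.2.1.2 j) = 0
      rw [key _ p.2.1.2 (p.1 : k) p.2.1.1 rfl (fun l => rfl) i, p.2.2 i, mul_zero]
    · have h0 : p.1.1 0 ≠ 0 := p.2.2
      apply Subtype.ext
      apply Prod.ext
      · funext l
        refine Fin.cases ?_ (fun l => ?_) l
        · rfl
        · show p.1.1 0 * (p.1.1 l.succ / p.1.1 0) = p.1.1 l.succ
          field_simp
      · rfl
    · apply Prod.ext
      · apply Units.ext; rfl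
      · apply Subtype.ext
        apply Prod.ext
        · funext l
          show (p.1 : k) * p.2.1.1 l / (p.1 : k) = p.2.1.1 l
          have := p.1.ne_zero
          field_simp
        · rfl

end count

variable {P : (ℕ → ℤ) → Prop} (hP : Cls P)

include hP

section

variable {I J : Type} [Fintype I] [Fintype J]

lemma Kaff_mem {m : ℕ} (hH : Hyp P m) (M : Fin (m + 1) → I → J → ℤ) :
    P (fun n => (Kaff (FF n) M : ℤ)) := by
  let e : J ≃ Fin (Fintype.card J) := Fintype.equivFin J
  let M' : I → Fin (Fintype.card J) → MvPolynomial (Fin m) ℤ := fun i j =>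
    C (M 0 i (e.symm j)) + ∑ l : Fin m, X l * C (M l.succ i (e.symm j))
  refine hP.congr (wc_mem hP hH _ M' ∅ 1) fun n hn => ?_
  unfold wc Kaff
  congr 1
  refine Nat.card_congr (Equiv.subtypeEquiv
    (Equiv.prodCongr (Equiv.refl _) (Equiv.arrowCongr e.symm (Equiv.refl _))) fun p => ?_)
  have h1 : ∀ i, ∑ j, aeval p.1 (M' i j) * p.2 j =
      ∑ j, ((M 0 i j : FF n) + ∑ l : Fin m, p.1 l * (M l.succ i j : FF n)) * p.2 (e j) := by
    intro i
    rw [← Equiv.sum_comp e]
    refine Finset.sum_congr rfl fun j _ => ?_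
    simp only [M', map_add, map_sum, map_mul, aeval_X, aeval_C, Equiv.symm_apply_apply]
    rfl
  simp only [h1]
  constructor
  · intro h i
    exact h.2 i
  · intro h
    exact ⟨⟨by simp, by simp⟩, h⟩

lemma Kc_mem {N : ℕ} (hH : Hyp P N) {m : ℕ} (hm : m ≤ N + 1) (M : Fin m → I → J → ℤ) :
    P (fun n => (Kc (FF n) M : ℤ)) := by
  induction m with
  | zero =>
    refine hP.congr (hP.pow (Fintype.card J)) fun n hn => ?_
    rw [Kc_zero, card_FF hn]
  | succ m ih =>
    refine hP.congr (hP.add (ih (by omega) (fun l => M l.succ))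
      (hP.pred_mul (Kaff_mem hP (hyp_le hP (by omega : m ≤ N) hH) M))) fun n hn => ?_
    rw [Kc_succ, card_FF hn]

omit hP in
lemma growth_Tc {m : ℕ} (M : Fin m → I → J → ℤ) :
    Growth (fun n => ((Tc (FF n) M : ℤ) : ℂ)) := by
  refine growth_nat (m + (Fintype.card I + Fintype.card J)) fun n hn => ?_
  unfold Tc
  refine (Nat.card_le_card_of_injective Subtype.val Subtype.val_injective).trans (le_of_eq ?_)
  rw [Nat.card_prod, Nat.card_prod, Nat.card_fun, Nat.card_fun, Nat.card_fun, card_FF hn,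
    Nat.card_eq_fintype_card (α := Fin m), Fintype.card_fin, Nat.card_eq_fintype_card (α := I),
    Nat.card_eq_fintype_card (α := J), pow_add, pow_add]

omit hP in
lemma growth_Bc {m : ℕ} (M : Fin m → I → J → ℤ) :
    Growth (fun n => ((Bc (FF n) M : ℤ) : ℂ)) := by
  refine growth_nat (Fintype.card I + Fintype.card J) fun n hn => ?_
  unfold Bc
  refine (Nat.card_le_card_of_injective Subtype.val Subtype.val_injective).trans (le_of_eq ?_)
  rw [Nat.card_prod, Nat.card_fun, Nat.card_fun, card_FF hn,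
    Nat.card_eq_fintype_card (α := I), Nat.card_eq_fintype_card (α := J), pow_add]

omit hP [Fintype I] in
lemma growth_Kc {m : ℕ} (M : Fin m → I → J → ℤ) :
    Growth (fun n => ((Kc (FF n) M : ℤ) : ℂ)) := by
  refine growth_nat (m + Fintype.card J) fun n hn => ?_
  unfold Kc
  refine (Nat.card_le_card_of_injective Subtype.val Subtype.val_injective).trans (le_of_eq ?_)
  rw [Nat.card_prod, Nat.card_fun, Nat.card_fun, card_FF hn,
    Nat.card_eq_fintype_card (α := Fin m), Fintype.card_fin,
    Nat.card_eq_fintype_card (α := J), pow_add]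

lemma Tc_of_Kc {m : ℕ} (M : Fin m → I → J → ℤ) (h : P (fun n => (Kc (FF n) M : ℤ))) :
    P (fun n => (Tc (FF n) M : ℤ)) := by
  refine hP.of_pow_mul (growth_Tc M) 1 (hP.congr (hP.pow_mul (hP.add (hP.pred_mul h)
    (hP.pow (m + Fintype.card J))) (Fintype.card I)) fun n hn => ?_)
  have := Tc_eq_K (FF n) M
  rw [card_FF hn] at this
  rw [pow_one, this]

lemma Kc_of_Tc {m : ℕ} (M : Fin m → I → J → ℤ) (h : P (fun n => (Tc (FF n) M : ℤ))) :
    P (fun n => (Kc (FF n) M : ℤ)) := by
  refine hP.of_pred_mul (growth_Kc M) ?_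
  refine hP.of_pow_mul ?_ (Fintype.card I) (hP.congr (hP.sub (hP.id_mul h)
    (hP.pow (Fintype.card I + (m + Fintype.card J)))) fun n hn => ?_)
  · refine ((Growth.id.sub (Growth.const 1)).mul (growth_Kc M)).congr fun n _ => ?_
    push_cast; rfl
  · have := Tc_eq_K (FF n) M
    rw [card_FF hn] at this
    rw [this, pow_add]
    ring

lemma Bc_of_Tc {m : ℕ} (M : Fin m → I → J → ℤ) (h : P (fun n => (Tc (FF n) M : ℤ))) :
    P (fun n => (Bc (FF n) M : ℤ)) := by
  refine hP.of_pred_mul (growth_Bc M) ?_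
  refine hP.of_pow_mul ?_ m (hP.congr (hP.sub (hP.id_mul h)
    (hP.pow (m + (Fintype.card I + Fintype.card J)))) fun n hn => ?_)
  · refine ((Growth.id.sub (Growth.const 1)).mul (growth_Bc M)).congr fun n _ => ?_
    push_cast; rfl
  · have := Tc_eq_B (FF n) M
    rw [card_FF hn] at this
    rw [this, pow_add]
    ring

lemma Tc_of_Bc {m : ℕ} (M : Fin m → I → J → ℤ) (h : P (fun n => (Bc (FF n) M : ℤ))) :
    P (fun n => (Tc (FF n) M : ℤ)) := by
  refine hP.of_pow_mul (growth_Tc M) 1 (hP.congr (hP.pow_mul (hP.add (hP.pred_mul h)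
    (hP.pow (Fintype.card I + Fintype.card J))) m) fun n hn => ?_)
  have := Tc_eq_B (FF n) M
  rw [card_FF hn] at this
  rw [pow_one, this]

/-- **Hypersurfaces in `A^N` control `N + 1` bilinear equations.** -/
theorem Bc_mem {N : ℕ} (hH : Hyp P N) (M : Fin (N + 1) → I → J → ℤ) :
    P (fun n => (Bc (FF n) M : ℤ)) :=
  Bc_of_Tc hP M (Tc_of_Kc hP M (Kc_mem hP hH le_rfl M))

end

end Pool.Agent.Helper81.HI
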