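import Pool.Agent.Helper81.CP.Good
import Pool.Agent.Helper81.HI.Defs

/-!
# The hypersurfaces `∑ x_l y_i z_j = 1` are smooth over `ℤ`
-/

set_option autoImplicit false

open AlgebraicGeometry CategoryTheory MvPolynomial
open Pool.Agent.Helper81.CP

namespace Pool.Agent.Helper81.HI

/-- a polynomial which is homogeneous of degree one in some of the variables takes the value one
on a smooth subscheme -/
lemma formallySmooth_of_scl {σ : Type} (F : MvPolynomial σ ℤ) (W : Set σ)
    (hF : ∀ (A : Type) [CommRing A] (x : σ → A) (c : A), ev (scl W c x) F = c * ev x F) :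
    Algebra.FormallySmooth ℤ (Rng σ {F - 1}) := by
  classical
  refine Algebra.FormallySmooth.of_comp_surjective fun B _ _ I hI φ => ?_
  let E : Set (MvPolynomial σ ℤ) := {F - 1}
  have hE : ∀ {A : Type} [CommRing A] (x : σ → A), Pt E x ↔ ev x F - 1 = 0 := by
    intro A _ x
    simp [Pt, E]
  obtain ⟨x, hx⟩ : ∃ x : σ → B, ∀ i, Ideal.Quotient.mk I (x i) =
      (φ : Rng σ E →+* B ⧸ I) (tau E i) :=
    ⟨fun i => (Ideal.Quotient.mk_surjective (φ (tau E i))).choose,
      fun i => (Ideal.Quotient.mk_surjective (φ (tau E i))).choose_spec⟩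
  have h0 : Pt E (fun i => Ideal.Quotient.mk I (x i)) := by
    rw [funext hx]
    exact (rep_rng E).pt.map _
  have h1 : ev x F - 1 ∈ I := by
    rw [hE, ← ev_map, ← map_one (Ideal.Quotient.mk I), ← map_sub] at h0
    exact Ideal.Quotient.eq_zero_iff_mem.mp h0
  have h2 : (ev x F - 1) ^ 2 = 0 := by
    have h3 := Ideal.pow_mem_pow h1 2
    rwa [hI, Ideal.mem_bot] at h3
  let y : σ → B := scl W (1 - (ev x F - 1)) x
  have hy : Pt E y := by
    rw [hE, hF]
    linear_combination -h2
  have hxy : ∀ i, Ideal.Quotient.mk I (y i) = Ideal.Quotient.mk I (x i) := by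
    intro i
    rw [Ideal.Quotient.eq]
    by_cases hi : i ∈ W
    · have h4 : y i - x i = -x i * (ev x F - 1) := by
        simp only [y, scl, hi, if_true]
        ring
      rw [h4]
      exact I.mul_mem_left _ h1
    · have h4 : y i - x i = 0 := by
        simp only [y, scl, hi, if_false, sub_self]
      rw [h4]
      exact I.zero_mem
  obtain ⟨ψ, hψ⟩ := (rep_rng E).ex B y hy
  refine ⟨{ ψ with commutes' := fun r => ?_ }, ?_⟩
  · exact congrArg (fun g : ℤ →+* B => g r)
      (RingHom.ext_int (ψ.comp (algebraMap ℤ (Rng σ E))) (algebraMap ℤ B))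
  · refine AlgHom.coe_ringHom_injective ?_
    refine (rep_rng E).uniq _ _ _ fun i => ?_
    rw [← hx i, ← hxy i, ← hψ i]
    rfl

theorem smooth_of_scl {σ : Type} [Finite σ] (F : MvPolynomial σ ℤ) (W : Set σ)
    (hF : ∀ (A : Type) [CommRing A] (x : σ → A) (c : A), ev (scl W c x) F = c * ev x F)
    (f : Zeros {F - C 1} ⟶ Spec (CommRingCat.of ℤ)) : Smooth f := by
  have hs : Algebra.Smooth ℤ (MvPolynomial σ ℤ ⧸ Ideal.span {F - C 1}) := by
    have h1 : ({F - C 1} : Set (MvPolynomial σ ℤ)) = {F - 1} := by rw [map_one]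
    rw [h1]
    have h2 : Algebra.FiniteType ℤ (Rng σ {F - 1}) :=
      Algebra.FiniteType.trans (S := MvPolynomial σ ℤ) inferInstance inferInstance
    exact { formallySmooth := formallySmooth_of_scl F W hF
            finitePresentation := Algebra.FinitePresentation.of_finiteType.mp h2 }
  have key : ∀ g : Spec (CommRingCat.of (MvPolynomial σ ℤ ⧸ Ideal.span {F - C 1})) ⟶
      Spec (CommRingCat.of ℤ), Smooth g := by
    intro g
    obtain ⟨φ, hφ⟩ := Spec.map_surjective g
    rw [← hφ, HasRingHomProperty.Spec_iff (P := @Smooth)]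
    have h3 : φ.hom = algebraMap ℤ (MvPolynomial σ ℤ ⧸ Ideal.span {F - C 1}) :=
      RingHom.ext_int _ _
    rw [h3, RingHom.smooth_algebraMap]
    exact hs
  exact key f

/-- **The schemes `∑ x_l y_i z_j = 1` are smooth over `ℤ`.** -/
theorem smooth_trilinear (n : ℕ) (X : Scheme.{0}) (hX : X ∈ Trilinear n 1)
    (f : X ⟶ Spec (CommRingCat.of ℤ)) : Smooth f := by
  obtain ⟨a, b, T, rfl⟩ := hX
  refine smooth_of_scl _ (Set.range Sum.inl) (fun A _ x c => ?_) f
  rw [map_sum, map_sum, Finset.mul_sum]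
  refine Finset.sum_congr rfl fun t _ => ?_
  simp [scl]
  ring

end Pool.Agent.Helper81.HI
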