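import Pool.Agent.Helper81.HI.Pencil

/-!
# Systems of equations and their linear combinations

For functions `φ_0, ..., φ_m` on a finite set `α` with values in a finite field: the common zeros,
the zeros of `∑ t_l φ_l` on `k^(m+1) × α`, and of `φ_0 + ∑ x_l φ_l` on `k^m × α`.
-/

set_option autoImplicit false

open Finset MvPolynomial
open Pool.Agent.Helper29.Zeta Pool.Agent.Helper50.KR

namespace Pool.Agent.Helper81.HI

section count

variable {k : Type} [Field k] {m : ℕ} {α : Type}

/-- zeros of the linear combinations -/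
noncomputable def Tg (φ : Fin m → α → k) : ℕ :=
  Nat.card {p : (Fin m → k) × α // ∑ l, p.1 l * φ l p.2 = 0}

/-- common zeros -/
noncomputable def Vg (φ : Fin m → α → k) : ℕ := Nat.card {a : α // ∀ l, φ l a = 0}

/-- zeros of the linear combinations with first coefficient 1 -/
noncomputable def Ag (φ : Fin (m + 1) → α → k) : ℕ :=
  Nat.card {p : (Fin m → k) × α // φ 0 p.2 + ∑ l : Fin m, p.1 l * φ l.succ p.2 = 0}

lemma Tg_eq_V [Fintype k] [Finite α] (φ : Fin m → α → k) :
    (Nat.card k : ℤ) * Tg φ = (Nat.card k : ℤ) ^ m *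
      (((Nat.card k : ℤ) - 1) * Vg φ + Nat.card α) := by
  have h := card_form (k := k) (α := α) (I := Fin m) (fun a l => φ l a)
  have h1 : Nat.card {p : α × (Fin m → k) // ∑ i, φ i p.1 * p.2 i = 0} = Tg φ := by
    unfold Tg
    refine Nat.card_congr (Equiv.subtypeEquiv (Equiv.prodComm _ _) fun p => Eq.congr_left ?_)
    exact Finset.sum_congr rfl fun l _ => mul_comm _ _
  rw [h1, Fintype.card_fin] at h
  exact h

lemma Tg_zero (φ : Fin 0 → α → k) : Tg φ = Nat.card α := by
  unfold Tg
  exact Nat.card_congr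
    { toFun := fun p => p.1.2
      invFun := fun a => ⟨(Fin.elim0, a), by simp⟩
      left_inv := fun p => by
        apply Subtype.ext
        apply Prod.ext
        · exact Subsingleton.elim _ _
        · rfl
      right_inv := fun a => rfl }

lemma Tg_succ [Finite k] [Finite α] (φ : Fin (m + 1) → α → k) :
    (Tg φ : ℤ) = Tg (fun l => φ (Fin.succ l)) + ((Nat.card k : ℤ) - 1) * Ag φ := by
  unfold Tg
  rw [card_split _ (fun p : (Fin (m + 1) → k) × α => p.1 0 = 0)]
  push_cast
  congr 1
  · congr 1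
    refine Nat.card_congr
      { toFun := fun p => ⟨(Fin.tail p.1.1, p.1.2), ?_⟩
        invFun := fun p => ⟨(Fin.cons 0 p.1.1, p.1.2), ?_, rfl⟩
        left_inv := fun p => ?_
        right_inv := fun p => ?_ }
    · have h1 := p.2.1
      rw [Fin.sum_univ_succ, p.2.2, zero_mul, zero_add] at h1
      exact h1
    · have h1 := p.2
      rw [Fin.sum_univ_succ]
      simp only [Fin.cons_zero, zero_mul, zero_add, Fin.cons_succ]
      exact h1
    · apply Subtype.ext
      apply Prod.ext
      · show (Fin.cons 0 (Fin.tail p.1.1) : Fin (m + 1) → k) = p.1.1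
        conv_rhs => rw [← Fin.cons_self_tail p.1.1]
        rw [p.2.2]
      · rfl
    · apply Subtype.ext
      apply Prod.ext
      · funext l; rfl
      · rfl
  · have hcard : ((Nat.card k : ℤ) - 1) = (Nat.card kˣ : ℤ) := by
      have := Nat.card_units k
      have h1 : 0 < Nat.card k := Nat.card_pos
      rw [this]
      omega
    rw [hcard, ← Nat.cast_mul, Ag, ← Nat.card_prod]
    congr 1
    have key : ∀ (x : Fin (m + 1) → k) (a : α) (t : k) (x' : Fin m → k), x 0 = t →
        (∀ l : Fin m, x l.succ = t * x' l) →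
        ∑ l, x l * φ l a = t * (φ 0 a + ∑ l : Fin m, x' l * φ l.succ a) := by
      intro x a t x' h0 h
      rw [Fin.sum_univ_succ, h0, mul_add, Finset.mul_sum]
      congr 1
      exact Finset.sum_congr rfl fun l _ => by rw [h l]; ring
    refine Nat.card_congr
      { toFun := fun p => (Units.mk0 (p.1.1 0) p.2.2,
          ⟨(fun l => p.1.1 l.succ / p.1.1 0, p.1.2), ?_⟩)
        invFun := fun p => ⟨(Fin.cons (p.1 : k) (fun l => (p.1 : k) * p.2.1.1 l), p.2.1.2),
          ?_, p.1.ne_zero⟩
        left_inv := fun p => ?_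
        right_inv := fun p => ?_ }
    · have h0 : p.1.1 0 ≠ 0 := p.2.2
      have h1 := p.2.1
      rw [key p.1.1 p.1.2 (p.1.1 0) (fun l => p.1.1 l.succ / p.1.1 0) rfl
        (fun l => by field_simp)] at h1
      exact (mul_eq_zero.mp h1).resolve_left h0
    · show ∑ l, (Fin.cons (p.1 : k) (fun l => (p.1 : k) * p.2.1.1 l) :
        Fin (m + 1) → k) l * φ l p.2.1.2 = 0
      rw [key _ p.2.1.2 (p.1 : k) p.2.1.1 rfl (fun l => rfl), p.2.2, mul_zero]
    · have h0 : p.1.1 0 ≠ 0 := p.2.2
      apply Subtype.ext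
      apply Prod.ext
      · funext l
        refine Fin.cases ?_ (fun l => ?_) l
        · rfl
        · show p.1.1 0 * (p.1.1 l.succ / p.1.1 0) = p.1.1 l.succ
          field_simp
      · rfl
    · apply Prod.ext
      · apply Units.ext; rfl
      · apply Subtype.ext
        apply Prod.ext
        · funext l
          show (p.1 : k) * p.2.1.1 l / (p.1 : k) = p.2.1.1 l
          have := p.1.ne_zero
          field_simp
        · rfl

lemma Tg_inf [Finite k] [Finite α] (φ : Fin (m + 1) → α → k) (h : ∀ a, φ 0 a = 0) :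
    (Tg φ : ℤ) = (Nat.card k : ℤ) * Tg (fun l => φ (Fin.succ l)) := by
  unfold Tg
  rw [← Nat.cast_mul, ← Nat.card_prod]
  congr 1
  refine Nat.card_congr
    { toFun := fun p => (p.1.1 0, ⟨(Fin.tail p.1.1, p.1.2), ?_⟩)
      invFun := fun q => ⟨(Fin.cons q.1 q.2.1.1, q.2.1.2), ?_⟩
      left_inv := fun p => ?_
      right_inv := fun q => ?_ }
  · have h1 := p.2
    rw [Fin.sum_univ_succ, h, mul_zero, zero_add] at h1
    exact h1
  · have h1 := q.2.2
    show ∑ l, (Fin.cons q.1 q.2.1.1 : Fin (m + 1) → k) l * φ l q.2.1.2 = 0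
    rw [Fin.sum_univ_succ, h, mul_zero, zero_add]
    simpa using h1
  · apply Subtype.ext
    apply Prod.ext
    · exact Fin.cons_self_tail p.1.1
    · rfl
  · apply Prod.ext
    · rfl
    · apply Subtype.ext
      apply Prod.ext
      · funext l; rfl
      · rfl

end count

variable {P : (ℕ → ℤ) → Prop} (hP : Cls P)

section

variable {J : Type} [Fintype J] {m : ℕ}

lemma growth_Vg (φ : ∀ n, Fin m → (J → FF n) → FF n) :
    Growth (fun n => ((Vg (φ n) : ℤ) : ℂ)) := by
  unfold Vg
  exact growth_card J fun n y => ∀ l, φ n l y = 0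

lemma growth_Tg (φ : ∀ n, Fin m → (J → FF n) → FF n) :
    Growth (fun n => ((Tg (φ n) : ℤ) : ℂ)) := by
  refine growth_nat (m + Fintype.card J) fun n hn => ?_
  unfold Tg
  refine (Nat.card_le_card_of_injective Subtype.val Subtype.val_injective).trans (le_of_eq ?_)
  rw [Nat.card_prod, Nat.card_fun, Nat.card_fun, card_FF hn,
    Nat.card_eq_fintype_card (α := Fin m), Fintype.card_fin,
    Nat.card_eq_fintype_card (α := J), pow_add]

include hP

lemma Vg_of_Tg (φ : ∀ n, Fin m → (J → FF n) → FF n) (h : P (fun n => (Tg (φ n) : ℤ))) :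
    P (fun n => (Vg (φ n) : ℤ)) := by
  refine hP.of_pred_mul (growth_Vg φ) ?_
  refine hP.of_pow_mul ?_ m (hP.congr (hP.sub (hP.id_mul h)
    (hP.pow (m + Fintype.card J))) fun n hn => ?_)
  · refine ((Growth.id.sub (Growth.const 1)).mul (growth_Vg φ)).congr fun n _ => ?_
    push_cast; rfl
  · have := Tg_eq_V (φ n)
    rw [Nat.card_fun, card_FF hn, Nat.card_eq_fintype_card (α := J)] at this
    rw [this, pow_add]
    push_cast
    ring

lemma Tg_of_Vg (φ : ∀ n, Fin m → (J → FF n) → FF n) (h : P (fun n => (Vg (φ n) : ℤ))) :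
    P (fun n => (Tg (φ n) : ℤ)) := by
  refine hP.of_pow_mul (growth_Tg φ) 1 (hP.congr (hP.pow_mul (hP.add (hP.pred_mul h)
    (hP.pow (Fintype.card J))) m) fun n hn => ?_)
  have := Tg_eq_V (φ n)
  rw [Nat.card_fun, card_FF hn, Nat.card_eq_fintype_card (α := J)] at this
  rw [pow_one, this]
  push_cast
  ring

/-- it is enough to know the normalised linear combinations, in all smaller numbers -/
lemma Tg_of_Ag (m : ℕ) (φ : ∀ n, Fin m → (J → FF n) → FF n)
    (h : ∀ (m' : ℕ) (ψ : Fin (m' + 1) → Fin m), P (fun n => (Ag (fun l => φ n (ψ l)) : ℤ))) :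
    P (fun n => (Tg (φ n) : ℤ)) := by
  induction m with
  | zero =>
    refine hP.congr (hP.pow (Fintype.card J)) fun n hn => ?_
    rw [Tg_zero, Nat.card_fun, card_FF hn, Nat.card_eq_fintype_card (α := J)]
    push_cast; rfl
  | succ m ih =>
    refine hP.congr (hP.add (ih (fun n l => φ n (Fin.succ l)) fun m' ψ =>
      h m' (fun l => Fin.succ (ψ l))) (hP.pred_mul (h m id))) fun n hn => ?_
    rw [Tg_succ, card_FF hn]
    rfl

end

end Pool.Agent.Helper81.HI
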